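import Pool.Agent.D0H95.KP.Good

/-!
Connection of two connected sets in a general finite domain: abstract bounds.
-/

set_option autoImplicit false
set_option maxHeartbeats 400000
set_option linter.unusedVariables false

namespace Pool.Agent.D0H49.CC
open Finset H974 Pool.Agent.H160R2.CV H362P
open Pool.Agent.H160R2.CV.Quad
open H973 (ES mem_ES EV)
open TH976 (sd sd_self sd_comm sd_tri sd_pos fkg incr_and)
open Pool.Agent.D0H95.KP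
open Y989.SD (Blk)

variable {T : Finset Vtx}

/-- an increasing event of probability at least `κ` which implies that some cluster meets all the
paths of `T` crossing the annulus of radii `R`, `K R` around `c` -/
def DecB (T : Finset Vtx) (K : ℕ) (c : Vtx) (R : ℕ) (κ : ℝ) : Prop :=
  ∃ D : Finset Edg → Prop, IncrE (ES T) D ∧ κ ≤ Pr P (ES T) D ∧
    ∀ F, F ⊆ ES T → D F → ∃ z, Blk T (fun u => sd u c ≤ R) (fun w => K * R ≤ sd w c) z F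

/-- an increasing event of probability at least `κ` which implies that some cluster meets all the
paths of `T` of diameter at least `n` -/
def NetB (T : Finset Vtx) (n : ℕ) (κ : ℝ) : Prop :=
  ∃ D : Finset Edg → Prop, IncrE (ES T) D ∧ κ ≤ Pr P (ES T) D ∧
    ∀ F, F ⊆ ES T → D F → ∃ z, ∀ x, Blk T (fun u => u = x) (fun w => n ≤ sd x w) z F

theorem EV_mono {V W : Vtx → Prop} (h : ∀ y, V y → W y) : EV V ⊆ EV W :=
  fun _ he => ⟨h _ he.1, h _ he.2⟩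

theorem Blk_meet {A B : Vtx → Prop} {z : Vtx} {F : Finset Edg} (h : Blk T A B z F)
    {V : Vtx → Prop} (hV : ∀ y, V y → y ∈ T) {u w : Vtx} (hu : V u) (hw : V w) (hA : A u)
    (hB : B w) (hr : Reach (EV V) u w) : ∃ y, V y ∧ Reach (↑F) z y := by
  by_contra hc
  push Not at hc
  exact h u (hV u hu) hA w (hV w hw) hB (hr.mono (EV_mono fun y hy => ⟨hV y hy, hc y hy⟩))

theorem Blk_reach {A B : Vtx → Prop} {z : Vtx} {F : Finset Edg} (hF : F ⊆ ES T)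
    (h : Blk T A B z F) {u w : Vtx} (hu : u ∈ T) (hA : A u) (hB : B w) (hr : Reach (↑F) u w) :
    Reach (↑F) u z := by
  have hw : w ∈ T := reach_mem hF hu hr
  -- the path stays in the cluster of `u`
  have key : ∀ v, Reach (↑F) u v → Reach (EV fun y => y ∈ T ∧ Reach (↑F : Set Edg) u y) u v := by
    intro v hv
    induction hv with
    | refl => exact Reach.refl _ _
    | @tail b c hb hs ih =>
      have hc : Reach (↑F) u c := hb.tail hs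
      have hbT := reach_mem hF hu hb
      have hcT := reach_mem hF hu hc
      refine ih.tail ?_
      obtain ⟨e, he, hcase⟩ := hs
      refine ⟨e, ?_, hcase⟩
      rcases hcase with ⟨h1, h2⟩ | ⟨h1, h2⟩
      · exact ⟨by rw [h1]; exact ⟨hbT, hb⟩, by rw [h2]; exact ⟨hcT, hc⟩⟩
      · exact ⟨by rw [h1]; exact ⟨hcT, hc⟩, by rw [h2]; exact ⟨hbT, hb⟩⟩
  obtain ⟨y, hy, hzy⟩ := Blk_meet h (V := fun y => y ∈ T ∧ Reach (↑F : Set Edg) u y)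
    (fun y hy => hy.1) ⟨hu, Reach.refl _ _⟩ ⟨hw, hr⟩ hA hB (key w hr)
  exact hy.2.trans hzy.symm

theorem DecB.dec {K : ℕ} {c : Vtx} {R : ℕ} {κ : ℝ} (h : DecB T K c R κ) : Dec T K c R κ := by
  obtain ⟨D, hi, hp, hD⟩ := h
  refine ⟨D, hi, hp, fun F hF h1 => ?_⟩
  obtain ⟨z, hz⟩ := hD F hF h1
  exact ⟨z, fun u v hu h2 h3 h4 => Blk_reach hF hz hu h2 h3 h4⟩

theorem NetB.net {n : ℕ} {κ : ℝ} (h : NetB T n κ) : Net T n κ := by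
  obtain ⟨D, hi, hp, hD⟩ := h
  refine ⟨D, hi, hp, fun F hF h1 => ?_⟩
  obtain ⟨z, hz⟩ := hD F hF h1
  exact ⟨z, fun u v hu h2 h3 => Blk_reach hF (hz u) hu rfl h2 h3⟩

/-- two sets are connected -/
def CnS (S1 S2 : Vtx → Prop) (F : Finset Edg) : Prop :=
  ∃ y1 y2 : Vtx, S1 y1 ∧ S2 y2 ∧ Reach (↑F) y1 y2

theorem CnS_incr (S : Finset Edg) (S1 S2 : Vtx → Prop) : IncrE S (CnS S1 S2) := by
  rintro F G h - ⟨y1, y2, h1, h2, h3⟩
  exact ⟨y1, y2, h1, h2, h3.mono (by exact_mod_cast h)⟩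

/-- the set `S` is joined to distance `n` from `c` -/
def Hit (T : Finset Vtx) (S : Vtx → Prop) (c : Vtx) (r n : ℕ) (F : Finset Edg) : Prop :=
  ∃ y u w : Vtx, S y ∧ u ∈ T ∧ sd u c ≤ r ∧ n ≤ sd w c ∧ Reach (↑F) y u ∧ Reach (↑F) u w

/-- `S` contains a path of `T` from `c` to distance `m` -/
def Big (T : Finset Vtx) (S : Vtx → Prop) (c : Vtx) (m : ℕ) : Prop :=
  ∃ w, w ∈ T ∧ S w ∧ m ≤ sd w c ∧ Reach (EV fun y => y ∈ T ∧ S y) c w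

/-- lower bound for the arm of a set -/
theorem hit_low {S : Vtx → Prop} {c : Vtx} (hc : c ∈ T) (hS : S c) {R n K : ℕ} {κ : ℝ}
    (hκ0 : 0 < κ) (hκ1 : κ ≤ 1)
    (h : R = 0 ∨ (K * R ≤ n ∧ Big T S c (K * R) ∧ DecB T K c R κ)) :
    ∃ A : Finset Edg → Prop, IncrE (ES T) A ∧ κ * cT T c R n ≤ Pr P (ES T) A ∧
      ∀ F, F ⊆ ES T → A F → Hit T S c R n F := by
  rcases h with h | ⟨hn, ⟨w0, hw0T, hw0S, hw0, hr0⟩, D, hi, hp, hD⟩
  · subst h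
    refine ⟨Cx T c 0 n, Cx_incr _ _ _ _, ?_, ?_⟩
    · have : 0 ≤ cT T c 0 n := cT_nonneg _ _ _
      unfold cT at this ⊢
      nlinarith
    · rintro F hF ⟨u, v, h0, h1, h2, h3⟩
      have hu : u = c := by
        by_contra hne
        have := sd_pos hne
        omega
      subst hu
      exact ⟨u, u, v, hS, h0, h1, h2, Reach.refl _ _, h3⟩
  · refine ⟨fun F => D F ∧ Cx T c R n F, incr_and hi (Cx_incr _ _ _ _), ?_, ?_⟩
    · exact fkg hi (Cx_incr _ _ _ _) (cT_nonneg _ _ _) hp le_rfl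
    · rintro F hF ⟨h1, u, v, h0, h2, h3, h4⟩
      obtain ⟨z, hz⟩ := hD F hF h1
      obtain ⟨y, hy, hzy⟩ := Blk_meet hz (V := fun y => y ∈ T ∧ S y) (fun y hy => hy.1)
        ⟨hc, hS⟩ ⟨hw0T, hw0S⟩ (by rw [sd_self]; omega) hw0 hr0
      have hm := Blk_reach hF hz h0 h2 (hn.trans h3) h4
      exact ⟨y, u, v, hy.2, h0, h2, h3, hzy.symm.trans hm.symm, h4⟩

/-- joining at a local scale -/
theorem joinD {S1 S2 : Vtx → Prop} {c1 c2 : Vtx} {r1 r2 n1 n2 ρ K : ℕ} {κ p1 p2 : ℝ}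
    (hκ : 0 < κ) (hD : Dec T K c1 ρ κ) (h1 : r1 ≤ ρ) (h2 : sd c2 c1 + r2 ≤ ρ)
    (h3 : K * ρ ≤ n1) (h4 : K * ρ + sd c2 c1 ≤ n2)
    (hp1 : 0 ≤ p1) (hp2 : 0 ≤ p2)
    (H1 : ∃ A : Finset Edg → Prop, IncrE (ES T) A ∧ p1 ≤ Pr P (ES T) A ∧
      ∀ F, F ⊆ ES T → A F → Hit T S1 c1 r1 n1 F)
    (H2 : ∃ A : Finset Edg → Prop, IncrE (ES T) A ∧ p2 ≤ Pr P (ES T) A ∧
      ∀ F, F ⊆ ES T → A F → Hit T S2 c2 r2 n2 F) :
    κ * p1 * p2 ≤ Pr P (ES T) (CnS S1 S2) := by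
  obtain ⟨D, hi, hp, hD⟩ := hD
  obtain ⟨A1, i1, q1, k1⟩ := H1
  obtain ⟨A2, i2, q2, k2⟩ := H2
  have j1 := fkg hi i1 hp1 hp q1
  have j2 := fkg (incr_and hi i1) i2 hp2 j1 q2
  refine j2.trans (Pr_mono okP ?_)
  rintro F hF ⟨⟨g1, g2⟩, g3⟩
  obtain ⟨y1, u1, w1, a1, b1, d1, e1, r1', s1⟩ := k1 F hF g2
  obtain ⟨y2, u2, w2, a2, b2, d2, e2, r2', s2⟩ := k2 F hF g3
  obtain ⟨z, hz⟩ := hD F hF g1
  have m1 := hz u1 w1 b1 (by omega) (by omega) s1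
  have t1 := sd_tri u2 c2 c1
  have t2 := sd_tri w2 c1 c2
  have t3 := sd_comm c1 c2
  have m2 := hz u2 w2 b2 (by omega) (by omega) s2
  exact ⟨y1, y2, a1, a2, (r1'.trans m1).trans (m2.symm.trans r2'.symm)⟩

/-- joining at the macroscopic scale -/
theorem joinN {S1 S2 : Vtx → Prop} {c1 c2 : Vtx} {r1 r2 n1 n2 N : ℕ} {κ p1 p2 : ℝ}
    (hκ : 0 < κ) (hD : Net T N κ) (h1 : N + r1 ≤ n1) (h2 : N + r2 ≤ n2)
    (hp1 : 0 ≤ p1) (hp2 : 0 ≤ p2)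
    (H1 : ∃ A : Finset Edg → Prop, IncrE (ES T) A ∧ p1 ≤ Pr P (ES T) A ∧
      ∀ F, F ⊆ ES T → A F → Hit T S1 c1 r1 n1 F)
    (H2 : ∃ A : Finset Edg → Prop, IncrE (ES T) A ∧ p2 ≤ Pr P (ES T) A ∧
      ∀ F, F ⊆ ES T → A F → Hit T S2 c2 r2 n2 F) :
    κ * p1 * p2 ≤ Pr P (ES T) (CnS S1 S2) := by
  obtain ⟨D, hi, hp, hD⟩ := hD
  obtain ⟨A1, i1, q1, k1⟩ := H1
  obtain ⟨A2, i2, q2, k2⟩ := H2
  have j1 := fkg hi i1 hp1 hp q1
  have j2 := fkg (incr_and hi i1) i2 hp2 j1 q2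
  refine j2.trans (Pr_mono okP ?_)
  rintro F hF ⟨⟨g1, g2⟩, g3⟩
  obtain ⟨y1, u1, w1, a1, b1, d1, e1, r1', s1⟩ := k1 F hF g2
  obtain ⟨y2, u2, w2, a2, b2, d2, e2, r2', s2⟩ := k2 F hF g3
  obtain ⟨z, hz⟩ := hD F hF g1
  have t1 := sd_tri w1 u1 c1
  have t2 := sd_comm w1 u1
  have t3 := sd_tri w2 u2 c2
  have t4 := sd_comm w2 u2
  have m1 := hz u1 w1 b1 (by omega) s1
  have m2 := hz u2 w2 b2 (by omega) s2
  exact ⟨y1, y2, a1, a2, (r1'.trans m1).trans (m2.symm.trans r2'.symm)⟩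

/-- upper bound by one crossing -/
theorem up_one {S1 S2 : Vtx → Prop} {c : Vtx} {m n : ℕ}
    (h1 : ∀ y, S1 y → y ∈ T ∧ sd y c ≤ m) (h2 : ∀ y, S2 y → n ≤ sd y c) :
    Pr P (ES T) (CnS S1 S2) ≤ cT T c m n := by
  apply Pr_mono okP
  rintro F hF ⟨y1, y2, a1, a2, h3⟩
  exact ⟨y1, y2, (h1 y1 a1).1, (h1 y1 a1).2, h2 y2 a2, h3⟩

theorem CnS_comm (S1 S2 : Vtx → Prop) (F : Finset Edg) : CnS S1 S2 F ↔ CnS S2 S1 F :=
  ⟨fun ⟨y1, y2, a, b, c⟩ => ⟨y2, y1, b, a, c.symm⟩, fun ⟨y1, y2, a, b, c⟩ => ⟨y2, y1, b, a, c.symm⟩⟩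

/-- upper bound by two crossings -/
theorem up_two {S1 S2 : Vtx → Prop} {c1 c2 : Vtx} {m1 m2 n : ℕ}
    (h1 : ∀ y, S1 y → y ∈ T ∧ sd y c1 ≤ m1) (h2 : ∀ y, S2 y → y ∈ T ∧ sd y c2 ≤ m2)
    (hm1 : m1 ≤ n) (hm2 : m2 ≤ n) (hn : 2 * n + 1 ≤ sd c1 c2) :
    Pr P (ES T) (CnS S1 S2) ≤ cT T c1 m1 n * cT T c2 m2 n := by
  have hd : Disjoint (bT T c1 n \ bT T c1 m1) (bT T c2 n \ bT T c2 m2) :=
    Finset.disjoint_of_subset_left Finset.sdiff_subset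
      (Finset.disjoint_of_subset_right Finset.sdiff_subset (bT_disj (by omega)))
  have h3 := indep2 (ES T) _ _ hd (CxL_inc c1 m1 n) (CxL_inc c2 m2 n) (CxL_loc c1 m1 n)
    (CxL_loc c2 m2 n)
  refine (le_trans (Pr_mono okP ?_) h3).trans ?_
  · rintro F hF ⟨y1, y2, a1, a2, h4⟩
    obtain ⟨b1, d1⟩ := h1 y1 a1
    obtain ⟨b2, d2⟩ := h2 y2 a2
    have t1 := sd_tri c1 y2 c2
    have t2 := sd_comm c1 y2
    have t3 := sd_tri c2 y1 c1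
    have t4 := sd_comm c2 y1
    have t5 := sd_comm c2 c1
    exact ⟨Cx_loc hF hm1 ⟨y1, y2, b1, d1, by omega, h4⟩,
      Cx_loc hF hm2 ⟨y2, y1, b2, d2, by omega, h4.symm⟩⟩
  · exact mul_le_mul (pr_CxL c1 m1 n) (pr_CxL c2 m2 n) (Pr_nonneg okP _ _) (cT_nonneg _ _ _)

end Pool.Agent.D0H49.CC
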