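import Pool.Agent.D0H49.CC.Abs

/-!
Connection of two connected sets in a general finite domain: bounds by the profile.
-/

set_option autoImplicit false
set_option maxHeartbeats 1000000
set_option linter.unusedVariables false

namespace Pool.Agent.D0H49.CC
open Finset H974 Pool.Agent.H160R2.CV H362P
open Pool.Agent.H160R2.CV.Quad
open H973 (ES mem_ES EV)
open TH976 (sd sd_self sd_comm sd_tri sd_pos fkg incr_and)
open Pool.Agent.D0H95.KP
open Y989.SD (Blk)

variable {T : Finset Vtx} {e : Vtx → ℕ → ℝ} {K M N : ℕ} {κ k : ℝ}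

theorem cT_low (h : Dom T e K M N κ k) {v : Vtx} (hv : v ∈ T) {R n : ℕ} (hRn : R ≤ n)
    (hn : 1 ≤ n) (hnN : n ≤ 2 * N) : κ ^ 2 * e v n ≤ e v (max R 1) * cT T v R n := by
  have κ0 := h.hκ0
  have κ1 := h.hκ1
  have e0 := h.pos hv hn
  have a1 := (h.arm v hv n hn hnN).1
  rcases Nat.eq_zero_or_pos R with h0 | h0
  · subst h0
    have h1 : aT T v n ≤ cT T v 0 n := by
      apply Pr_mono okP
      rintro F - ⟨w, hw, hr⟩
      exact ⟨v, w, hv, by rw [sd_self], hw, hr⟩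
    rw [show max 0 1 = 1 from rfl, h.one v hv, one_mul]
    calc κ ^ 2 * e v n = κ * (κ * e v n) := by ring
      _ ≤ 1 * (κ * e v n) := mul_le_mul_of_nonneg_right κ1 (by positivity)
      _ = κ * e v n := one_mul _
      _ ≤ _ := a1.trans h1
  · have hm : max R 1 = R := max_eq_left h0
    rw [hm]
    have h1 := aT_split (T := T) hv hRn
    have a2 := (h.arm v hv R h0 (hRn.trans hnN)).2
    calc κ ^ 2 * e v n = κ * (κ * e v n) := by ring
      _ ≤ κ * (aT T v R * cT T v R n) := mul_le_mul_of_nonneg_left (a1.trans h1) κ0.le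
      _ = (κ * aT T v R) * cT T v R n := by ring
      _ ≤ _ := mul_le_mul_of_nonneg_right a2 (cT_nonneg _ _ _)

theorem cT_up (h : Dom T e K M N κ k) {J : ℕ} (hJ : 12 * (K * K * M) ≤ 3 ^ J) {v : Vtx}
    (hv : v ∈ T) {m n : ℕ} (hm : 1 ≤ m) (hmN : m ≤ N) (hn : 1 ≤ n) (hnN : n ≤ 2 * N) :
    κ ^ 3 * (e v m * cT T v m n) ≤ k ^ (J + 1) * e v n := by
  have κ0 := h.hκ0
  have κ1 := h.hκ1
  have hM := h.hM
  have hK := h.hK
  have k1 := h.reg.hk
  have A0 : 0 < k ^ (J + 1) := by positivity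
  have hKK : K ≤ K * K * M := by nlinarith [Nat.mul_le_mul (show 1 ≤ K by omega) hM, Nat.mul_le_mul_left K (show 1 ≤ K * M from Nat.mul_pos (by omega) (by omega))]
  have em := h.pos hv hm
  have en := h.pos hv hn
  have c0 : 0 ≤ cT T v m n := cT_nonneg _ _ _
  have c1 : cT T v m n ≤ 1 := cT_le_one _ _ _
  rcases Nat.lt_or_ge n (K * m) with hc | hc
  · have h1 : e v m ≤ k ^ (J + 1) * e v n := by
      apply h.sc J hv hm hn
      exact hc.le.trans (Nat.mul_le_mul_right _ (by omega))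
    calc κ ^ 3 * (e v m * cT T v m n) ≤ 1 * (e v m * 1) := by
          apply mul_le_mul (pow_le_one₀ κ0.le κ1) _ (by positivity) zero_le_one
          exact mul_le_mul_of_nonneg_left c1 em.le
      _ = e v m := by ring
      _ ≤ _ := h1
  · have hKm : 1 ≤ K * m := Nat.mul_pos (by omega) (by omega)
    have g := aT_glue (T := T) hv hc κ0 (h.dec v hv m hm hmN)
    have a1 := (h.arm v hv (K * m) hKm (hc.trans hnN)).1
    have a2 := (h.arm v hv n hn hnN).2
    have h1 : e v m ≤ k ^ (J + 1) * e v (K * m) := by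
      apply h.sc J hv hm hKm
      exact Nat.mul_le_mul_right _ (by omega)
    calc κ ^ 3 * (e v m * cT T v m n) ≤ κ ^ 3 * ((k ^ (J + 1) * e v (K * m)) * cT T v m n) := by
          apply mul_le_mul_of_nonneg_left _ (by positivity)
          exact mul_le_mul_of_nonneg_right h1 c0
      _ = k ^ (J + 1) * (κ ^ 2 * ((κ * e v (K * m)) * cT T v m n)) := by ring
      _ ≤ k ^ (J + 1) * (κ ^ 2 * (aT T v (K * m) * cT T v m n)) := by
          apply mul_le_mul_of_nonneg_left _ A0.le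
          apply mul_le_mul_of_nonneg_left _ (by positivity)
          exact mul_le_mul_of_nonneg_right a1 c0
      _ = k ^ (J + 1) * (κ * (κ * (aT T v (K * m) * cT T v m n))) := by ring
      _ ≤ k ^ (J + 1) * (κ * aT T v n) := by
          apply mul_le_mul_of_nonneg_left _ A0.le
          exact mul_le_mul_of_nonneg_left g κ0.le
      _ ≤ _ := mul_le_mul_of_nonneg_left a2 A0.le

/-- **Lower bound.** -/
theorem low_main (h : Dom T e K M N κ k)
    (hB : ∀ c ∈ T, ∀ R : ℕ, 1 ≤ R → R ≤ N → DecB T K c R κ)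
    {J : ℕ} (hJ : 12 * (K * K * M) ≤ 3 ^ J) {S1 S2 : Vtx → Prop} {c1 c2 : Vtx} (hc1 : c1 ∈ T)
    (hc2 : c2 ∈ T) (hS1 : S1 c1) (hS2 : S2 c2) {a R1 R2 : ℕ} (ha : sd c1 c2 ≤ a) (ha1 : 1 ≤ a)
    (h1 : R1 = 0 ∨ (K * R1 ≤ a ∧ K * R1 ≤ N ∧ Big T S1 c1 (K * R1)))
    (h2 : R2 = 0 ∨ (K * R2 ≤ a ∧ K * R2 ≤ N ∧ Big T S2 c2 (K * R2))) :
    κ ^ 7 * (e c1 a * e c2 a) ≤
      (k ^ (J + 1)) ^ 2 * ((e c1 (max R1 1) * e c2 (max R2 1)) * Pr P (ES T) (CnS S1 S2)) := by
  have κ0 := h.hκ0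
  have κ1 := h.hκ1
  have hM := h.hM
  have hK := h.hK
  have hN := h.hN
  have k1 := h.reg.hk
  have A0 : 0 < k ^ (J + 1) := by positivity
  have hKKM : K ≤ K * K * M := by nlinarith [Nat.mul_le_mul_left K (show 1 ≤ K * M from Nat.mul_pos (by omega) (by omega))]
  have hrad : ∀ R : ℕ, K * R ≤ a → R ≤ a := fun R hR => by nlinarith
  have hradN : ∀ R : ℕ, K * R ≤ N → R ≤ N := fun R hR => by nlinarith
  have q1 : R1 ≤ a ∧ R1 ≤ N ∧ K * R1 ≤ a ∧ K * R1 ≤ N := by
    rcases h1 with h1 | ⟨h1, h1', -⟩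
    · subst h1; simp
    · exact ⟨hrad _ h1, hradN _ h1', h1, h1'⟩
  have q2 : R2 ≤ a ∧ R2 ≤ N ∧ K * R2 ≤ a ∧ K * R2 ≤ N := by
    rcases h2 with h2 | ⟨h2, h2', -⟩
    · subst h2; simp
    · exact ⟨hrad _ h2, hradN _ h2', h2, h2'⟩
  have Hit1 : ∀ n : ℕ, K * R1 ≤ n → ∃ A : Finset Edg → Prop, IncrE (ES T) A ∧
      κ * cT T c1 R1 n ≤ Pr P (ES T) A ∧ ∀ F, F ⊆ ES T → A F → Hit T S1 c1 R1 n F := by
    intro n hn
    apply hit_low hc1 hS1 (K := K) κ0 κ1
    rcases Nat.eq_zero_or_pos R1 with h0 | h0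
    · exact Or.inl h0
    · right
      rcases h1 with h1 | h1
      · omega
      · exact ⟨hn, h1.2.2, hB c1 hc1 R1 h0 q1.2.1⟩
  have Hit2 : ∀ n : ℕ, K * R2 ≤ n → ∃ A : Finset Edg → Prop, IncrE (ES T) A ∧
      κ * cT T c2 R2 n ≤ Pr P (ES T) A ∧ ∀ F, F ⊆ ES T → A F → Hit T S2 c2 R2 n F := by
    intro n hn
    apply hit_low hc2 hS2 (K := K) κ0 κ1
    rcases Nat.eq_zero_or_pos R2 with h0 | h0
    · exact Or.inl h0
    · right
      rcases h2 with h2 | h2
      · omega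
      · exact ⟨hn, h2.2.2, hB c2 hc2 R2 h0 q2.2.1⟩
  obtain ⟨n, hn1, hnN, hR1n, hR2n, hna, hlow⟩ : ∃ n : ℕ, 1 ≤ n ∧ n ≤ 2 * N ∧ R1 ≤ n ∧ R2 ≤ n ∧
      n ≤ 3 ^ J * a ∧ κ * (κ * cT T c1 R1 n) * (κ * cT T c2 R2 n) ≤
        Pr P (ES T) (CnS S1 S2) := by
    rcases Nat.lt_or_ge (2 * N) ((2 * K + 1) * a) with hc | hc
    · refine ⟨2 * N, by omega, le_rfl, by omega, by omega, ?_, ?_⟩
      · refine hc.le.trans (Nat.mul_le_mul_right _ ?_)
        omega
      · exact joinN κ0 h.net (by omega) (by omega)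
          (mul_nonneg κ0.le (cT_nonneg _ _ _)) (mul_nonneg κ0.le (cT_nonneg _ _ _))
          (Hit1 _ (by omega)) (Hit2 _ (by omega))
    · have e1 : (2 * K + 1) * a = K * (2 * a) + a := by ring
      have e2 : 3 * (2 * a) ≤ K * (2 * a) := Nat.mul_le_mul_right _ hK
      have t := sd_comm c1 c2
      refine ⟨(2 * K + 1) * a, by omega, hc, by omega, by omega, ?_, ?_⟩
      · exact Nat.mul_le_mul_right _ (by omega)
      · exact joinD (ρ := 2 * a) (K := K) κ0 (h.dec c1 hc1 (2 * a) (by omega) (by omega))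
          (by omega) (by omega) (by omega) (by omega)
          (mul_nonneg κ0.le (cT_nonneg _ _ _)) (mul_nonneg κ0.le (cT_nonneg _ _ _))
          (Hit1 _ (by omega)) (Hit2 _ (by omega))
  have l1 := cT_low h hc1 hR1n hn1 hnN
  have l2 := cT_low h hc2 hR2n hn1 hnN
  have s1 : e c1 a ≤ k ^ (J + 1) * e c1 n := h.sc J hc1 ha1 hn1 hna
  have s2 : e c2 a ≤ k ^ (J + 1) * e c2 n := h.sc J hc2 ha1 hn1 hna
  have p1 := h.pos hc1 hn1
  have p2 := h.pos hc2 hn1
  have p3 := h.pos hc1 ha1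
  have p4 := h.pos hc2 ha1
  have p5 := h.pos hc1 (le_max_right R1 1)
  have p6 := h.pos hc2 (le_max_right R2 1)
  generalize Pr P (ES T) (CnS S1 S2) = Q at *
  have d1 : 0 ≤ cT T c1 R1 n := cT_nonneg _ _ _
  have d2 : 0 ≤ cT T c2 R2 n := cT_nonneg _ _ _
  generalize cT T c1 R1 n = x at *
  generalize cT T c2 R2 n = y at *
  generalize e c1 (max R1 1) = f1 at *
  generalize e c2 (max R2 1) = f2 at *
  calc κ ^ 7 * (e c1 a * e c2 a) ≤
        κ ^ 7 * ((k ^ (J + 1) * e c1 n) * (k ^ (J + 1) * e c2 n)) := by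
        apply mul_le_mul_of_nonneg_left _ (by positivity)
        exact mul_le_mul s1 s2 p4.le (by positivity)
    _ = (k ^ (J + 1)) ^ 2 * (κ ^ 3 * ((κ ^ 2 * e c1 n) * (κ ^ 2 * e c2 n))) := by ring
    _ ≤ (k ^ (J + 1)) ^ 2 * (κ ^ 3 * ((f1 * x) * (f2 * y))) := by
        apply mul_le_mul_of_nonneg_left _ (by positivity)
        apply mul_le_mul_of_nonneg_left _ (by positivity)
        exact mul_le_mul l1 l2 (by positivity) (by positivity)
    _ = (k ^ (J + 1)) ^ 2 * ((f1 * f2) * (κ * (κ * x) * (κ * y))) := by ring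
    _ ≤ _ := by
        apply mul_le_mul_of_nonneg_left _ (by positivity)
        exact mul_le_mul_of_nonneg_left hlow (by positivity)

/-- **Upper bound.** -/
theorem up_main (h : Dom T e K M N κ k) {J : ℕ} (hJ : 12 * (K * K * M) ≤ 3 ^ J)
    {S1 S2 : Vtx → Prop} {c1 c2 : Vtx} (hc1 : S1 c1) (hc2 : S2 c2) {a m1 m2 : ℕ} (ha : 1 ≤ a)
    (hm1 : 1 ≤ m1) (hm2 : 1 ≤ m2) (h1 : ∀ y, S1 y → y ∈ T ∧ sd y c1 ≤ m1)
    (h2 : ∀ y, S2 y → y ∈ T ∧ sd y c2 ≤ m2) (hd : ∀ y1 y2, S1 y1 → S2 y2 → a ≤ sd y1 y2) :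
    κ ^ 6 * ((e c1 (min m1 a) * e c2 (min m2 a)) * Pr P (ES T) (CnS S1 S2)) ≤
      (k ^ (J + 1)) ^ 4 * (e c1 a * e c2 a) := by
  have κ0 := h.hκ0
  have κ1 := h.hκ1
  have hM := h.hM
  have hK := h.hK
  have hN := h.hN
  have k1 := h.reg.hk
  set A := k ^ (J + 1) with hA
  have A1 : 1 ≤ A := one_le_pow₀ k1
  have A0 : 0 < A := by linarith
  have hKK : 9 ≤ K * K := Nat.mul_le_mul hK hK
  have hMK : 9 * M ≤ K * K * M := Nat.mul_le_mul_right _ hKK
  have c1T := (h1 c1 hc1).1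
  have c2T := (h2 c2 hc2).1
  have haM : a ≤ M * N := (hd c1 c2 hc1 hc2).trans (h.diam c1 c1T c2 c2T)
  have Q0 : 0 ≤ Pr P (ES T) (CnS S1 S2) := Pr_nonneg okP _ _
  have Q1 : Pr P (ES T) (CnS S1 S2) ≤ 1 := Pr_le_one okP _ _
  obtain ⟨n, hn⟩ : ∃ n : ℕ, n = min ((a - 1) / 2) N := ⟨_, rfl⟩
  have e1a := h.pos c1T ha
  have e2a := h.pos c2T ha
  have e1m := h.pos c1T (show 1 ≤ min m1 a by omega)
  have e2m := h.pos c2T (show 1 ≤ min m2 a by omega)
  -- a large set
  have large : ∀ (v : Vtx), v ∈ T → ∀ m : ℕ, 1 ≤ m → n < m → e v (min m a) ≤ A * e v a := by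
    intro v hv m hm hnm
    apply h.sc J hv (by omega) ha
    have : a ≤ (4 * M) * min m a := by
      rcases le_total m a with h3 | h3
      · rw [min_eq_left h3]
        rcases le_total ((a - 1) / 2) N with h4 | h4
        · rw [min_eq_left h4] at hn
          have h5 : a ≤ 4 * m := by omega
          calc a ≤ 4 * m := h5
            _ = (4 * 1) * m := by ring
            _ ≤ (4 * M) * m := Nat.mul_le_mul_right _ (Nat.mul_le_mul_left _ hM)
        · rw [min_eq_right h4] at hn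
          calc a ≤ M * N := haM
            _ ≤ M * m := Nat.mul_le_mul_left _ (by omega)
            _ ≤ (4 * M) * m := Nat.mul_le_mul_right _ (by omega)
      · rw [min_eq_right h3]
        calc a = 1 * a := (one_mul a).symm
          _ ≤ (4 * M) * a := Nat.mul_le_mul_right _ (by omega)
    exact this.trans (Nat.mul_le_mul_right _ (by omega))
  -- a small set
  have small : ∀ (v : Vtx), v ∈ T → ∀ m : ℕ, 1 ≤ m → m ≤ n →
      κ ^ 3 * (e v (min m a) * cT T v m n) ≤ A ^ 2 * e v a := by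
    intro v hv m hm hmn
    have hma : min m a = m := by omega
    rw [hma]
    have hn1 : 1 ≤ n := by omega
    have g := cT_up h hJ hv hm (show m ≤ N by omega) hn1 (show n ≤ 2 * N by omega)
    have g2 : e v n ≤ A * e v a := by
      apply h.sc J hv hn1 ha
      have : a ≤ (4 * M) * n := by
        rcases le_total ((a - 1) / 2) N with h4 | h4
        · rw [min_eq_left h4] at hn
          have h5 : a ≤ 4 * n := by omega
          calc a ≤ 4 * n := h5
            _ = (4 * 1) * n := by ring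
            _ ≤ (4 * M) * n := Nat.mul_le_mul_right _ (Nat.mul_le_mul_left _ hM)
        · rw [min_eq_right h4] at hn
          calc a ≤ M * N := haM
            _ = M * n := by rw [hn]
            _ ≤ (4 * M) * n := Nat.mul_le_mul_right _ (by omega)
      exact this.trans (Nat.mul_le_mul_right _ (by omega))
    calc κ ^ 3 * (e v m * cT T v m n) ≤ A * e v n := g
      _ ≤ A * (A * e v a) := mul_le_mul_of_nonneg_left g2 A0.le
      _ = _ := by ring
  have κ3 : κ ^ 3 ≤ 1 := pow_le_one₀ κ0.le κ1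
  have hdc := hd c1 c2 hc1 hc2
  rcases Nat.lt_or_ge n m1 with b1 | b1 <;> rcases Nat.lt_or_ge n m2 with b2 | b2
  · have l1 := large c1 c1T m1 hm1 b1
    have l2 := large c2 c2T m2 hm2 b2
    calc κ ^ 6 * ((e c1 (min m1 a) * e c2 (min m2 a)) * Pr P (ES T) (CnS S1 S2)) ≤
          1 * (((A * e c1 a) * (A * e c2 a)) * 1) := by
          apply mul_le_mul (pow_le_one₀ κ0.le κ1) _ (by positivity) zero_le_one
          apply mul_le_mul _ Q1 Q0 (by positivity)
          exact mul_le_mul l1 l2 e2m.le (by positivity)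
      _ = A ^ 2 * (e c1 a * e c2 a) := by ring
      _ ≤ _ := mul_le_mul_of_nonneg_right (pow_le_pow_right₀ A1 (by norm_num)) (by positivity)
  · have l1 := large c1 c1T m1 hm1 b1
    have l2 := small c2 c2T m2 hm2 b2
    have up : Pr P (ES T) (CnS S1 S2) ≤ cT T c2 m2 n := by
      have e1 : Pr P (ES T) (CnS S1 S2) = Pr P (ES T) (CnS S2 S1) := by
        congr 1
        funext F
        exact propext (CnS_comm S1 S2 F)
      rw [e1]
      exact up_one h2 (fun y hy => by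
        have := hd y c2 hy hc2
        omega)
    have c0 : 0 ≤ cT T c2 m2 n := cT_nonneg _ _ _
    calc κ ^ 6 * ((e c1 (min m1 a) * e c2 (min m2 a)) * Pr P (ES T) (CnS S1 S2)) =
          κ ^ 3 * (e c1 (min m1 a) * (κ ^ 3 * (e c2 (min m2 a) * Pr P (ES T) (CnS S1 S2)))) := by
          ring
      _ ≤ 1 * ((A * e c1 a) * (A ^ 2 * e c2 a)) := by
          apply mul_le_mul κ3 _ (by positivity) zero_le_one
          apply mul_le_mul l1 _ (by positivity) (by positivity)
          refine le_trans ?_ l2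
          apply mul_le_mul_of_nonneg_left _ (by positivity)
          exact mul_le_mul_of_nonneg_left up e2m.le
      _ = A ^ 3 * (e c1 a * e c2 a) := by ring
      _ ≤ _ := mul_le_mul_of_nonneg_right (pow_le_pow_right₀ A1 (by norm_num)) (by positivity)
  · have l2 := large c2 c2T m2 hm2 b2
    have l1 := small c1 c1T m1 hm1 b1
    have up : Pr P (ES T) (CnS S1 S2) ≤ cT T c1 m1 n :=
      up_one h1 (fun y hy => by
        have := hd c1 y hc1 hy
        have := sd_comm c1 y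
        omega)
    have c0 : 0 ≤ cT T c1 m1 n := cT_nonneg _ _ _
    calc κ ^ 6 * ((e c1 (min m1 a) * e c2 (min m2 a)) * Pr P (ES T) (CnS S1 S2)) =
          κ ^ 3 * (e c2 (min m2 a) * (κ ^ 3 * (e c1 (min m1 a) * Pr P (ES T) (CnS S1 S2)))) := by
          ring
      _ ≤ 1 * ((A * e c2 a) * (A ^ 2 * e c1 a)) := by
          apply mul_le_mul κ3 _ (by positivity) zero_le_one
          apply mul_le_mul l2 _ (by positivity) (by positivity)
          refine le_trans ?_ l1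
          apply mul_le_mul_of_nonneg_left _ (by positivity)
          exact mul_le_mul_of_nonneg_left up e1m.le
      _ = A ^ 3 * (e c1 a * e c2 a) := by ring
      _ ≤ _ := mul_le_mul_of_nonneg_right (pow_le_pow_right₀ A1 (by norm_num)) (by positivity)
  · have l1 := small c1 c1T m1 hm1 b1
    have l2 := small c2 c2T m2 hm2 b2
    have up := up_two (T := T) h1 h2 b1 b2 (show 2 * n + 1 ≤ sd c1 c2 by omega)
    have c0 : 0 ≤ cT T c1 m1 n := cT_nonneg _ _ _
    have c0' : 0 ≤ cT T c2 m2 n := cT_nonneg _ _ _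
    calc κ ^ 6 * ((e c1 (min m1 a) * e c2 (min m2 a)) * Pr P (ES T) (CnS S1 S2)) ≤
          κ ^ 6 * ((e c1 (min m1 a) * e c2 (min m2 a)) * (cT T c1 m1 n * cT T c2 m2 n)) := by
          apply mul_le_mul_of_nonneg_left _ (by positivity)
          exact mul_le_mul_of_nonneg_left up (by positivity)
      _ = (κ ^ 3 * (e c1 (min m1 a) * cT T c1 m1 n)) *
          (κ ^ 3 * (e c2 (min m2 a) * cT T c2 m2 n)) := by ring
      _ ≤ (A ^ 2 * e c1 a) * (A ^ 2 * e c2 a) := mul_le_mul l1 l2 (by positivity) (by positivity)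
      _ = _ := by ring

end Pool.Agent.D0H49.CC
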