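import Mathlib

/-!
The four point function of the disc and its value for two connected sets.
-/

set_option autoImplicit false
set_option maxHeartbeats 1000000

namespace Pool.Agent.D0H49.CC
open Complex ComplexConjugate

noncomputable def X4 (p p' q q' : ℂ) : ℝ := ‖p - p'‖ * ‖q - q'‖
noncomputable def Y4 (p p' q q' : ℂ) : ℝ := ‖p - q‖ * ‖p' - q'‖
noncomputable def Z4 (p p' q q' : ℂ) : ℝ := ‖1 - conj p * p'‖ * ‖1 - conj q * q'‖

/-- the four point function -/
noncomputable def ph (p p' q q' : ℂ) : ℝ :=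
  (X4 p p' q q' / Y4 p p' q q') ^ (5 / 48 : ℝ) *
    (min 1 (Z4 p p' q q' / Y4 p p' q q')) ^ (11 / 48 : ℝ)

/-- its supremum over two sets, truncated at one -/
noncomputable def Psi (k1 k2 : Set ℂ) : ℝ :=
  sSup {r | ∃ p ∈ k1, ∃ p' ∈ k1, ∃ q ∈ k2, ∃ q' ∈ k2, r = min 1 (ph p p' q q')}

/-- the factor of one set -/
noncomputable def fa (a s r : ℝ) : ℝ :=
  (min r a / a) ^ (5 / 48 : ℝ) * (min 1 (max s (min r a) / a)) ^ (11 / 48 : ℝ)

theorem X4_nonneg (p p' q q' : ℂ) : 0 ≤ X4 p p' q q' := by unfold X4; positivity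
theorem Y4_nonneg (p p' q q' : ℂ) : 0 ≤ Y4 p p' q q' := by unfold Y4; positivity
theorem Z4_nonneg (p p' q q' : ℂ) : 0 ≤ Z4 p p' q q' := by unfold Z4; positivity

theorem ph_nonneg (p p' q q' : ℂ) : 0 ≤ ph p p' q q' := by
  unfold ph
  have h1 := X4_nonneg p p' q q'
  have h2 := Y4_nonneg p p' q q'
  have h3 := Z4_nonneg p p' q q'
  positivity

theorem fa_nonneg {a s r : ℝ} (ha : 0 < a) (hr : 0 ≤ r) : 0 ≤ fa a s r := by
  unfold fa
  have h1 : 0 ≤ min r a := le_min hr ha.le
  have h2 : 0 ≤ max s (min r a) := h1.trans (le_max_right _ _)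
  positivity

theorem fa_le_one {a s r : ℝ} (ha : 0 < a) (hr : 0 ≤ r) : fa a s r ≤ 1 := by
  unfold fa
  have h1 : 0 ≤ min r a := le_min hr ha.le
  have h2 : 0 ≤ max s (min r a) := h1.trans (le_max_right _ _)
  have h3 : min r a / a ≤ 1 := by rw [div_le_one ha]; exact min_le_right _ _
  calc _ ≤ (1 : ℝ) * 1 := by
        apply mul_le_mul
        · exact Real.rpow_le_one (by positivity) h3 (by norm_num)
        · exact Real.rpow_le_one (by positivity) (min_le_left _ _) (by norm_num)
        · positivity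
        · norm_num
    _ = 1 := by ring

theorem Z_low {p p' : ℂ} (hp : ‖p‖ ≤ 1) (hp' : ‖p'‖ ≤ 1) :
    max (1 - ‖p‖) ‖p - p'‖ ≤ ‖1 - conj p * p'‖ := by
  apply max_le
  · have h1 : ‖conj p * p'‖ ≤ ‖p‖ := by
      rw [norm_mul, Complex.norm_conj]
      nlinarith [norm_nonneg p]
    have h2 := norm_sub_norm_le (1 : ℂ) (conj p * p')
    rw [norm_one] at h2
    linarith
  · have e1 : ‖1 - conj p * p'‖ ^ 2 = ‖p - p'‖ ^ 2 + (1 - ‖p‖ ^ 2) * (1 - ‖p'‖ ^ 2) := by
      rw [← Complex.normSq_eq_norm_sq, ← Complex.normSq_eq_norm_sq, ← Complex.normSq_eq_norm_sq,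
        ← Complex.normSq_eq_norm_sq]
      simp only [Complex.normSq_apply, Complex.sub_re, Complex.sub_im, Complex.mul_re,
        Complex.mul_im, Complex.conj_re, Complex.conj_im, Complex.one_re, Complex.one_im]
      ring
    have h1 : 0 ≤ (1 - ‖p‖ ^ 2) * (1 - ‖p'‖ ^ 2) := by
      apply mul_nonneg
      · nlinarith [norm_nonneg p]
      · nlinarith [norm_nonneg p']
    apply le_of_sq_le_sq _ (norm_nonneg _)
    linarith

theorem Z_up {p p' : ℂ} (hp : ‖p‖ ≤ 1) : ‖1 - conj p * p'‖ ≤ 2 * (1 - ‖p‖) + ‖p - p'‖ := by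
  have e1 : 1 - conj p * p' = ((1 - ‖p‖ ^ 2 : ℝ) : ℂ) + conj p * (p - p') := by
    have : conj p * p = ((‖p‖ ^ 2 : ℝ) : ℂ) := by
      rw [mul_comm, Complex.mul_conj, Complex.normSq_eq_norm_sq]
    rw [mul_sub, this]
    push_cast
    ring
  rw [e1]
  refine (norm_add_le _ _).trans ?_
  rw [Complex.norm_real, norm_mul, Complex.norm_conj, Real.norm_of_nonneg (by
    nlinarith [norm_nonneg p])]
  nlinarith [norm_nonneg p, norm_nonneg (p - p')]

theorem min_mul_le {x y : ℝ} (hx : 0 ≤ x) (hy : 0 ≤ y) : min 1 x * min 1 y ≤ min 1 (x * y) := by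
  apply le_min
  · have h1 : min 1 x ≤ 1 := min_le_left _ _
    have h2 : min 1 y ≤ 1 := min_le_left _ _
    have h3 : 0 ≤ min 1 x := le_min zero_le_one hx
    have h4 : 0 ≤ min 1 y := le_min zero_le_one hy
    nlinarith
  · exact mul_le_mul (min_le_right _ _) (min_le_right _ _) (le_min zero_le_one hy) hx

/-- lower bound of the four point function -/
theorem ph_low {a s1 s2 r1 r2 : ℝ} {p p' q q' : ℂ} (ha : 0 < a) (hr1 : 0 ≤ r1) (hr2 : 0 ≤ r2)
    (hp : ‖p‖ ≤ 1) (hp' : ‖p'‖ ≤ 1) (hq : ‖q‖ ≤ 1) (hq' : ‖q'‖ ≤ 1)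
    (hs1 : s1 = 1 - ‖p‖) (hs2 : s2 = 1 - ‖q‖) (hpq : ‖p - q‖ = a) (hpq' : 0 < ‖p' - q'‖)
    (h1 : ‖p - p'‖ = min r1 a) (h2 : ‖q - q'‖ = min r2 a) :
    1 / 3 * (fa a s1 r1 * fa a s2 r2) ≤ min 1 (ph p p' q q') := by
  set x := min r1 a with hx
  set y := min r2 a with hy
  have x0 : 0 ≤ x := le_min hr1 ha.le
  have y0 : 0 ≤ y := le_min hr2 ha.le
  have xa : x ≤ a := min_le_right _ _
  have ya : y ≤ a := min_le_right _ _
  have f1 := fa_nonneg (s := s1) ha hr1
  have f2 := fa_nonneg (s := s2) ha hr2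
  have g1 := fa_le_one (s := s1) ha hr1
  have g2 := fa_le_one (s := s2) ha hr2
  apply le_min
  · nlinarith [mul_nonneg f1 f2]
  · have hYle : Y4 p p' q q' ≤ 3 * a ^ 2 := by
      unfold Y4
      rw [hpq]
      have : ‖p' - q'‖ ≤ x + a + y := by
        have e : p' - q' = -(p - p') + (p - q) + (q - q') := by ring
        rw [e]
        refine norm_add₃_le.trans ?_
        rw [norm_neg, h1, h2, hpq]
      nlinarith
    have hY0 : 0 < Y4 p p' q q' := by
      unfold Y4
      rw [hpq]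
      positivity
    have hX : X4 p p' q q' = x * y := by unfold X4; rw [h1, h2]
    have hZ : max s1 x * max s2 y ≤ Z4 p p' q q' := by
      unfold Z4
      have z1 := Z_low hp hp'
      have z2 := Z_low hq hq'
      rw [h1, ← hs1] at z1
      rw [h2, ← hs2] at z2
      exact mul_le_mul z1 z2 (y0.trans (le_max_right _ _)) (norm_nonneg _)
    have m1 : 0 ≤ max s1 x := x0.trans (le_max_right _ _)
    have m2 : 0 ≤ max s2 y := y0.trans (le_max_right _ _)
    have a1 : 1 / 3 * ((x / a) * (y / a)) ≤ X4 p p' q q' / Y4 p p' q q' := by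
      rw [hX, le_div_iff₀ hY0]
      calc 1 / 3 * ((x / a) * (y / a)) * Y4 p p' q q' ≤
          1 / 3 * ((x / a) * (y / a)) * (3 * a ^ 2) :=
            mul_le_mul_of_nonneg_left hYle (by positivity)
        _ = x * y := by field_simp
    have a2 : 1 / 3 * (min 1 (max s1 x / a) * min 1 (max s2 y / a)) ≤
        min 1 (Z4 p p' q q' / Y4 p p' q q') := by
      have b1 := min_mul_le (x := max s1 x / a) (y := max s2 y / a) (by positivity) (by positivity)
      apply le_min
      · have := b1.trans (min_le_left _ _)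
        linarith
      · have b2 := b1.trans (min_le_right _ _)
        rw [le_div_iff₀ hY0]
        calc 1 / 3 * (min 1 (max s1 x / a) * min 1 (max s2 y / a)) * Y4 p p' q q' ≤
            1 / 3 * (max s1 x / a * (max s2 y / a)) * (3 * a ^ 2) := by
              apply mul_le_mul (mul_le_mul_of_nonneg_left b2 (by norm_num)) hYle hY0.le
                (by positivity)
          _ = max s1 x * max s2 y := by field_simp
          _ ≤ _ := hZ
    have t3 : (1 / 3 : ℝ) ≤ (1 / 3 : ℝ) ^ (5 / 48 : ℝ) * (1 / 3 : ℝ) ^ (11 / 48 : ℝ) := by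
      rw [← Real.rpow_add (by norm_num)]
      calc (1 / 3 : ℝ) = (1 / 3 : ℝ) ^ (1 : ℝ) := (Real.rpow_one _).symm
        _ ≤ _ := Real.rpow_le_rpow_of_exponent_ge (by norm_num) (by norm_num) (by norm_num)
    have n1 : 0 ≤ min 1 (max s1 x / a) := by positivity
    have n2 : 0 ≤ min 1 (max s2 y / a) := by positivity
    calc 1 / 3 * (fa a s1 r1 * fa a s2 r2) ≤
        ((1 / 3 : ℝ) ^ (5 / 48 : ℝ) * (1 / 3 : ℝ) ^ (11 / 48 : ℝ)) * (fa a s1 r1 * fa a s2 r2) :=
          mul_le_mul_of_nonneg_right t3 (mul_nonneg f1 f2)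
      _ = (1 / 3 * ((x / a) * (y / a))) ^ (5 / 48 : ℝ) *
          (1 / 3 * (min 1 (max s1 x / a) * min 1 (max s2 y / a))) ^ (11 / 48 : ℝ) := by
          unfold fa
          rw [← hx, ← hy, Real.mul_rpow (by norm_num) (by positivity),
            Real.mul_rpow (x := x / a) (by positivity) (by positivity),
            Real.mul_rpow (by norm_num) (mul_nonneg n1 n2), Real.mul_rpow n1 n2]
          ring
      _ ≤ _ := by
          unfold ph
          apply mul_le_mul
          · exact Real.rpow_le_rpow (by positivity) a1 (by norm_num)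
          · exact Real.rpow_le_rpow (by positivity) a2 (by norm_num)
          · positivity
          · exact Real.rpow_nonneg (div_nonneg (X4_nonneg _ _ _ _) hY0.le) _

/-- upper bound when the first set is small -/
theorem ph_up1 {a s1 s2 r1 r2 : ℝ} {p p' q q' w1 w2 : ℂ} (ha : 0 < a) (hr1 : 0 ≤ r1)
    (hr2 : 0 ≤ r2) (hra : r1 < a)
    (hp : ‖p‖ ≤ 1) (hp' : ‖p'‖ ≤ 1) (hq : ‖q‖ ≤ 1) (hq' : ‖q'‖ ≤ 1)
    (hw1 : ‖w1‖ ≤ 1) (hw2 : ‖w2‖ ≤ 1) (hw : ‖w1 - w2‖ = a)
    (hs1 : s1 = 1 - ‖w1‖) (hs2 : s2 = 1 - ‖w2‖) (hpq : a ≤ ‖p - q‖) (hpq' : a ≤ ‖p' - q'‖)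
    (h1 : ‖p - w1‖ ≤ r1) (h1' : ‖p' - w1‖ ≤ r1) (h2 : ‖q - w2‖ ≤ r2) (h2' : ‖q' - w2‖ ≤ r2) :
    ph p p' q q' ≤ 10368 * (fa a s1 r1 * fa a s2 r2) := by
  obtain ⟨b, hb⟩ : ∃ b, b = ‖p - q‖ := ⟨_, rfl⟩
  obtain ⟨b', hb'⟩ : ∃ b', b' = ‖p' - q'‖ := ⟨_, rfl⟩
  obtain ⟨u, hu⟩ : ∃ u, u = ‖p - p'‖ := ⟨_, rfl⟩
  obtain ⟨v, hv⟩ : ∃ v, v = ‖q - q'‖ := ⟨_, rfl⟩
  rw [← hb] at hpq
  rw [← hb'] at hpq'
  have u0 : 0 ≤ u := by rw [hu]; exact norm_nonneg _
  have v0 : 0 ≤ v := by rw [hv]; exact norm_nonneg _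
  have hu2 : u ≤ 2 * r1 := by
    rw [hu]
    have e : p - p' = (p - w1) - (p' - w1) := by ring
    rw [e]
    exact (norm_sub_le _ _).trans (by linarith)
  have hv2 : v ≤ 2 * r2 := by
    rw [hv]
    have e : q - q' = (q - w2) - (q' - w2) := by ring
    rw [e]
    exact (norm_sub_le _ _).trans (by linarith)
  have tri : v ≤ u + b + b' := by
    rw [hv, hu, hb, hb']
    have e : q - q' = -(p - q) + (p - p') + (p' - q') := by ring
    rw [e]
    refine norm_add₃_le.trans ?_
    rw [norm_neg]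
    linarith
  have b0 : 0 < b := by linarith
  have b0' : 0 < b' := by linarith
  have bb : 0 < b * b' := mul_pos b0 b0'
  have hx : min r1 a = r1 := min_eq_left hra.le
  set y := min r2 a with hy
  have y0 : 0 ≤ y := le_min hr2 ha.le
  have hs1' : 0 ≤ s1 := by rw [hs1]; linarith
  have hs2' : 0 ≤ s2 := by rw [hs2]; linarith
  -- the first ratio
  have A1 : X4 p p' q q' / Y4 p p' q q' ≤ 8 * (r1 / a * (y / a)) := by
    unfold X4 Y4
    rw [← hb, ← hb', ← hu, ← hv, div_le_iff₀ bb]
    rcases le_or_gt v (4 * a) with hc | hc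
    · have hvy : v ≤ 4 * y := by
        rw [hy]
        rcases le_total r2 a with h | h
        · rw [min_eq_left h]; linarith
        · rw [min_eq_right h]; exact hc
      have haa : a * a ≤ b * b' := mul_le_mul hpq hpq' ha.le b0.le
      calc u * v ≤ (2 * r1) * (4 * y) := mul_le_mul hu2 hvy v0 (by positivity)
        _ = 8 * (r1 / a * (y / a)) * (a * a) := by field_simp; ring
        _ ≤ _ := mul_le_mul_of_nonneg_left haa (by positivity)
    · have hya : y = a := by
        rw [hy]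
        exact min_eq_right (by linarith)
      have hbv : a * v ≤ 4 * (b * b') := by
        have h3 : v ≤ 2 * (b + b') := by linarith
        rcases le_total b b' with h | h
        · nlinarith
        · nlinarith
      rw [hya]
      calc u * v ≤ (2 * r1) * v := mul_le_mul_of_nonneg_right hu2 v0
        _ = 2 * r1 / a * (a * v) := by field_simp
        _ ≤ 2 * r1 / a * (4 * (b * b')) := mul_le_mul_of_nonneg_left hbv (by positivity)
        _ = _ := by field_simp; ring
  -- the second ratio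
  have A2 : min 1 (Z4 p p' q q' / Y4 p p' q q') ≤
      1296 * (min 1 (max s1 r1 / a) * min 1 (max s2 y / a)) := by
    have ds : s2 ≤ s1 + a ∧ s1 ≤ s2 + a := by
      rw [hs1, hs2]
      have h3 := norm_sub_norm_le w1 w2
      have h4 := norm_sub_norm_le w2 w1
      rw [norm_sub_rev w2 w1] at h4
      constructor <;> linarith
    rcases le_or_gt (3 * a) s1 with hc | hc
    · have m1 : min 1 (max s1 r1 / a) = 1 := by
        apply min_eq_left
        rw [le_div_iff₀ ha]
        have := le_max_left s1 r1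
        linarith
      have m2 : min 1 (max s2 y / a) = 1 := by
        apply min_eq_left
        rw [le_div_iff₀ ha]
        have := le_max_left s2 y
        linarith
      rw [m1, m2]
      have := min_le_left 1 (Z4 p p' q q' / Y4 p p' q q')
      linarith
    · obtain ⟨t1, ht1⟩ : ∃ t, t = max s1 r1 := ⟨_, rfl⟩
      obtain ⟨t2, ht2⟩ : ∃ t, t = max s2 y := ⟨_, rfl⟩
      rw [← ht1, ← ht2]
      have t1s : s1 ≤ t1 := by rw [ht1]; exact le_max_left _ _
      have t1r : r1 ≤ t1 := by rw [ht1]; exact le_max_right _ _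
      have t2s : s2 ≤ t2 := by rw [ht2]; exact le_max_left _ _
      have t2y : y ≤ t2 := by rw [ht2]; exact le_max_right _ _
      have t13 : t1 ≤ 3 * a := by rw [ht1]; exact max_le hc.le (by linarith)
      have t24 : t2 ≤ 4 * a := by
        rw [ht2]
        exact max_le (by linarith) ((min_le_right _ _).trans (by linarith))
      have t10 : 0 ≤ t1 := hs1'.trans t1s
      have t20 : 0 ≤ t2 := hs2'.trans t2s
      have n1 : t1 / a / 3 ≤ min 1 (t1 / a) := by
        apply le_min
        · rw [div_div, div_le_one (by positivity)]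
          linarith
        · have : 0 ≤ t1 / a := by positivity
          linarith
      have n2 : t2 / a / 4 ≤ min 1 (t2 / a) := by
        apply le_min
        · rw [div_div, div_le_one (by positivity)]
          linarith
        · have : 0 ≤ t2 / a := by positivity
          linarith
      have key : Z4 p p' q q' / Y4 p p' q q' ≤ 108 * (t1 / a * (t2 / a)) := by
        unfold Z4 Y4
        rw [← hb, ← hb', div_le_iff₀ bb]
        have z1 := Z_up (p' := p') hp
        have z2 := Z_up (p' := q') hq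
        rw [← hu] at z1
        rw [← hv] at z2
        have d1 : 1 - ‖p‖ ≤ s1 + r1 := by
          rw [hs1]
          have h3 := norm_sub_norm_le w1 p
          rw [norm_sub_rev] at h3
          linarith
        have z1' : ‖1 - conj p * p'‖ ≤ 6 * t1 := by linarith
        rcases lt_or_ge r2 a with hc2 | hc2
        · have hyr : y = r2 := min_eq_left hc2.le
          have d2 : 1 - ‖q‖ ≤ s2 + r2 := by
            rw [hs2]
            have h3 := norm_sub_norm_le w2 q
            rw [norm_sub_rev] at h3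
            linarith
          have z2' : ‖1 - conj q * q'‖ ≤ 6 * t2 := by
            rw [hyr] at t2y
            linarith
          have haa : a * a ≤ b * b' := mul_le_mul hpq hpq' ha.le b0.le
          calc ‖1 - conj p * p'‖ * ‖1 - conj q * q'‖ ≤ (6 * t1) * (6 * t2) :=
                mul_le_mul z1' z2' (norm_nonneg _) (by positivity)
            _ ≤ 108 * (t1 / a * (t2 / a)) * (a * a) := by
                have : 108 * (t1 / a * (t2 / a)) * (a * a) = 108 * (t1 * t2) := by field_simp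
                rw [this]
                nlinarith [mul_nonneg t10 t20]
            _ ≤ _ := mul_le_mul_of_nonneg_left haa (by positivity)
        · have hya : y = a := min_eq_right hc2
          have d2 : 1 - ‖q‖ ≤ (1 - ‖p‖) + b := by
            rw [hb]
            have h3 := norm_sub_norm_le p q
            linarith
          have z2' : ‖1 - conj q * q'‖ ≤ 14 * a + 3 * b + b' := by
            linarith
          have c1 : a ≤ b * b' / a := by
            rw [le_div_iff₀ ha]
            exact mul_le_mul hpq hpq' ha.le b0.le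
          have c2 : b ≤ b * b' / a := by
            rw [le_div_iff₀ ha]
            exact mul_le_mul_of_nonneg_left hpq' b0.le
          have c3 : b' ≤ b * b' / a := by
            rw [le_div_iff₀ ha, mul_comm b b']
            exact mul_le_mul_of_nonneg_left hpq b0'.le
          have z2'' : ‖1 - conj q * q'‖ ≤ 18 * (b * b' / a) := by linarith
          rw [hya] at t2y
          calc ‖1 - conj p * p'‖ * ‖1 - conj q * q'‖ ≤ (6 * t1) * (18 * (b * b' / a)) :=
                mul_le_mul z1' z2'' (norm_nonneg _) (by positivity)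
            _ = 108 * (t1 / a * 1) * (b * b') := by ring
            _ ≤ 108 * (t1 / a * (t2 / a)) * (b * b') := by
                apply mul_le_mul_of_nonneg_right _ bb.le
                apply mul_le_mul_of_nonneg_left _ (by norm_num)
                apply mul_le_mul_of_nonneg_left _ (by positivity)
                rw [le_div_iff₀ ha]
                linarith
      calc min 1 (Z4 p p' q q' / Y4 p p' q q') ≤ Z4 p p' q q' / Y4 p p' q q' := min_le_right _ _
        _ ≤ 108 * (t1 / a * (t2 / a)) := key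
        _ = 1296 * ((t1 / a / 3) * (t2 / a / 4)) := by ring
        _ ≤ _ := by
            apply mul_le_mul_of_nonneg_left _ (by norm_num)
            exact mul_le_mul n1 n2 (by positivity) (by positivity)
  -- conclusion
  have m1 : 0 ≤ max s1 r1 := hs1'.trans (le_max_left _ _)
  have m2 : 0 ≤ max s2 y := hs2'.trans (le_max_left _ _)
  have hY0 : 0 < Y4 p p' q q' := by unfold Y4; rw [← hb, ← hb']; exact bb
  have n0 : 0 ≤ min 1 (Z4 p p' q q' / Y4 p p' q q') :=
    le_min zero_le_one (div_nonneg (Z4_nonneg _ _ _ _) hY0.le)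
  have k1 : (8 : ℝ) ^ (5 / 48 : ℝ) ≤ 8 := by
    calc (8 : ℝ) ^ (5 / 48 : ℝ) ≤ (8 : ℝ) ^ (1 : ℝ) :=
          Real.rpow_le_rpow_of_exponent_le (by norm_num) (by norm_num)
      _ = 8 := Real.rpow_one _
  have k2 : (1296 : ℝ) ^ (11 / 48 : ℝ) ≤ 1296 := by
    calc (1296 : ℝ) ^ (11 / 48 : ℝ) ≤ (1296 : ℝ) ^ (1 : ℝ) :=
          Real.rpow_le_rpow_of_exponent_le (by norm_num) (by norm_num)
      _ = 1296 := Real.rpow_one _
  have w1' : 0 ≤ min 1 (max s1 r1 / a) := by positivity
  have w2' : 0 ≤ min 1 (max s2 y / a) := by positivity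
  have f1 := fa_nonneg (s := s1) ha hr1
  have f2 := fa_nonneg (s := s2) ha hr2
  calc ph p p' q q' ≤ (8 * (r1 / a * (y / a))) ^ (5 / 48 : ℝ) *
        (1296 * (min 1 (max s1 r1 / a) * min 1 (max s2 y / a))) ^ (11 / 48 : ℝ) := by
        unfold ph
        apply mul_le_mul
        · exact Real.rpow_le_rpow (div_nonneg (X4_nonneg _ _ _ _) hY0.le) A1 (by norm_num)
        · exact Real.rpow_le_rpow n0 A2 (by norm_num)
        · exact Real.rpow_nonneg n0 _
        · positivity
    _ = ((8 : ℝ) ^ (5 / 48 : ℝ) * (1296 : ℝ) ^ (11 / 48 : ℝ)) * (fa a s1 r1 * fa a s2 r2) := by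
        unfold fa
        rw [← hy, hx, Real.mul_rpow (by norm_num) (by positivity),
          Real.mul_rpow (x := r1 / a) (by positivity) (by positivity),
          Real.mul_rpow (by norm_num) (mul_nonneg w1' w2'), Real.mul_rpow w1' w2']
        ring
    _ ≤ (8 * 1296) * (fa a s1 r1 * fa a s2 r2) := by
        apply mul_le_mul_of_nonneg_right _ (mul_nonneg f1 f2)
        exact mul_le_mul k1 k2 (by positivity) (by norm_num)
    _ = _ := by norm_num

theorem ph_symm (p p' q q' : ℂ) : ph p p' q q' = ph q q' p p' := by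
  unfold ph X4 Y4 Z4
  rw [mul_comm ‖p - p'‖, norm_sub_rev p q, norm_sub_rev p' q', mul_comm ‖1 - conj p * p'‖]

/-- upper bound of the four point function -/
theorem ph_up {a s1 s2 r1 r2 : ℝ} {p p' q q' w1 w2 : ℂ} (ha : 0 < a) (hr1 : 0 ≤ r1)
    (hr2 : 0 ≤ r2)
    (hp : ‖p‖ ≤ 1) (hp' : ‖p'‖ ≤ 1) (hq : ‖q‖ ≤ 1) (hq' : ‖q'‖ ≤ 1)
    (hw1 : ‖w1‖ ≤ 1) (hw2 : ‖w2‖ ≤ 1) (hw : ‖w1 - w2‖ = a)
    (hs1 : s1 = 1 - ‖w1‖) (hs2 : s2 = 1 - ‖w2‖) (hpq : a ≤ ‖p - q‖) (hpq' : a ≤ ‖p' - q'‖)
    (h1 : ‖p - w1‖ ≤ r1) (h1' : ‖p' - w1‖ ≤ r1) (h2 : ‖q - w2‖ ≤ r2) (h2' : ‖q' - w2‖ ≤ r2) :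
    min 1 (ph p p' q q') ≤ 10368 * (fa a s1 r1 * fa a s2 r2) := by
  rcases lt_or_ge r1 a with hc | hc
  · exact (min_le_right _ _).trans (ph_up1 ha hr1 hr2 hc hp hp' hq hq' hw1 hw2 hw hs1 hs2 hpq hpq'
      h1 h1' h2 h2')
  · rcases lt_or_ge r2 a with hc2 | hc2
    · rw [ph_symm, mul_comm (fa a s1 r1)]
      exact (min_le_right _ _).trans (ph_up1 ha hr2 hr1 hc2 hq hq' hp hp' hw2 hw1
        (by rw [norm_sub_rev]; exact hw) hs2 hs1 (by rw [norm_sub_rev]; exact hpq)
        (by rw [norm_sub_rev]; exact hpq') h2 h2' h1 h1')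
    · have e : ∀ s r : ℝ, a ≤ r → fa a s r = 1 := by
        intro s r h
        unfold fa
        rw [min_eq_right h, div_self ha.ne', Real.one_rpow, one_mul]
        have : min 1 (max s a / a) = 1 := by
          apply min_eq_left
          rw [le_div_iff₀ ha, one_mul]
          exact le_max_right _ _
        rw [this, Real.one_rpow]
      rw [e s1 r1 hc, e s2 r2 hc2]
      have := min_le_left 1 (ph p p' q q')
      linarith

end Pool.Agent.D0H49.CC
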