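import Pool.Agent.D0H49.CC.Lat
import Pool.Agent.D0H49.CC.Lem
import Pool.Agent.D0H49.CC.Psi

/-!
Smooth Jordan domains: the connection probability of two continua and the factors `fa`.
-/

set_option autoImplicit false
set_option maxHeartbeats 1000000
set_option linter.unusedVariables false

namespace Pool.Agent.D0H49.CC
open Finset H974 Pool.Agent.H160R2.CV H362P
open Pool.Agent.H160R2.CV.Quad
open H973 (ES mem_ES EV BX mem_BX)
open TH976 (sd sd_self sd_comm sd_tri sd_pos fkg incr_and pr_edge EH cx norm_cx)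
open Pool.Agent.D0H95.KP
open Y989.SD (SmW disc cir pos TD Win btT XT HT VT Blk QB mem_QB emb nu ip)

theorem EH_ratio {d A B : ℝ} (hd : 0 < d) (hB : 0 < B) (hBA : B ≤ A) :
    EH d A = EH d B * ((B / A) ^ (5 / 48 : ℝ) * (min 1 (max d B / A)) ^ (11 / 48 : ℝ)) := by
  have hA : 0 < A := by linarith
  have e1 : A ^ (-(5 / 48) : ℝ) = B ^ (-(5 / 48) : ℝ) * (B / A) ^ (5 / 48 : ℝ) := by
    rw [Real.div_rpow hB.le hA.le, Real.rpow_neg hA.le, Real.rpow_neg hB.le]
    field_simp
  have e2 : min 1 (d / A) = min 1 (d / B) * min 1 (max d B / A) := by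
    rcases le_or_gt d B with h | h
    · rw [max_eq_right h, min_eq_right ((div_le_one hA).mpr (h.trans hBA)),
        min_eq_right ((div_le_one hB).mpr h), min_eq_right ((div_le_one hA).mpr hBA)]
      field_simp
    · rw [max_eq_left h.le, min_eq_left ((one_le_div hB).mpr h.le), one_mul]
  have m1 : 0 ≤ min 1 (d / B) := by positivity
  have m2 : 0 ≤ min 1 (max d B / A) := by positivity
  unfold EH
  rw [e1, e2, Real.mul_rpow m1 m2]
  ring

theorem rpow_prod_le {x y X Y c : ℝ} (hx : 0 ≤ x) (hy : 0 ≤ y) (hc : 0 < c) (hc1 : c ≤ 1)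
    (h1 : c * x ≤ X) (h2 : c * y ≤ Y) :
    c * (x ^ (5 / 48 : ℝ) * y ^ (11 / 48 : ℝ)) ≤ X ^ (5 / 48 : ℝ) * Y ^ (11 / 48 : ℝ) := by
  have t3 : c ≤ c ^ (5 / 48 : ℝ) * c ^ (11 / 48 : ℝ) := by
    rw [← Real.rpow_add hc]
    calc c = c ^ (1 : ℝ) := (Real.rpow_one _).symm
      _ ≤ _ := Real.rpow_le_rpow_of_exponent_ge hc hc1 (by norm_num)
  calc c * (x ^ (5 / 48 : ℝ) * y ^ (11 / 48 : ℝ)) ≤
      (c ^ (5 / 48 : ℝ) * c ^ (11 / 48 : ℝ)) * (x ^ (5 / 48 : ℝ) * y ^ (11 / 48 : ℝ)) :=
        mul_le_mul_of_nonneg_right t3 (by positivity)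
    _ = (c * x) ^ (5 / 48 : ℝ) * (c * y) ^ (11 / 48 : ℝ) := by
        rw [Real.mul_rpow hc.le hx, Real.mul_rpow hc.le hy]
        ring
    _ ≤ _ := by
        apply mul_le_mul
        · exact Real.rpow_le_rpow (by positivity) h1 (by norm_num)
        · exact Real.rpow_le_rpow (by positivity) h2 (by norm_num)
        · positivity
        · exact Real.rpow_nonneg ((by positivity : 0 ≤ c * x).trans h1) _

theorem min_one_mul {c x y : ℝ} (hc : 0 ≤ c) (hc1 : c ≤ 1) (hx : 0 ≤ x) (h : c * x ≤ y) :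
    c * min 1 x ≤ min 1 y := by
  apply le_min
  · have : min 1 x ≤ 1 := min_le_left _ _
    have h0 : 0 ≤ min 1 x := le_min zero_le_one hx
    nlinarith
  · exact (mul_le_mul_of_nonneg_left (min_le_right _ _) hc).trans h

/-- the distance of a vertex to the complement -/
theorem dd_bounds {f g : ℂ → ℂ} {M α : ℝ} (hf : SmW f g M α) :
    ∃ l H ε1 : ℝ, 0 < l ∧ 0 < H ∧ 0 < ε1 ∧
      (∀ z ∈ disc, ∀ w ∈ disc, l * ‖z - w‖ ≤ ‖f z - f w‖ ∧ ‖f z - f w‖ ≤ H * ‖z - w‖) ∧
      ∀ ε : ℝ, 0 < ε → ε ≤ ε1 → ∀ v ∈ TD f ε, ∀ w : ℂ, ‖w‖ ≤ 1 → ‖pos ε v - f w‖ ≤ 2 * ε →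
        l * (1 - ‖w‖) ≤ 4 * (ε * dd (TD f ε) v) ∧
        ε * dd (TD f ε) v ≤ 5 * ε + H * (1 - ‖w‖) := by
  obtain ⟨ρ, B, ε0, hρ, hε0, hGD⟩ := Y989.SD.m_GD f g M α hf
  obtain ⟨l, H, hl, hH, hlip, -, -, -, hint⟩ := Y989.SD.m_GA f g M α hf
  refine ⟨l, H, min ε0 ρ, hl, hH, lt_min hε0 hρ, hlip, ?_⟩
  intro ε hε hε1 v hvT ζ hζ hfζ
  obtain ⟨g1, g2, g3⟩ := hGD ε hε (hε1.trans (min_le_left _ _))
  have hvD : pos ε v ∈ f '' disc := (g1 v).mp hvT
  obtain ⟨T, hT⟩ : ∃ T : Finset Vtx, T = TD f ε := ⟨_, rfl⟩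
  rw [← hT] at g1 g2 hvT ⊢
  have hd := dd_pos hvT
  have d0 : (1 : ℝ) ≤ dd T v := by exact_mod_cast hd
  have n0 := norm_nonneg ζ
  have hζd : ζ ∈ disc := mem_disc'.mpr hζ
  constructor
  · obtain ⟨w, hw, hwd⟩ := dd_out T v
    have hw' : pos ε w ∉ f '' disc := fun h => hw ((g1 w).mpr h)
    obtain ⟨ξ', hξ', h6⟩ := cross_bd hf hvD hw'
    have a1 := (norm_pos hε v w).2
    rw [hwd] at a1
    have a2 := (hlip ζ hζd ξ' (mem_disc'.mpr hξ'.le)).1
    have a3 : 1 - ‖ζ‖ ≤ ‖ζ - ξ'‖ := by
      have := norm_sub_norm_le ξ' ζ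
      rw [hξ', norm_sub_rev] at this
      exact this
    have a4 := mul_le_mul_of_nonneg_left a3 hl.le
    have a5 : ‖f ζ - f ξ'‖ ≤ ‖pos ε v - f ζ‖ + ‖pos ε v - f ξ'‖ := by
      have e : f ζ - f ξ' = -(pos ε v - f ζ) + (pos ε v - f ξ') := by ring
      rw [e]
      refine (norm_add_le _ _).trans ?_
      rw [norm_neg]
    have a6 : ε ≤ ε * dd T v := by nlinarith
    linarith
  · obtain ⟨ξ, hξ, hr⟩ := exists_rad ζ hζ
    have hξd : ξ ∈ disc := mem_disc'.mpr hξ.le
    obtain ⟨θ, hθ⟩ := exists_cir hξ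
    have u1 : ‖f ζ - f ξ‖ ≤ H * (1 - ‖ζ‖) := by
      rw [← hr]
      exact (hlip ζ hζd ξ hξd).2
    obtain ⟨v0, hv0, h4, h5⟩ := g2 θ
    have hd0 : dd T v0 ≤ 1 := by
      obtain ⟨e, he, h, sl, hlp, -, -, hW⟩ := h5
      have hL : 1 ≤ ⌊ρ / ε⌋ := by
        rw [Int.le_floor, le_div_iff₀ hε]
        push_cast
        linarith [hε1.trans (min_le_right _ _)]
      have m1 : ((0, -1) : Vtx) ∈ Y989.SD.QB ⌊ρ / ε⌋ := by
        rw [Y989.SD.mem_QB]
        simp only
        omega
      have m2 : Y989.SD.emb e v0 (0, -1) ∉ T := by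
        rw [hW _ m1, hlp.zero]
        simp
      refine (dd_le m2).trans ?_
      unfold Y989.SD.emb sd
      rcases he with rfl | rfl | rfl | rfl <;> simp
    have a1 := dd_lip T v v0
    have a2 : (dd T v : ℝ) ≤ 1 + sd v v0 := by
      have : dd T v ≤ 1 + sd v v0 := by omega
      exact_mod_cast this
    have a3 := (norm_pos hε v v0).1
    have a4 : ‖pos ε v - pos ε v0‖ ≤ 2 * ε + H * (1 - ‖ζ‖) + 2 * ε := by
      have e1 : pos ε v - pos ε v0 = (pos ε v - f ζ) + (f ζ - f ξ) +
          -(pos ε v0 - f (cir θ)) := by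
        rw [hθ]; ring
      rw [e1]
      refine norm_add₃_le.trans ?_
      rw [norm_neg]
      linarith
    have a5 : ε * dd T v ≤ ε * (1 + sd v v0) := mul_le_mul_of_nonneg_left a2 hε.le
    nlinarith

theorem fa_ge {a s r A B d c : ℝ} (ha : 0 < a) (hr : 0 ≤ r) (hs : 0 ≤ s) (hc : 0 < c) (hc1 : c ≤ 1)
    (h1 : c * (min r a / a) ≤ B / A) (h2 : c * (max s (min r a) / a) ≤ max d B / A ∨
      c ≤ max d B / A) :
    c * fa a s r ≤ (B / A) ^ (5 / 48 : ℝ) * (min 1 (max d B / A)) ^ (11 / 48 : ℝ) := by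
  unfold fa
  have m0 : 0 ≤ min r a := le_min hr ha.le
  have m1 : 0 ≤ max s (min r a) := hs.trans (le_max_left _ _)
  apply rpow_prod_le (by positivity) (by positivity) hc hc1 h1
  rcases h2 with h2 | h2
  · exact min_one_mul hc.le hc1 (by positivity) h2
  · apply le_min
    · have : min 1 (max s (min r a) / a) ≤ 1 := min_le_left _ _
      have h0 : 0 ≤ min 1 (max s (min r a) / a) := by positivity
      nlinarith
    · have : min 1 (max s (min r a) / a) ≤ 1 := min_le_left _ _
      nlinarith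

/-- the factor of one set, lower bound: the choice of the radius -/
theorem side_low {l H η ε a s r d : ℝ} {K N A : ℕ} (hl : 0 < l) (hH : 0 < H) (hη : 0 < η)
    (hε : 0 < ε) (ha : 0 < a) (ha2 : a ≤ 2) (hr : 0 ≤ r) (hs : 0 ≤ s) (hK : 1 ≤ K)
    (hN : η ≤ ε * N) (hd : l * s ≤ 4 * (ε * d)) (hd1 : 1 ≤ d) (hA1 : H * a / ε ≤ A)
    (hA2 : (A : ℝ) ≤ H * a / ε + 5) (hA3 : 1 ≤ A)
    {q c : ℝ} (hq : q = min (l / 2) (min H (η / 2)) / (2 * K + 2))
    (hc : c = min 1 (min q (l / 4)) / (H + 5)) :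
    ∃ R : ℕ, K * R ≤ A ∧ K * R ≤ N ∧ (R ≠ 0 → ((K * R : ℕ) : ℝ) + 2 ≤ l * r / (2 * ε)) ∧
      c * fa a s r * EH d (max R 1 : ℕ) ≤ EH d A := by
  have hK0 : (0 : ℝ) < K := by exact_mod_cast hK
  obtain ⟨x, hx⟩ : ∃ x : ℝ, x = min (l * r / (2 * ε) - 2) (min A N) := ⟨_, rfl⟩
  have x1 : x ≤ l * r / (2 * ε) - 2 := by rw [hx]; exact min_le_left _ _
  have x2 : x ≤ A := by rw [hx]; exact (min_le_right _ _).trans (min_le_left _ _)
  have x3 : x ≤ N := by rw [hx]; exact (min_le_right _ _).trans (min_le_right _ _)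
  obtain ⟨R, hR⟩ : ∃ R : ℕ, R = ⌊x / K⌋₊ := ⟨_, rfl⟩
  have hRx : R ≠ 0 → ((K * R : ℕ) : ℝ) ≤ x := by
    intro h
    have hx0 : 0 ≤ x / K := by
      by_contra hcon
      rw [Nat.floor_of_nonpos (by linarith)] at hR
      exact h hR
    have := Nat.floor_le hx0
    rw [← hR, le_div_iff₀ hK0] at this
    push_cast
    linarith
  have hRx' : x ≤ K * (R + 1) := by
    have := (Nat.lt_floor_add_one (x / K)).le
    rw [← hR, div_le_iff₀ hK0] at this
    linarith
  obtain ⟨B, hB⟩ : ∃ B : ℕ, B = max R 1 := ⟨_, rfl⟩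
  have B1 : 1 ≤ B := by rw [hB]; exact le_max_right _ _
  have BR : R + 1 ≤ 2 * B := by omega
  have BRr : (R : ℝ) + 1 ≤ 2 * B := by exact_mod_cast BR
  have B1r : (1 : ℝ) ≤ B := by exact_mod_cast B1
  have A1r : (1 : ℝ) ≤ A := by exact_mod_cast hA3
  have hRA : K * R ≤ A := by
    rcases Nat.eq_zero_or_pos R with h | h
    · rw [h]; simp
    · have : ((K * R : ℕ) : ℝ) ≤ A := (hRx h.ne').trans x2
      exact_mod_cast this
  have hRN : K * R ≤ N := by
    rcases Nat.eq_zero_or_pos R with h | h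
    · rw [h]; simp
    · have : ((K * R : ℕ) : ℝ) ≤ N := (hRx h.ne').trans x3
      exact_mod_cast this
  have hBA : B ≤ A := by
    have : R ≤ K * R := Nat.le_mul_of_pos_left _ hK
    omega
  refine ⟨R, hRA, hRN, fun h => by have := hRx h; linarith, ?_⟩
  rw [← hB, EH_ratio (by linarith) (by linarith) (show (B : ℝ) ≤ A by exact_mod_cast hBA)]
  -- the constants
  obtain ⟨m, hm⟩ : ∃ m : ℝ, m = min r a := ⟨_, rfl⟩
  have m0 : 0 ≤ m := by rw [hm]; exact le_min hr ha.le
  have mr : m ≤ r := by rw [hm]; exact min_le_left _ _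
  have ma : m ≤ a := by rw [hm]; exact min_le_right _ _
  obtain ⟨q0, hq0⟩ : ∃ q0 : ℝ, q0 = min (l / 2) (min H (η / 2)) := ⟨_, rfl⟩
  have q0p : 0 < q0 := by rw [hq0]; positivity
  have q01 : q0 ≤ l / 2 := by rw [hq0]; exact min_le_left _ _
  have q02 : q0 ≤ H := by rw [hq0]; exact (min_le_right _ _).trans (min_le_left _ _)
  have q03 : q0 ≤ η / 2 := by rw [hq0]; exact (min_le_right _ _).trans (min_le_right _ _)
  rw [← hq0] at hq
  have qp : 0 < q := by rw [hq]; positivity
  have cp : 0 < c := by rw [hc]; positivity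
  have c1 : c * (H + 5) ≤ 1 := by
    rw [hc, div_mul_cancel₀ _ (by positivity)]
    exact min_le_left _ _
  have c2 : c * (H + 5) ≤ q := by
    rw [hc, div_mul_cancel₀ _ (by positivity)]
    exact (min_le_right _ _).trans (min_le_left _ _)
  have c3 : c * (H + 5) ≤ l / 4 := by
    rw [hc, div_mul_cancel₀ _ (by positivity)]
    exact (min_le_right _ _).trans (min_le_right _ _)
  have cle : c ≤ 1 := by nlinarith
  -- the lower bound of `B`
  have hBq : q * m ≤ ε * B := by
    have h1 : q0 * m / ε ≤ x + 2 := by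
      rw [hx, ← sub_le_iff_le_add]
      refine le_min ?_ (le_min ?_ ?_)
      · have : q0 * m / ε ≤ l * r / (2 * ε) := by
          rw [div_le_div_iff₀ hε (by positivity)]
          have : q0 * m ≤ l / 2 * r := mul_le_mul q01 mr m0 (by positivity)
          nlinarith
        linarith
      · have : q0 * m / ε ≤ H * a / ε := by
          apply div_le_div_of_nonneg_right _ hε.le
          exact mul_le_mul q02 ma m0 hH.le
        linarith
      · have : q0 * m / ε ≤ N := by
          rw [div_le_iff₀ hε]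
          have : q0 * m ≤ η / 2 * 2 := mul_le_mul q03 (ma.trans ha2) m0 (by positivity)
          linarith
        linarith
    have h2 : x + 2 ≤ (2 * K + 2) * B := by nlinarith
    have h3 : q0 * m / ε ≤ (2 * K + 2) * B := h1.trans h2
    rw [div_le_iff₀ hε] at h3
    rw [hq, div_mul_eq_mul_div, div_le_iff₀ (by positivity)]
    linarith
  have key : c * fa a s r ≤
      ((B : ℝ) / A) ^ (5 / 48 : ℝ) * (min 1 (max d B / A)) ^ (11 / 48 : ℝ) := by
    rcases le_or_gt ε a with hεa | hεa
    · have hA4 : ε * A ≤ (H + 5) * a := by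
        have h1 : ε * A ≤ ε * (H * a / ε + 5) := mul_le_mul_of_nonneg_left hA2 hε.le
        have h2 : ε * (H * a / ε + 5) = H * a + 5 * ε := by field_simp
        linarith
      apply fa_ge ha hr hs cp cle
      · rw [← hm, mul_div_assoc', div_le_div_iff₀ ha (by linarith)]
        have h1 : (c * m * A) * ε ≤ (B * a) * ε := by
          calc (c * m * A) * ε = (c * m) * (ε * A) := by ring
            _ ≤ (c * m) * ((H + 5) * a) := mul_le_mul_of_nonneg_left hA4 (by positivity)
            _ = (c * (H + 5)) * m * a := by ring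
            _ ≤ q * m * a := by
                apply mul_le_mul_of_nonneg_right _ ha.le
                exact mul_le_mul_of_nonneg_right c2 m0
            _ ≤ (ε * B) * a := mul_le_mul_of_nonneg_right hBq ha.le
            _ = (B * a) * ε := by ring
        exact le_of_mul_le_mul_right h1 hε
      · left
        rw [← hm, mul_div_assoc', div_le_div_iff₀ ha (by linarith)]
        have h0 : (c * (H + 5)) * max s m ≤ ε * max d B := by
          rw [mul_max_of_nonneg _ _ (by positivity), mul_max_of_nonneg _ _ hε.le]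
          apply max_le_max
          · calc c * (H + 5) * s ≤ l / 4 * s := mul_le_mul_of_nonneg_right c3 hs
              _ ≤ ε * d := by linarith
          · exact (mul_le_mul_of_nonneg_right c2 m0).trans hBq
        have h1 : (c * max s m * A) * ε ≤ (max d B * a) * ε := by
          have mm : 0 ≤ max s m := hs.trans (le_max_left _ _)
          calc (c * max s m * A) * ε = (c * max s m) * (ε * A) := by ring
            _ ≤ (c * max s m) * ((H + 5) * a) := mul_le_mul_of_nonneg_left hA4 (by positivity)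
            _ = ((c * (H + 5)) * max s m) * a := by ring
            _ ≤ (ε * max d B) * a := mul_le_mul_of_nonneg_right h0 ha.le
            _ = _ := by ring
        exact le_of_mul_le_mul_right h1 hε
    · have hA4 : (A : ℝ) ≤ H + 5 := by
        have : H * a / ε ≤ H := by
          rw [div_le_iff₀ hε]
          nlinarith
        linarith
      have hcA : c ≤ 1 / A := by
        rw [le_div_iff₀ (by linarith)]
        nlinarith
      have hBA' : (1 : ℝ) / A ≤ B / A := div_le_div_of_nonneg_right B1r (by linarith)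
      apply fa_ge ha hr hs cp cle
      · have h1 : min r a / a ≤ 1 := by rw [div_le_one ha]; exact min_le_right _ _
        nlinarith
      · right
        have : (B : ℝ) / A ≤ max d B / A :=
          div_le_div_of_nonneg_right (le_max_right _ _) (by linarith)
        linarith
  have eB : 0 ≤ EH d B := by
    unfold EH
    have : 0 ≤ min 1 (d / (B : ℝ)) := by positivity
    positivity
  calc c * fa a s r * EH d B = EH d B * (c * fa a s r) := by ring
    _ ≤ _ := mul_le_mul_of_nonneg_left key eB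

/-- the factor of one set, upper bound -/
theorem side_up {l H L ε a s r d : ℝ} {A m : ℕ} (hl : 0 < l) (hH : 0 < H) (hL : 0 < L)
    (hε : 0 < ε) (ha : 0 < a) (hr : ε ≤ L * r) (hs : 0 ≤ s) (hd : ε * d ≤ 5 * ε + H * s)
    (hd1 : 1 ≤ d) (hla : 8 * ε ≤ l * a) (hA1 : l * a ≤ 8 * (ε * A)) (hA3 : 1 ≤ A) (hm1 : 1 ≤ m)
    (hm : ε * m ≤ H * r + 6 * ε) {C : ℝ} (hC : C = (16 * H + 88 * L) / l + 6) :
    EH d A ≤ C * fa a s r * EH d (min m A : ℕ) := by
  have r0 : 0 < r := by
    by_contra hcon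
    have : L * r ≤ 0 := mul_nonpos_of_nonneg_of_nonpos hL.le (not_lt.mp hcon)
    linarith
  obtain ⟨B, hB⟩ : ∃ B : ℕ, B = min m A := ⟨_, rfl⟩
  have B1 : 1 ≤ B := by rw [hB]; exact le_min hm1 hA3
  have Bm : B ≤ m := by rw [hB]; exact min_le_left _ _
  have BA : B ≤ A := by rw [hB]; exact min_le_right _ _
  have B1r : (1 : ℝ) ≤ B := by exact_mod_cast B1
  have A1r : (1 : ℝ) ≤ A := by exact_mod_cast hA3
  have Bmr : (B : ℝ) ≤ m := by exact_mod_cast Bm
  have BAr : (B : ℝ) ≤ A := by exact_mod_cast BA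
  have Cl : C * l = 16 * H + 88 * L + 6 * l := by
    rw [hC, add_mul, div_mul_cancel₀ _ hl.ne']
  have C6 : 6 ≤ C := by rw [hC]; have : 0 ≤ (16 * H + 88 * L) / l := by positivity
                        linarith
  have C0 : 0 < C := by linarith
  rw [← hB, EH_ratio (by linarith) (by linarith) BAr]
  obtain ⟨n, hn⟩ : ∃ n : ℝ, n = min r a := ⟨_, rfl⟩
  have n0 : 0 < n := by rw [hn]; exact lt_min r0 ha
  -- bounds in the scale `a`
  have b1 : l * (ε * B) ≤ (8 * (H + 6 * L) + l) * n * (ε * A) / a := by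
    rw [le_div_iff₀ ha]
    rcases le_total r a with h | h
    · have hn' : n = r := by rw [hn]; exact min_eq_left h
      have h1 : ε * B ≤ (H + 6 * L) * r := by
        have := mul_le_mul_of_nonneg_left Bmr hε.le
        linarith
      rw [hn']
      calc l * (ε * B) * a = (ε * B) * (l * a) := by ring
        _ ≤ ((H + 6 * L) * r) * (8 * (ε * A)) :=
            mul_le_mul h1 hA1 (by positivity) (by positivity)
        _ ≤ _ := by
            have : 0 ≤ l * r * (ε * A) := by positivity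
            nlinarith
    · have hn' : n = a := by rw [hn]; exact min_eq_right h
      rw [hn']
      have h1 : ε * B ≤ ε * A := mul_le_mul_of_nonneg_left BAr hε.le
      calc l * (ε * B) * a ≤ l * (ε * A) * a := by
            apply mul_le_mul_of_nonneg_right _ ha.le
            exact mul_le_mul_of_nonneg_left h1 hl.le
        _ ≤ _ := by
            have : 0 ≤ (H + 6 * L) * a * (ε * A) := by positivity
            nlinarith
  have en : ε ≤ (L + l / 8) * n := by
    rw [hn]
    rcases le_total r a with h | h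
    · rw [min_eq_left h]
      nlinarith
    · rw [min_eq_right h]
      nlinarith
  have hBn : (1 / C) * ((B : ℝ) / A) ≤ n / a := by
    rw [one_div, inv_mul_le_iff₀ C0, div_le_iff₀ (by linarith)]
    have h1 : (ε * l) * (B : ℝ) ≤ (ε * l) * (C * (n / a) * A) := by
      calc (ε * l) * (B : ℝ) = l * (ε * B) := by ring
        _ ≤ (8 * (H + 6 * L) + l) * n * (ε * A) / a := b1
        _ ≤ (16 * H + 88 * L + 6 * l) * n * (ε * A) / a := by
            apply div_le_div_of_nonneg_right _ ha.le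
            apply mul_le_mul_of_nonneg_right _ (by positivity)
            apply mul_le_mul_of_nonneg_right _ n0.le
            linarith
        _ = (ε * l) * (C * (n / a) * A) := by rw [← Cl]; ring
    exact le_of_mul_le_mul_left h1 (by positivity)
  have mx : 0 < max s n := lt_of_lt_of_le n0 (le_max_right _ _)
  have hdn : (1 / C) * (max d B / A) ≤ max s n / a := by
    rw [one_div, inv_mul_le_iff₀ C0, div_le_iff₀ (by linarith)]
    apply max_le
    · have h0 : (ε * l) * d ≤ (16 * H + 88 * L + 6 * l) * max s n * (ε * A) / a := by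
        rw [le_div_iff₀ ha]
        have h1 : ε * d ≤ (5 * (L + l / 8) + H) * max s n := by
          have h2 : (L + l / 8) * n ≤ (L + l / 8) * max s n :=
            mul_le_mul_of_nonneg_left (le_max_right _ _) (by positivity)
          have h3 : H * s ≤ H * max s n := mul_le_mul_of_nonneg_left (le_max_left _ _) hH.le
          nlinarith
        calc (ε * l) * d * a = (ε * d) * (l * a) := by ring
          _ ≤ ((5 * (L + l / 8) + H) * max s n) * (8 * (ε * A)) :=
              mul_le_mul h1 hA1 (by positivity) (by positivity)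
          _ = (40 * L + 5 * l + 8 * H) * (max s n * (ε * A)) := by ring
          _ ≤ (16 * H + 88 * L + 6 * l) * (max s n * (ε * A)) := by
              apply mul_le_mul_of_nonneg_right _ (by positivity)
              linarith
          _ = _ := by ring
      have h1 : (ε * l) * d ≤ (ε * l) * (C * (max s n / a) * A) := by
        refine h0.trans (le_of_eq ?_)
        rw [← Cl]
        ring
      exact le_of_mul_le_mul_left h1 (by positivity)
    · have h1 : (B : ℝ) ≤ C * (n / a) * A := by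
        have h2 := hBn
        rw [one_div, inv_mul_le_iff₀ C0, div_le_iff₀ (by linarith)] at h2
        exact h2
      refine h1.trans ?_
      apply mul_le_mul_of_nonneg_right _ (by linarith)
      apply mul_le_mul_of_nonneg_left _ C0.le
      exact div_le_div_of_nonneg_right (le_max_right _ _) ha.le
  have md : 0 ≤ max d B := by
    have := le_max_right d (B : ℝ)
    linarith
  have key : (1 / C) * (((B : ℝ) / A) ^ (5 / 48 : ℝ) * (min 1 (max d B / A)) ^ (11 / 48 : ℝ)) ≤
      fa a s r := by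
    unfold fa
    rw [← hn]
    apply rpow_prod_le (by positivity) (by positivity) (by positivity) _ hBn
    · exact min_one_mul (by positivity) (by rw [div_le_one C0]; linarith) (by positivity) hdn
    · rw [div_le_one C0]; linarith
  have eB : 0 ≤ EH d B := by
    unfold EH
    have : 0 ≤ min 1 (d / (B : ℝ)) := by positivity
    positivity
  have key2 : ((B : ℝ) / A) ^ (5 / 48 : ℝ) * (min 1 (max d B / A)) ^ (11 / 48 : ℝ) ≤
      C * fa a s r := by
    rw [one_div, inv_mul_le_iff₀ C0] at key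
    exact key
  calc _ ≤ EH d B * (C * fa a s r) := mul_le_mul_of_nonneg_left key2 eB
    _ = _ := by ring

end Pool.Agent.D0H49.CC
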