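import Pool.Agent.D0H49.CC.Abs
import Pool.Agent.D0H95.KP.Geo

/-!
Topological decoupling in smooth Jordan domains.
-/

set_option autoImplicit false
set_option maxHeartbeats 1000000
set_option linter.unusedVariables false

namespace Pool.Agent.D0H49.CC
open Finset H974 Pool.Agent.H160R2.CV H362P
open Pool.Agent.H160R2.CV.Quad
open H973 (ES mem_ES EV BX mem_BX)
open TH976 (sd sd_self sd_comm sd_tri sd_pos fkg incr_and pr_edge EH cx norm_cx)
open Pool.Agent.D0H95.KP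
open Y989.SD (SmW disc cir pos TD Win btT XT HT VT Blk QB mem_QB emb)

variable {T : Finset Vtx}

/-- the circuit meets the crossings of every larger configuration -/
theorem circ_meetG {F : Finset Edg} {R1 R2 : ℤ} (h1 : 0 ≤ R1) (h2 : R1 < R2)
    (h : Circ R1 R2 F) : ∃ z : Vtx, ∀ G : Finset Edg, F ⊆ G → ∀ u v : Vtx,
      inR (-R1) R1 (-R1) R1 u →
      (v.1 = -R2 ∨ v.1 = R2 ∨ v.2 = -R2 ∨ v.2 = R2) →
      Reach (↑G ∩ ↑(RE (-R2) R2 (-R2) R2)) u v → Reach (↑G ∩ ↑(RE (-R2) R2 (-R2) R2)) u z := by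
  obtain ⟨⟨⟨t, t', ht, ht', hT⟩, ⟨b, b', hb, hb', hB⟩⟩, ⟨r, r', hr, hr', hR⟩,
    ⟨l, l', hl, hl', hL⟩⟩ := h
  refine ⟨(r, -R2), ?_⟩
  intro G hG u v hu hv hP
  have hFG : (↑F : Set Edg) ⊆ ↑G := by exact_mod_cast hG
  have hT' := hT.mono (Set.inter_subset_inter hFG
    (by exact_mod_cast LRE_subset_RE : (↑(LRE (-R2) R2 R1 R2) : Set Edg) ⊆ _))
  have hB' := hB.mono (Set.inter_subset_inter hFG
    (by exact_mod_cast LRE_subset_RE : (↑(LRE (-R2) R2 (-R2) (-R1)) : Set Edg) ⊆ _))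
  have hR' := hR.mono (Set.inter_subset_inter hFG
    (by exact_mod_cast TBE_subset_RE : (↑(TBE R1 R2 (-R2) R2) : Set Edg) ⊆ _))
  have hL' := hL.mono (Set.inter_subset_inter hFG
    (by exact_mod_cast TBE_subset_RE : (↑(TBE (-R2) (-R1) (-R2) R2) : Set Edg) ⊆ _))
  have mTR : Reach (↑G ∩ ↑(RE (-R2) R2 (-R2) R2)) (-R2, t) (r, -R2) :=
    cross_meet (by omega) h2 le_rfl (by omega) h2 le_rfl hT' (by simp only; omega) le_rfl hR'
      (by simp only; omega) le_rfl
  have mBR : Reach (↑G ∩ ↑(RE (-R2) R2 (-R2) R2)) (-R2, b) (r, -R2) :=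
    cross_meet (by omega) h2 le_rfl le_rfl (by omega) (by omega) hB' (by simp only; omega) le_rfl
      hR' le_rfl (by simp only; omega)
  have mTL : Reach (↑G ∩ ↑(RE (-R2) R2 (-R2) R2)) (-R2, t) (l, -R2) :=
    cross_meet le_rfl (by omega) (by omega) (by omega) h2 le_rfl hT' le_rfl (by simp only; omega)
      hL' (by simp only; omega) le_rfl
  unfold inR at hu
  rcases hv with hv | hv | hv | hv
  · have m : Reach (↑G ∩ ↑(RE (-R2) R2 (-R2) R2)) v (l, -R2) :=
      cross_meet le_rfl (by omega) (by omega) le_rfl (by omega) le_rfl hP.symm hv.le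
        (show -R1 ≤ u.1 by omega) hL' le_rfl le_rfl
    exact hP.trans (m.trans (mTL.symm.trans mTR))
  · exact cross_meet (by omega) h2 le_rfl le_rfl (by omega) le_rfl hP (by omega) hv.ge hR' le_rfl
      le_rfl
  · have m : Reach (↑G ∩ ↑(RE (-R2) R2 (-R2) R2)) (-R2, b) v :=
      cross_meet le_rfl (by omega) le_rfl le_rfl (by omega) (by omega) hB' le_rfl le_rfl hP.symm
        hv.le (show -R1 ≤ u.2 by omega)
    exact hP.trans (m.symm.trans mBR)
  · have m : Reach (↑G ∩ ↑(RE (-R2) R2 (-R2) R2)) (-R2, t) u :=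
      cross_meet le_rfl (by omega) le_rfl (by omega) h2 le_rfl hT' le_rfl le_rfl hP
        (by omega) hv.ge
    exact m.symm.trans mTR

theorem CA_meetG {c : Vtx} {R1 R2 : ℕ} (h12 : R1 < R2) {F : Finset Edg} (h : CA c R1 R2 F) :
    ∃ z : Vtx, ∀ G : Finset Edg, F ⊆ G → ∀ u v : Vtx, nv (u - c) ≤ R1 → R2 ≤ nv (v - c) →
      Reach (↑G) u v → Reach (↑G) u z := by
  obtain ⟨z, hz⟩ := circ_meetG (R1 := R1) (R2 := R2) (by positivity) (by exact_mod_cast h12) h
  refine ⟨z + c, fun G hG u v hu hv hr => ?_⟩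
  have h1 := (trl (-c.1) (-c.2)).reach hr
  rw [← LSym.coe_mp, trl_neg, trl_neg] at h1
  have hu1 := nv_in hu
  have h12' : (R1 : ℤ) < R2 := by exact_mod_cast h12
  obtain ⟨w, k1, k2, k3⟩ := first_exit (a := -(R2 : ℤ)) (b := R2) (c := -(R2 : ℤ)) (d := R2)
    (by unfold inR at hu1 ⊢; omega) h1 (nv_cases' hv)
  have h2 := (hz ((trl (-c.1) (-c.2)).mp G) (LSym.mp_mono _ hG) (u - c) w hu1 k2 k3).mono
    Set.inter_subset_left
  rw [LSym.coe_mp] at h2
  have h3 : (trl (-c.1) (-c.2)).ψ (z + c) = z := by rw [trl_neg]; exact add_sub_cancel_right z c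
  rw [← trl_neg, ← h3, LSym.reach_iff] at h2
  exact h2

/-- a circuit blocks the annulus -/
theorem blk_CA {c : Vtx} {R1 R2 : ℕ} (h12 : R1 < R2) {F : Finset Edg} (h : CA c R1 R2 F) :
    ∃ z : Vtx, Blk T (fun u => sd u c ≤ R1) (fun w => R2 ≤ sd w c) z F := by
  classical
  obtain ⟨z, hz⟩ := CA_meetG h12 h
  refine ⟨z, fun u hu hA w hw hB hr => ?_⟩
  set V : Vtx → Prop := fun y => y ∈ T ∧ ¬ Reach (↑F : Set Edg) z y with hV
  set G : Finset Edg := F ∪ (ES T).filter (fun e => V (src e) ∧ V (tgt e)) with hG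
  have hEG : EV V ⊆ ↑G := by
    rintro e ⟨h1, h2⟩
    rw [hG, Finset.mem_coe, Finset.mem_union, Finset.mem_filter]
    exact Or.inr ⟨mem_ES.mpr ⟨h1.1, h2.1⟩, h1, h2⟩
  have h1 := hz G Finset.subset_union_left u w (by rw [← sd_nv]; exact hA)
    (by rw [← sd_nv]; exact hB) (hr.mono hEG)
  -- the cluster of `z` does not grow
  have key : ∀ y, Reach (↑G : Set Edg) z y → Reach (↑F : Set Edg) z y := by
    intro y hy
    induction hy with
    | refl => exact Reach.refl _ _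
    | @tail a b _ hs ih =>
      obtain ⟨e, he, hc⟩ := hs
      rw [hG, Finset.mem_coe, Finset.mem_union, Finset.mem_filter] at he
      rcases he with he | ⟨-, he1, he2⟩
      · exact ih.tail ⟨e, Finset.mem_coe.mpr he, hc⟩
      · exfalso
        rcases hc with ⟨h3, -⟩ | ⟨-, h3⟩
        · rw [h3] at he1; exact he1.2 ih
        · rw [h3] at he2; exact he2.2 ih
  have h2 := key u h1.symm
  -- the start of the path is not in the cluster
  have hne : u ≠ w := by
    rintro rfl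
    omega
  rcases Relation.ReflTransGen.cases_head hr with h3 | ⟨b, ⟨e, he, hc⟩, -⟩
  · exact hne h3
  · rcases hc with ⟨h4, -⟩ | ⟨-, h4⟩
    · have := he.1
      rw [h4] at this
      exact this.2 h2
    · have := he.2
      rw [h4] at this
      exact this.2 h2

theorem Blk_imp {A B A' B' : Vtx → Prop} {z : Vtx} {F : Finset Edg} (h : Blk T A B z F)
    (hA : ∀ y, A' y → A y) (hB : ∀ y, B' y → B y) : Blk T A' B' z F :=
  fun u hu h1 w hw h2 => h u hu (hA u h1) w hw (hB w h2)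

theorem DecB.weak {K : ℕ} {c : Vtx} {R : ℕ} {κ κ' : ℝ} (h : DecB T K c R κ)
    (hk : κ' ≤ κ) : DecB T K c R κ' := by
  obtain ⟨D, h1, h2, h3⟩ := h
  exact ⟨D, h1, hk.trans h2, h3⟩

theorem NetB.weak {n : ℕ} {κ κ' : ℝ} (h : NetB T n κ) (hk : κ' ≤ κ) : NetB T n κ' := by
  obtain ⟨D, h1, h2, h3⟩ := h
  exact ⟨D, h1, hk.trans h2, h3⟩

/-- topological decoupling -/
theorem decB_loc {L : ℤ} {B α c : ℝ} (hc : 0 < c)
    (hw : ∀ (v : Vtx), Win T v L B α → ∀ r : ℕ, 1 ≤ r → (128 * r : ℤ) ≤ L →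
      c ≤ Pr P (ES T) (HT T v r (64 * r))) (hB : Bas T L B α) {v : Vtx} (hv : v ∈ T) {R : ℕ}
    (hR : 1 ≤ R) (hRL : (1000 * R : ℤ) ≤ L) : DecB T 455 v R (min c ((1 / 2 : ℝ) ^ 188)) := by
  rcases Nat.lt_or_ge (3 * R) (dd T v) with h1 | h1
  · refine ⟨CA v R (3 * R), CA_incr _ _ _ _, (min_le_right _ _).trans
      (pr_CA hR (bo_sub_ES h1)), ?_⟩
    intro F hF hA
    obtain ⟨z, hz⟩ := blk_CA (T := T) (by omega) hA
    exact ⟨z, Blk_imp hz (fun y hy => hy) (fun y hy => by omega)⟩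
  · obtain ⟨v0, hv0, h2, h3⟩ := hB v hv
    refine ⟨HT T v0 (7 * R : ℕ) (64 * (7 * R : ℕ)), Y989.SD.CHN.HT_incr _ _ _ _ _,
      (min_le_left _ _).trans (hw v0 h3 (7 * R) (by omega) (by push_cast; omega)), ?_⟩
    intro F hF hA
    obtain ⟨z, -, -, -, hz⟩ := hA
    refine ⟨z, Blk_imp hz ?_ ?_⟩
    · intro y hy
      have := sd_tri y v v0
      exact mem_BX_sd.mpr (by omega)
    · intro y hy
      have := sd_tri y v0 v
      have := sd_comm v v0
      refine not_mem_BX_sd (by positivity) ?_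
      have h5 : 64 * (7 * R) ≤ sd y v0 := by omega
      exact_mod_cast h5

/-- local estimates -/
theorem local_estB (B α : ℝ) (hα : 0 < α) : ∃ κ : ℝ, 0 < κ ∧ κ ≤ 1 ∧
    ∀ (T : Finset Vtx) (L : ℤ), Bas T L B α →
      (∀ c ∈ T, ∀ R : ℕ, 1 ≤ R → (1000 * R : ℤ) ≤ L → DecB T 455 c R κ) ∧
      ∀ v ∈ T, ∀ n : ℕ, 1 ≤ n → (6000 * n : ℤ) ≤ L →
        κ * eT T v n ≤ aT T v n ∧ κ * aT T v n ≤ eT T v n := by
  obtain ⟨c, C, hc, hC, hwin⟩ := Y989.SD.m_WIN B α hα
  obtain ⟨κ, hκ0, hκ1, hest⟩ := local_est B α hα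
  refine ⟨min κ (min c ((1 / 2 : ℝ) ^ 188)), lt_min hκ0 (lt_min hc (by positivity)),
    (min_le_left _ _).trans hκ1, fun T L hB => ⟨?_, ?_⟩⟩
  · intro v hv R hR hRL
    refine (decB_loc (c := c) hc ?_ hB hv hR hRL).weak (min_le_right _ _)
    intro v0 h0 r hr hrL
    exact (hwin T v0 L h0 r (64 * r) (by omega) (by omega) (by omega)).2.2.2 hrL
  · intro v hv n hn hnL
    obtain ⟨h1, h2⟩ := (hest T L hB).2 v hv n hn hnL
    have e0 := eT_pos (T := T) hv hn
    exact ⟨(mul_le_mul_of_nonneg_right (min_le_left _ _) e0.le).trans h1,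
      (mul_le_mul_of_nonneg_right (min_le_left _ _) (aT_nonneg _ _)).trans h2⟩

/-- a global cluster from a walk -/
theorem netB_of_walk {K s m : ℕ} {κ κ' : ℝ} (hK : 3 ≤ K) (hs : 4 ≤ s) (hκ : 0 ≤ κ) (hκ' : 0 ≤ κ')
    (c : ℕ → Vtx) (hc : ∀ j, c j ∈ T) (hstep : ∀ j, 4 * sd (c j) (c (j + 1)) ≤ s)
    (hcov : ∀ u ∈ T, ∃ j < m, sd u (c j) ≤ s) (hD : ∀ j, DecB T K (c j) s κ)
    (hX : ∀ j, κ' ≤ cT T (c j) (s / 2) (2 * K * s)) : NetB T (2 * K * s) ((κ * κ') ^ m) := by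
  choose D hD1 hD2 hD3 using hD
  refine ⟨fun F => ∀ j < m, D j F ∧ Cx T (c j) (s / 2) (2 * K * s) F, ?_, ?_, ?_⟩
  · intro F G hFG hG hF j hj
    exact ⟨hD1 j F G hFG hG (hF j hj).1, Cx_incr (ES T) (c j) (s / 2) (2 * K * s) F G hFG hG
      (hF j hj).2⟩
  · apply Y989.SD.CHN.harris_fin okP (fun j F => D j F ∧ Cx T (c j) (s / 2) (2 * K * s) F)
      (fun j => incr_and (hD1 j) (Cx_incr _ _ _ _)) (mul_nonneg hκ hκ') m
    intro j _
    exact fkg (hD1 j) (Cx_incr _ _ _ _) hκ' (hD2 j) (hX j)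
  · intro F hF hA
    have hz : ∀ j < m, ∃ z : Vtx, Blk T (fun u => sd u (c j) ≤ s)
        (fun w => K * s ≤ sd w (c j)) z F := fun j hj => hD3 j F hF (hA j hj).1
    rcases Nat.eq_zero_or_pos m with h0 | h0
    · refine ⟨(0, 0), fun x u hu => ?_⟩
      obtain ⟨j, hj, -⟩ := hcov u hu
      omega
    · obtain ⟨z, hz0⟩ := hz 0 h0
      have hall : ∀ j < m, Blk T (fun u => sd u (c j) ≤ s)
          (fun w => K * s ≤ sd w (c j)) z F := by
        intro j
        induction j with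
        | zero => exact fun _ => hz0
        | succ j ih =>
          intro hj
          have hj' : j < m := by omega
          obtain ⟨z', hz'⟩ := hz (j + 1) hj
          obtain ⟨u', w', k0, k1, k2, k3⟩ := (hA j hj').2
          have hst := hstep j
          have hKs : 3 * s ≤ K * s := Nat.mul_le_mul_right _ hK
          have e1 : 2 * K * s = K * s + K * s := by ring
          have t1 := sd_tri u' (c j) (c (j + 1))
          have t2 := sd_tri w' (c (j + 1)) (c j)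
          have t3 := sd_comm (c j) (c (j + 1))
          have m1 := Blk_reach hF (ih hj') k0 (by omega) (by omega) k3
          have m2 := Blk_reach hF hz' k0 (by omega) (by omega) k3
          exact Y989.SD.CHN.Blk.congr hz' (m2.symm.trans m1)
      refine ⟨z, fun x => ?_⟩
      intro u hu hux w hw hB hr
      subst hux
      obtain ⟨j, hj, h3⟩ := hcov u hu
      have t1 := sd_tri u (c j) w
      have t2 := sd_comm (c j) w
      have hKs : 3 * s ≤ K * s := Nat.mul_le_mul_right _ hK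
      have e1 : 2 * K * s = K * s + K * s := by ring
      exact hall j hj u hu h3 w hw (by omega) hr

/-- **Topological decoupling in smooth Jordan domains.** -/
theorem domB_TD {f g : ℂ → ℂ} {Mf α : ℝ} (hf : SmW f g Mf α) :
    ∃ (M : ℕ) (κ ε1 η : ℝ), 0 < κ ∧ κ ≤ 1 ∧ 0 < ε1 ∧ 0 < η ∧ ∀ ε : ℝ, 0 < ε → ε ≤ ε1 →
      ∃ N : ℕ, η ≤ ε * N ∧ Dom (TD f ε) (eT (TD f ε)) 455 M N κ 3 ∧
        (∀ c ∈ TD f ε, ∀ R : ℕ, 1 ≤ R → R ≤ N → DecB (TD f ε) 455 c R κ) ∧
        NetB (TD f ε) N κ := by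
  obtain ⟨ρ, B, ε0, hρ, hε0, hGD⟩ := Y989.SD.m_GD f g Mf α hf
  obtain ⟨l, H, hl, hH, hlip, -, -, -, hint⟩ := Y989.SD.m_GA f g Mf α hf
  obtain ⟨κ0, κ00, κ01, hloc⟩ := local_estB B α hf.al0
  -- the macroscopic scale
  obtain ⟨η, hη⟩ : ∃ η : ℝ, η = ρ / 20000000 := ⟨_, rfl⟩
  have η0 : 0 < η := by rw [hη]; positivity
  obtain ⟨δ, hδ⟩ : ∃ δ : ℝ, δ = min (1 / 2) (η / (20 * H)) := ⟨_, rfl⟩
  have δ0 : 0 < δ := by rw [hδ]; exact lt_min (by norm_num) (by positivity)
  have δ1 : δ ≤ 1 / 2 := by rw [hδ]; exact min_le_left _ _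
  have δ2 : H * δ ≤ η / 20 := by
    have : δ ≤ η / (20 * H) := by rw [hδ]; exact min_le_right _ _
    rw [le_div_iff₀ (by positivity)] at this
    linarith
  obtain ⟨m, p, hpA, hpst, hpcov⟩ := walk (isCompact_closedBall (0 : ℂ) (1 - δ))
    (convex_closedBall _ _) ⟨0, by rw [Metric.mem_closedBall, dist_self]; linarith⟩ δ0
  have hA1 : ∀ z ∈ Metric.closedBall (0 : ℂ) (1 - δ), ‖z‖ < 1 := by
    intro z hz
    rw [Metric.mem_closedBall, dist_zero_right] at hz
    linarith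
  have hA2 : ∀ z ∈ Metric.closedBall (0 : ℂ) (1 - δ), z ∈ disc := by
    intro z hz
    have := hA1 z hz
    unfold disc
    rw [Metric.mem_closedBall, dist_zero_right]
    exact this.le
  -- the image of the smaller disc is well inside
  obtain ⟨r0, hr0, hr1⟩ : ∃ r0 : ℝ, 0 < r0 ∧ ∀ z ∈ Metric.closedBall (0 : ℂ) (1 - δ), ∀ w : ℂ,
      ‖w - f z‖ < r0 → w ∈ f '' disc := by
    have hcont : ContinuousOn f (Metric.closedBall (0 : ℂ) (1 - δ)) := by
      rw [Metric.continuousOn_iff]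
      intro b hb e he
      refine ⟨e / H, by positivity, fun a ha hab => ?_⟩
      rw [dist_eq_norm] at hab ⊢
      rw [lt_div_iff₀ hH] at hab
      have := (hlip a (hA2 a ha) b (hA2 b hb)).2
      linarith
    have hc := (isCompact_closedBall (0 : ℂ) (1 - δ)).image_of_continuousOn hcont
    obtain ⟨r0, h1, h2⟩ := hc.exists_thickening_subset_open (isOpen_interior (s := f '' disc)) (by
      rintro _ ⟨z, hz, rfl⟩
      exact hint z (hA1 z hz))
    refine ⟨r0, h1, fun z hz w hw => interior_subset (h2 ?_)⟩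
    rw [Metric.mem_thickening_iff]
    exact ⟨f z, ⟨z, hz, rfl⟩, by rw [dist_eq_norm]; exact hw⟩
  obtain ⟨κ', hκ'⟩ : ∃ κ' : ℝ, κ' = κ0 ^ 2 * (1 / 3 : ℝ) ^ (8 + 1) := ⟨_, rfl⟩
  have κ'0 : 0 < κ' := by rw [hκ']; positivity
  obtain ⟨M, hM⟩ := exists_nat_ge (4 * H / η)
  obtain ⟨κ, hκ⟩ : ∃ κ : ℝ, κ = min κ0 ((κ0 * κ') ^ m) := ⟨_, rfl⟩
  have κp : 0 < κ := by rw [hκ]; exact lt_min κ00 (by positivity)
  have κa : κ ≤ κ0 := by rw [hκ]; exact min_le_left _ _
  have κb : κ ≤ (κ0 * κ') ^ m := by rw [hκ]; exact min_le_right _ _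
  refine ⟨M + 1, κ, min (min ε0 (r0 / 2)) (η / 100), η, κp, κa.trans κ01,
    lt_min (lt_min hε0 (by positivity)) (by positivity), η0, ?_⟩
  intro ε hε hε1
  have hεa : ε ≤ ε0 := (hε1.trans (min_le_left _ _)).trans (min_le_left _ _)
  have hεb : ε ≤ r0 / 2 := (hε1.trans (min_le_left _ _)).trans (min_le_right _ _)
  have hεc : ε ≤ η / 100 := hε1.trans (min_le_right _ _)
  obtain ⟨g1, g2, g3⟩ := hGD ε hε hεa
  have hB := bas_TD (g := g) (M := Mf) hε g2 g3
  obtain ⟨T, hT⟩ : ∃ T : Finset Vtx, T = TD f ε := ⟨_, rfl⟩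
  rw [← hT] at g1 hB ⊢
  obtain ⟨L, hL⟩ : ∃ L : ℤ, L = ⌊ρ / ε⌋ := ⟨_, rfl⟩
  rw [← hL] at hB
  obtain ⟨hdec, harm⟩ := hloc T L hB
  obtain ⟨s, hs⟩ : ∃ s : ℕ, s = ⌊η / ε⌋₊ := ⟨_, rfl⟩
  have hx : 100 ≤ η / ε := by
    rw [le_div_iff₀ hε]
    linarith
  have hs1 : (s : ℝ) ≤ η / ε := by
    rw [hs]
    exact Nat.floor_le (by positivity)
  have hs2 : η / ε - 1 < s := by
    rw [hs]
    have := Nat.lt_floor_add_one (η / ε)
    linarith
  have hs3 : (99 : ℝ) < s := by linarith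
  have hs4 : 99 < s := by exact_mod_cast hs3
  have hsL : (12000 * 910 * s : ℤ) ≤ L := by
    rw [hL, Int.le_floor]
    push_cast
    rw [hη] at hs1
    have e1 : ρ / 20000000 / ε = (ρ / ε) / 20000000 := by ring
    rw [e1, le_div_iff₀ (by norm_num)] at hs1
    have : (0 : ℝ) ≤ s := Nat.cast_nonneg _
    linarith
  -- the vertices of the walk
  choose c hc using fun j => exists_vertex hε (f (p j))
  have hcT : ∀ j, c j ∈ T := by
    intro j
    rw [g1]
    apply hr1 (p j) (hpA j)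
    have := hc j
    linarith
  have sdle : ∀ (u v : Vtx) (x : ℝ), ‖pos ε u - pos ε v‖ ≤ x → (sd u v : ℝ) ≤ x / ε := by
    intro u v x h
    rw [le_div_iff₀ hε]
    have := (norm_pos hε u v).1
    linarith
  have hN1 : NetB T (2 * 455 * s) κ := by
    have hnet := netB_of_walk (T := T) (K := 455) (s := s) (m := m) (κ := κ0) (κ' := κ')
      (by norm_num) (by omega) κ00.le κ'0.le c hcT ?_ ?_ ?_ ?_
    · exact hnet.weak κb
    · intro j
      have h1 : ‖pos ε (c j) - pos ε (c (j + 1))‖ ≤ η / 20 + 2 * ε := by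
        have h2 := (hlip _ (hA2 _ (hpA j)) _ (hA2 _ (hpA (j + 1)))).2
        have h3 := hpst j
        have h4 : H * ‖p j - p (j + 1)‖ ≤ H * δ := mul_le_mul_of_nonneg_left h3 hH.le
        have h5 : pos ε (c j) - pos ε (c (j + 1)) = (pos ε (c j) - f (p j)) +
            (f (p j) - f (p (j + 1))) + -(pos ε (c (j + 1)) - f (p (j + 1))) := by ring
        rw [h5]
        refine norm_add₃_le.trans ?_
        rw [norm_neg]
        have h6 := hc j
        have h7 := hc (j + 1)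
        linarith
      have h8 := sdle _ _ _ h1
      have h9 : (η / 20 + 2 * ε) / ε = (η / ε) / 20 + 2 := by
        field_simp
      rw [h9] at h8
      have h10 : ((4 * sd (c j) (c (j + 1)) : ℕ) : ℝ) ≤ s := by
        push_cast
        linarith
      exact_mod_cast h10
    · intro u hu
      obtain ⟨z, hz, hzu⟩ := (g1 u).mp hu
      have hz1 : ‖z‖ ≤ 1 := by
        unfold disc at hz
        rw [Metric.mem_closedBall, dist_zero_right] at hz
        exact hz
      have hz' : ((1 - δ : ℝ) : ℂ) * z ∈ Metric.closedBall (0 : ℂ) (1 - δ) := by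
        rw [Metric.mem_closedBall, dist_zero_right, norm_mul, Complex.norm_real,
          Real.norm_of_nonneg (by linarith)]
        nlinarith [norm_nonneg z]
      obtain ⟨j, hj, hzj⟩ := hpcov _ hz'
      refine ⟨j, hj, ?_⟩
      have h1 : ‖z - ((1 - δ : ℝ) : ℂ) * z‖ ≤ δ := by
        have e1 : z - ((1 - δ : ℝ) : ℂ) * z = (δ : ℂ) * z := by push_cast; ring
        rw [e1, norm_mul, Complex.norm_real, Real.norm_of_nonneg δ0.le]
        nlinarith [norm_nonneg z]
      have h2 : ‖z - p j‖ ≤ 2 * δ := by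
        have e1 : z - p j = (z - ((1 - δ : ℝ) : ℂ) * z) + (((1 - δ : ℝ) : ℂ) * z - p j) := by ring
        rw [e1]
        refine (norm_add_le _ _).trans ?_
        linarith
      have h3 := (hlip z hz _ (hA2 _ (hpA j))).2
      have h4 : H * ‖z - p j‖ ≤ H * (2 * δ) := mul_le_mul_of_nonneg_left h2 hH.le
      have h5 : ‖pos ε u - pos ε (c j)‖ ≤ η / 10 + ε := by
        have e1 : pos ε u - pos ε (c j) = (f z - f (p j)) - (pos ε (c j) - f (p j)) := by
          rw [hzu]; ring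
        rw [e1]
        refine (norm_sub_le _ _).trans ?_
        have := hc j
        linarith
      have h6 := sdle _ _ _ h5
      have h7 : (η / 10 + ε) / ε = (η / ε) / 10 + 1 := by
        field_simp
      rw [h7] at h6
      have h8 : ((sd u (c j) : ℕ) : ℝ) ≤ s := by linarith
      exact_mod_cast h8
    · intro j
      exact hdec (c j) (hcT j) s (by omega) (by omega)
    · intro j
      rw [hκ']
      exact cx_of_arm κ00 (hcT j) (K := 455) (J := 8) (by omega) (by norm_num) (by norm_num)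
        (fun n hn hns => harm (c j) (hcT j) n hn (by omega))
  have hD1 : ∀ v ∈ T, ∀ R : ℕ, 1 ≤ R → R ≤ 2 * 455 * s → DecB T 455 v R κ :=
    fun v hv R hR hRN => (hdec v hv R hR (by omega)).weak κa
  have hNη : η ≤ ε * ((2 * 455 * s : ℕ) : ℝ) := by
    push_cast
    have h1 : η / ε ≤ 2 * 455 * s := by linarith
    rw [div_le_iff₀ hε] at h1
    linarith
  refine ⟨2 * 455 * s, hNη, ⟨by norm_num, by omega, by omega, κp, κa.trans κ01,
    fun v hv R hR hRN => (hD1 v hv R hR hRN).dec, hN1.net, ?_, ?_, reg_eT T,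
    fun v hv => eT_one hv⟩, hD1, hN1⟩
  · intro v hv n hn hnN
    obtain ⟨h1, h2⟩ := harm v hv n hn (by omega)
    have e0 := eT_pos (T := T) hv hn
    exact ⟨(mul_le_mul_of_nonneg_right κa e0.le).trans h1,
      (mul_le_mul_of_nonneg_right κa (aT_nonneg _ _)).trans h2⟩
  · intro u hu v hv
    obtain ⟨z, hz, hzu⟩ := (g1 u).mp hu
    obtain ⟨w, hw, hwv⟩ := (g1 v).mp hv
    have hz1 : ‖z‖ ≤ 1 := by
      unfold disc at hz
      rw [Metric.mem_closedBall, dist_zero_right] at hz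
      exact hz
    have hw1 : ‖w‖ ≤ 1 := by
      unfold disc at hw
      rw [Metric.mem_closedBall, dist_zero_right] at hw
      exact hw
    have h1 := (hlip z hz w hw).2
    have h2 : ‖z - w‖ ≤ 2 := (norm_sub_le _ _).trans (by linarith)
    have h3 : H * ‖z - w‖ ≤ H * 2 := mul_le_mul_of_nonneg_left h2 hH.le
    have h4 : ‖pos ε u - pos ε v‖ ≤ 2 * H := by
      rw [← hzu, ← hwv]
      linarith
    have h5 := sdle _ _ _ h4
    have h6 : 2 * H / ε ≤ (M : ℝ) * s := by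
      have h7 : 4 * H ≤ M * η := by
        rw [div_le_iff₀ η0] at hM
        exact hM
      have h8 : η / ε / 2 ≤ s := by linarith
      calc 2 * H / ε = (4 * H) / (2 * ε) := by field_simp; ring
        _ ≤ (M * η) / (2 * ε) := div_le_div_of_nonneg_right h7 (by positivity)
        _ = M * (η / ε / 2) := by ring
        _ ≤ M * s := mul_le_mul_of_nonneg_left h8 (Nat.cast_nonneg _)
    have h7 : ((sd u v : ℕ) : ℝ) ≤ ((M * s : ℕ) : ℝ) := by
      push_cast
      linarith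
    have h8 : sd u v ≤ M * s := by exact_mod_cast h7
    calc sd u v ≤ M * s := h8
      _ ≤ (M + 1) * (2 * 455 * s) := by
        apply Nat.mul_le_mul (by omega) (by omega)


end Pool.Agent.D0H49.CC
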