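import Pool.Agent.D0H49.CC.Dom
import Pool.Agent.D0H95.KP.Cov

/-!
Lattice approximation of a continuum in a smooth Jordan domain.
-/

set_option autoImplicit false
set_option maxHeartbeats 1000000
set_option linter.unusedVariables false

namespace Pool.Agent.D0H49.CC
open Finset H974 Pool.Agent.H160R2.CV H362P
open Pool.Agent.H160R2.CV.Quad
open H973 (ES mem_ES EV BX mem_BX)
open TH976 (sd sd_self sd_comm sd_tri sd_pos fkg incr_and pr_edge EH cx norm_cx)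
open Pool.Agent.D0H95.KP
open Y989.SD (SmW disc cir pos TD Win btT XT HT VT Blk QB mem_QB emb nu ip)

theorem pos_sq (ε : ℝ) (v : Vtx) (m : ℂ) :
    ‖pos ε v - m‖ ^ 2 = (ε * v.1 - m.re) ^ 2 + (ε * v.2 - m.im) ^ 2 := by
  rw [← Complex.normSq_eq_norm_sq, Complex.normSq_apply]
  simp only [Complex.sub_re, Complex.sub_im, pos]
  ring

theorem lt_iff_sq {ε : ℝ} (hε : 0 < ε) (v : Vtx) (m : ℂ) :
    ‖pos ε v - m‖ < 3 / 4 * ε ↔
      (ε * v.1 - m.re) ^ 2 + (ε * v.2 - m.im) ^ 2 < 9 / 16 * ε ^ 2 := by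
  rw [← pos_sq]
  constructor
  · intro h
    nlinarith [norm_nonneg (pos ε v - m)]
  · intro h
    by_contra hc
    push Not at hc
    nlinarith

/-- a lattice point near a point -/
theorem exists_near {ε : ℝ} (hε : 0 < ε) (z : ℂ) : ∃ v : Vtx, ‖pos ε v - z‖ < 3 / 4 * ε := by
  refine ⟨(round (z.re / ε), round (z.im / ε)), ?_⟩
  rw [lt_iff_sq hε]
  have h1 := abs_sub_round (z.re / ε)
  have h2 := abs_sub_round (z.im / ε)
  have key : ∀ x : ℝ, |x / ε - round (x / ε)| ≤ 1 / 2 →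
      (ε * (round (x / ε) : ℝ) - x) ^ 2 ≤ 1 / 4 * ε ^ 2 := by
    intro x hx
    have e1 : ε * (round (x / ε) : ℝ) - x = -(ε * (x / ε - round (x / ε))) := by
      rw [mul_sub, mul_div_cancel₀ _ hε.ne']
      ring
    rw [e1, neg_sq, mul_pow]
    have : (x / ε - round (x / ε)) ^ 2 ≤ 1 / 4 := by
      rw [← sq_abs]
      nlinarith [abs_nonneg (x / ε - round (x / ε))]
    nlinarith [pow_pos hε 2]
  have a1 := key _ h1
  have a2 := key _ h2
  simp only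
  nlinarith [pow_pos hε 2]

/-- a step of the lattice -/
theorem stepE {V : Vtx → Prop} {v u : Vtx} (hv : V v) (hu : V u)
    (h : (u.1 = v.1 + 1 ∧ u.2 = v.2) ∨ (v.1 = u.1 + 1 ∧ u.2 = v.2) ∨
      (u.1 = v.1 ∧ u.2 = v.2 + 1) ∨ (u.1 = v.1 ∧ v.2 = u.2 + 1)) : Reach (EV V) v u := by
  obtain ⟨a, b⟩ := v
  obtain ⟨c, d⟩ := u
  simp only at h
  rcases h with ⟨h1, h2⟩ | ⟨h1, h2⟩ | ⟨h1, h2⟩ | ⟨h1, h2⟩
  · subst h1; subst h2
    exact Adj.reach ⟨(a, d, true), ⟨hv, hu⟩, Or.inl ⟨rfl, rfl⟩⟩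
  · subst h1; subst h2
    exact Adj.reach ⟨(c, d, true), ⟨hu, hv⟩, Or.inr ⟨rfl, rfl⟩⟩
  · subst h1; subst h2
    exact Adj.reach ⟨(c, b, false), ⟨hv, hu⟩, Or.inl ⟨rfl, rfl⟩⟩
  · subst h1; subst h2
    exact Adj.reach ⟨(c, d, false), ⟨hu, hv⟩, Or.inr ⟨rfl, rfl⟩⟩

/-- two lattice points near the same point are joined -/
theorem near_joined {ε : ℝ} (hε : 0 < ε) {m : ℂ} {v u : Vtx} (hv : ‖pos ε v - m‖ < 3 / 4 * ε)
    (hu : ‖pos ε u - m‖ < 3 / 4 * ε) :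
    Reach (EV fun y => ‖pos ε y - m‖ < 3 / 4 * ε) v u := by
  have hv' := (lt_iff_sq hε v m).mp hv
  have hu' := (lt_iff_sq hε u m).mp hu
  obtain ⟨a, b⟩ := v
  obtain ⟨c, d⟩ := u
  simp only at hv' hu'
  obtain ⟨x, hx⟩ : ∃ x, x = m.re := ⟨_, rfl⟩
  obtain ⟨y, hy⟩ : ∃ y, y = m.im := ⟨_, rfl⟩
  rw [← hx, ← hy] at hv' hu'
  have hε2 : 0 < ε ^ 2 := by positivity
  -- integer differences
  have hac : |c - a| ≤ 1 := by
    by_contra hcon
    push Not at hcon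
    have h2 : (2 : ℤ) ≤ |c - a| := by omega
    have h3 : (4 : ℝ) ≤ ((c : ℝ) - a) ^ 2 := by
      have h4 : (2 : ℝ) ≤ |(c : ℝ) - a| := by exact_mod_cast h2
      rw [← sq_abs]
      nlinarith
    nlinarith [sq_nonneg (ε * c - x + (ε * a - x)), sq_nonneg (ε * b - y), sq_nonneg (ε * d - y)]
  have hbd : |d - b| ≤ 1 := by
    by_contra hcon
    push Not at hcon
    have h2 : (2 : ℤ) ≤ |d - b| := by omega
    have h3 : (4 : ℝ) ≤ ((d : ℝ) - b) ^ 2 := by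
      have h4 : (2 : ℝ) ≤ |(d : ℝ) - b| := by exact_mod_cast h2
      rw [← sq_abs]
      nlinarith
    nlinarith [sq_nonneg (ε * d - y + (ε * b - y)), sq_nonneg (ε * a - x), sq_nonneg (ε * c - x)]
  rw [abs_le] at hac hbd
  by_cases h1 : c = a
  · by_cases h2 : d = b
    · subst h1; subst h2
      exact Reach.refl _ _
    · apply stepE hv hu
      simp only
      omega
  · by_cases h2 : d = b
    · apply stepE hv hu
      simp only
      omega
    · -- the diagonal case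
      have hp : ‖pos ε (c, b) - m‖ < 3 / 4 * ε ∨ ‖pos ε (a, d) - m‖ < 3 / 4 * ε := by
        by_contra hcon
        push Not at hcon
        obtain ⟨k1, k2⟩ := hcon
        have k1' : ¬ ((ε * c - x) ^ 2 + (ε * b - y) ^ 2 < 9 / 16 * ε ^ 2) := by
          intro h
          have := (lt_iff_sq hε (c, b) m).mpr (by simp only; rw [← hx, ← hy]; exact h)
          linarith
        have k2' : ¬ ((ε * a - x) ^ 2 + (ε * d - y) ^ 2 < 9 / 16 * ε ^ 2) := by
          intro h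
          have := (lt_iff_sq hε (a, d) m).mpr (by simp only; rw [← hx, ← hy]; exact h)
          linarith
        linarith
      have o1 : c = a + 1 ∨ a = c + 1 := by omega
      have o2 : d = b + 1 ∨ b = d + 1 := by omega
      rcases hp with hp | hp
      · have j1 : Reach (EV fun y => ‖pos ε y - m‖ < 3 / 4 * ε) (a, b) (c, b) := by
          apply stepE hv hp
          rcases o1 with h | h
          · exact Or.inl ⟨h, rfl⟩
          · exact Or.inr (Or.inl ⟨h, rfl⟩)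
        have j2 : Reach (EV fun y => ‖pos ε y - m‖ < 3 / 4 * ε) (c, b) (c, d) := by
          apply stepE hp hu
          rcases o2 with h | h
          · exact Or.inr (Or.inr (Or.inl ⟨rfl, h⟩))
          · exact Or.inr (Or.inr (Or.inr ⟨rfl, h⟩))
        exact j1.trans j2
      · have j1 : Reach (EV fun y => ‖pos ε y - m‖ < 3 / 4 * ε) (a, b) (a, d) := by
          apply stepE hv hp
          rcases o2 with h | h
          · exact Or.inr (Or.inr (Or.inl ⟨rfl, h⟩))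
          · exact Or.inr (Or.inr (Or.inr ⟨rfl, h⟩))
        have j2 : Reach (EV fun y => ‖pos ε y - m‖ < 3 / 4 * ε) (a, d) (c, d) := by
          apply stepE hp hu
          rcases o1 with h | h
          · exact Or.inl ⟨h, rfl⟩
          · exact Or.inr (Or.inl ⟨h, rfl⟩)
        exact j1.trans j2

/-- the lattice points near a connected set are connected -/
theorem near_conn {ε : ℝ} (hε : 0 < ε) {A : Set ℂ} (hA : IsPreconnected A) {v u : Vtx}
    (hv : ∃ m ∈ A, ‖pos ε v - m‖ < 3 / 4 * ε) (hu : ∃ m ∈ A, ‖pos ε u - m‖ < 3 / 4 * ε) :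
    Reach (EV fun y => ∃ m ∈ A, ‖pos ε y - m‖ < 3 / 4 * ε) v u := by
  obtain ⟨V, hV⟩ : ∃ V : Vtx → Prop, V = fun y => ∃ m ∈ A, ‖pos ε y - m‖ < 3 / 4 * ε := ⟨_, rfl⟩
  rw [← hV]
  by_contra hcon
  have hop : ∀ W : Vtx → Prop, IsOpen {m : ℂ | ∃ y, W y ∧ ‖pos ε y - m‖ < 3 / 4 * ε} := by
    intro W
    have : {m : ℂ | ∃ y, W y ∧ ‖pos ε y - m‖ < 3 / 4 * ε} =
        ⋃ y ∈ {y | W y}, Metric.ball (pos ε y) (3 / 4 * ε) := by
      ext m
      simp only [Set.mem_ofPred_eq, Set.mem_iUnion, Metric.mem_ball, exists_prop]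
      constructor
      · rintro ⟨y, h1, h2⟩
        exact ⟨y, h1, by rw [dist_comm, dist_eq_norm]; exact h2⟩
      · rintro ⟨y, h1, h2⟩
        exact ⟨y, h1, by rw [dist_comm, dist_eq_norm] at h2; exact h2⟩
    rw [this]
    exact isOpen_biUnion fun y _ => Metric.isOpen_ball
  obtain ⟨m1, hm1, hv1⟩ := hv
  obtain ⟨m2, hm2, hu1⟩ := hu
  obtain ⟨m, hm, ⟨y1, hy1, hy1'⟩, ⟨y2, hy2, hy2'⟩⟩ := hA _ _
    (hop fun y => Reach (EV V) v y) (hop fun y => ¬ Reach (EV V) v y)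
    (by
      intro m hm
      obtain ⟨y, hy⟩ := exists_near hε m
      by_cases h : Reach (EV V) v y
      · exact Or.inl ⟨y, h, hy⟩
      · exact Or.inr ⟨y, h, hy⟩)
    ⟨m1, hm1, v, Reach.refl _ _, hv1⟩ ⟨m2, hm2, u, hcon, hu1⟩
  apply hy2
  refine hy1.trans ((near_joined hε hy1' hy2').mono (EV_mono ?_))
  intro y hy
  rw [hV]
  exact ⟨m, hm, hy⟩

/-- the shift towards the inside -/
noncomputable def shf (g : ℂ → ℂ) (ε : ℝ) (w : ℂ) : ℂ :=
  ((5 / 4 * ε : ℝ) : ℂ) * (-(w * g w) / (‖g w‖ : ℂ))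

theorem ip_add (a b c : ℂ) : ip a (b + c) = ip a b + ip a c := by
  unfold ip
  simp only [Complex.add_re, Complex.add_im]
  ring

theorem ip_smul (a b : ℂ) (r : ℝ) : ip a ((r : ℂ) * b) = r * ip a b := by
  unfold ip
  simp only [Complex.mul_re, Complex.mul_im, Complex.ofReal_re, Complex.ofReal_im]
  ring

theorem ip_self (a : ℂ) : ip a a = ‖a‖ ^ 2 := by
  unfold ip
  rw [← Complex.normSq_eq_norm_sq, Complex.normSq_apply]

theorem ip_abs (a b : ℂ) : |ip a b| ≤ ‖a‖ * ‖b‖ := by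
  have h : ip a b = (starRingEnd ℂ a * b).re := by
    unfold ip
    simp only [Complex.mul_re, Complex.conj_re, Complex.conj_im]
    ring
  rw [h]
  calc |(starRingEnd ℂ a * b).re| ≤ ‖starRingEnd ℂ a * b‖ := Complex.abs_re_le_norm _
    _ = _ := by rw [norm_mul, Complex.norm_conj]

theorem norm_dir {g : ℂ → ℂ} {w : ℂ} (hw : ‖w‖ ≤ 1) : ‖-(w * g w) / (‖g w‖ : ℂ)‖ ≤ 1 := by
  rw [norm_div, norm_neg, norm_mul, Complex.norm_real, norm_norm]
  rcases eq_or_lt_of_le (norm_nonneg (g w)) with h | h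
  · rw [← h]; simp
  · rw [div_le_one h]
    nlinarith

theorem norm_shf {g : ℂ → ℂ} {ε : ℝ} (hε : 0 < ε) {w : ℂ} (hw : ‖w‖ ≤ 1) :
    ‖shf g ε w‖ ≤ 5 / 4 * ε := by
  unfold shf
  rw [norm_mul, Complex.norm_real, Real.norm_of_nonneg (by positivity)]
  have := norm_dir (g := g) hw
  nlinarith

/-- points well inside -/
theorem deep_in {f g : ℂ → ℂ} {M α : ℝ} (hf : SmW f g M α) {δ : ℝ} (hδ : 0 < δ) :
    ∃ r0 : ℝ, 0 < r0 ∧ ∀ z : ℂ, ‖z‖ ≤ 1 - δ → ∀ w : ℂ, ‖w - f z‖ < r0 → w ∈ f '' disc := by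
  obtain ⟨l, H, hl, hH, hlip, -, -, -, hint⟩ := Y989.SD.m_GA f g M α hf
  have hA1 : ∀ z ∈ Metric.closedBall (0 : ℂ) (1 - δ), ‖z‖ < 1 := by
    intro z hz
    rw [Metric.mem_closedBall, dist_zero_right] at hz
    linarith
  have hA2 : ∀ z ∈ Metric.closedBall (0 : ℂ) (1 - δ), z ∈ disc := by
    intro z hz
    have := hA1 z hz
    exact mem_disc'.mpr this.le
  have hcont : ContinuousOn f (Metric.closedBall (0 : ℂ) (1 - δ)) := by
    rw [Metric.continuousOn_iff]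
    intro b hb e he
    refine ⟨e / H, by positivity, fun a ha hab => ?_⟩
    rw [dist_eq_norm] at hab ⊢
    rw [lt_div_iff₀ hH] at hab
    have := (hlip a (hA2 a ha) b (hA2 b hb)).2
    linarith
  have hc := (isCompact_closedBall (0 : ℂ) (1 - δ)).image_of_continuousOn hcont
  obtain ⟨r0, h1, h2⟩ := hc.exists_thickening_subset_open (isOpen_interior (s := f '' disc)) (by
    rintro _ ⟨z, hz, rfl⟩
    exact hint z (hA1 z hz))
  refine ⟨r0, h1, fun z hz w hw => interior_subset (h2 ?_)⟩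
  rw [Metric.mem_thickening_iff]
  exact ⟨f z, ⟨z, by rw [Metric.mem_closedBall, dist_zero_right]; exact hz, rfl⟩,
    by rw [dist_eq_norm]; exact hw⟩

theorem dir_diff {a b : ℂ} {l : ℝ} (hl : 0 < l) (ha : a ≠ 0) (hb : l ≤ ‖b‖) :
    ‖a / (‖a‖ : ℂ) - b / (‖b‖ : ℂ)‖ ≤ 2 * ‖a - b‖ / l := by
  have a0 : 0 < ‖a‖ := norm_pos_iff.mpr ha
  have b0 : 0 < ‖b‖ := by linarith
  have a0' : (‖a‖ : ℂ) ≠ 0 := by exact_mod_cast a0.ne'
  have b0' : (‖b‖ : ℂ) ≠ 0 := by exact_mod_cast b0.ne'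
  have e1 : a / (‖a‖ : ℂ) - b / (‖b‖ : ℂ) =
      (a - b) / (‖b‖ : ℂ) + (a / (‖a‖ : ℂ)) * (((‖b‖ - ‖a‖ : ℝ) : ℂ) / (‖b‖ : ℂ)) := by
    push_cast
    field_simp
    ring
  rw [e1]
  refine (norm_add_le _ _).trans ?_
  rw [norm_div, norm_mul, norm_div, norm_div, Complex.norm_real, Complex.norm_real,
    Complex.norm_real, Real.norm_of_nonneg b0.le, Real.norm_of_nonneg a0.le, div_self a0.ne',
    one_mul, Real.norm_eq_abs, norm_sub_rev]
  have h1 : |‖b‖ - ‖a‖| ≤ ‖b - a‖ := abs_norm_sub_norm_le b a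
  have h2 : ‖b - a‖ / ‖b‖ ≤ ‖b - a‖ / l := div_le_div_of_nonneg_left (norm_nonneg _) hl hb
  have h3 : |‖b‖ - ‖a‖| / ‖b‖ ≤ ‖b - a‖ / ‖b‖ := div_le_div_of_nonneg_right h1 b0.le
  have e2 : 2 * ‖b - a‖ / l = ‖b - a‖ / l + ‖b - a‖ / l := by ring
  rw [e2]
  linarith

/-- lattice points near the shifted continuum are in the domain -/
theorem lat_in {f g : ℂ → ℂ} {M α : ℝ} (hf : SmW f g M α) :
    ∃ ε0 : ℝ, 0 < ε0 ∧ ∀ ε : ℝ, 0 < ε → ε ≤ ε0 → ∀ w : ℂ, ‖w‖ ≤ 1 → ∀ z : ℂ,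
      ‖z - (f w + shf g ε w)‖ < 3 / 4 * ε → z ∈ f '' disc ∧ ‖z - f w‖ ≤ 2 * ε := by
  obtain ⟨l, H, hl, hH, hlip, hg, hgh, -, hint⟩ := Y989.SD.m_GA f g M α hf
  obtain ⟨ρ, hρ, hcone⟩ := Y989.SD.m_GC f g M α hf
  have hα := hf.al0
  obtain ⟨δ, hδ, δ1, δ2, δ3⟩ : ∃ δ : ℝ, 0 < δ ∧ δ ≤ 1 / 25 ∧ H * δ ≤ ρ ∧
      2 * (H * δ ^ α) / l ≤ 1 / 25 := by
    obtain ⟨x, hx⟩ : ∃ x : ℝ, x = (l / (50 * H)) ^ (1 / α) := ⟨_, rfl⟩
    have x0 : 0 < x := by rw [hx]; positivity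
    refine ⟨min (1 / 25) (min (ρ / H) x), by positivity, min_le_left _ _, ?_, ?_⟩
    · have h1 : min (1 / 25) (min (ρ / H) x) ≤ ρ / H := (min_le_right _ _).trans (min_le_left _ _)
      rw [le_div_iff₀ hH] at h1
      linarith
    · have h1 : min (1 / 25) (min (ρ / H) x) ≤ x := (min_le_right _ _).trans (min_le_right _ _)
      have h2 : (min (1 / 25) (min (ρ / H) x)) ^ α ≤ x ^ α :=
        Real.rpow_le_rpow (by positivity) h1 hα.le
      have h3 : x ^ α = l / (50 * H) := by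
        rw [hx, ← Real.rpow_mul (by positivity), one_div, inv_mul_cancel₀ hα.ne', Real.rpow_one]
      rw [h3] at h2
      rw [div_le_iff₀ hl]
      rw [le_div_iff₀ (by positivity)] at h2
      linarith
  obtain ⟨r0, hr0, hdeep⟩ := deep_in hf hδ
  refine ⟨min (ρ / 2) (r0 / 4), by positivity, ?_⟩
  intro ε hε hε1 w hw z hz
  have e1 : ε ≤ ρ / 2 := hε1.trans (min_le_left _ _)
  have e2 : ε ≤ r0 / 4 := hε1.trans (min_le_right _ _)
  have n1 : ‖z - f w‖ ≤ 2 * ε := by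
    have h1 : z - f w = (z - (f w + shf g ε w)) + shf g ε w := by ring
    rw [h1]
    refine (norm_add_le _ _).trans ?_
    have := norm_shf (g := g) hε hw
    linarith
  refine ⟨?_, n1⟩
  rcases le_or_gt ‖w‖ (1 - δ) with hc | hc
  · exact hdeep w hc z (by linarith)
  · obtain ⟨w', hw', hr⟩ := exists_rad w hw
    have hwd : w ∈ disc := mem_disc'.mpr hw
    have hwd' : w' ∈ disc := mem_disc'.mpr hw'.le
    have hd : ‖w - w'‖ ≤ δ := by linarith
    have gw := hg w hwd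
    have gw' := hg w' hwd'
    have g0 : g w ≠ 0 := hf.ne w hwd
    have g0' : g w' ≠ 0 := hf.ne w' hwd'
    have gp : 0 < ‖g w‖ := norm_pos_iff.mpr g0
    have gp' : 0 < ‖g w'‖ := norm_pos_iff.mpr g0'
    -- the direction
    have hdir : ‖-(w * g w) / (‖g w‖ : ℂ) - nu g w'‖ ≤ 2 / 25 := by
      unfold nu
      have e3 : -(w * g w) / (‖g w‖ : ℂ) - -(w' * g w') / (‖g w'‖ : ℂ) =
          -((w - w') * (g w / (‖g w‖ : ℂ)) + w' * (g w / (‖g w‖ : ℂ) - g w' / (‖g w'‖ : ℂ))) := by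
        ring
      rw [e3, norm_neg]
      refine (norm_add_le _ _).trans ?_
      rw [norm_mul, norm_mul, hw', one_mul, norm_div, Complex.norm_real, norm_norm,
        div_self gp.ne', mul_one]
      have h1 := dir_diff hl g0 gw'.1
      have h2 := hgh w hwd w' hwd'
      have h3 : ‖w - w'‖ ^ α ≤ δ ^ α := Real.rpow_le_rpow (norm_nonneg _) hd hα.le
      have h4 : 2 * ‖g w - g w'‖ / l ≤ 2 * (H * δ ^ α) / l := by
        apply div_le_div_of_nonneg_right _ hl.le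
        have := mul_le_mul_of_nonneg_left h3 hH.le
        linarith
      linarith
    have hnu : ‖nu g w'‖ = 1 := by
      unfold nu
      rw [norm_div, norm_neg, norm_mul, hw', one_mul, Complex.norm_real, norm_norm,
        div_self gp'.ne']
    have hz' : f w + (z - f w) = z := by ring
    have hmain := hcone w' hw' (f w) ⟨w, hwd, rfl⟩ (by
      have := (hlip w hwd w' hwd').2
      have h2 := mul_le_mul_of_nonneg_left hd hH.le
      linarith) (z - f w) (by linarith) (by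
      obtain ⟨e, he⟩ : ∃ e, e = z - (f w + shf g ε w) := ⟨_, rfl⟩
      rw [← he] at hz
      obtain ⟨d, hd'⟩ : ∃ d, d = -(w * g w) / (‖g w‖ : ℂ) - nu g w' := ⟨_, rfl⟩
      rw [← hd'] at hdir
      have h1 : z - f w = ((5 / 4 * ε : ℝ) : ℂ) * (nu g w' + d) + e := by
        rw [he, hd']
        unfold shf
        ring
      have h2 : ip (nu g w') (z - f w) = 5 / 4 * ε * (1 + ip (nu g w') d) + ip (nu g w') e := by
        rw [h1, ip_add, ip_smul, ip_add, ip_self, hnu]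
        ring
      have h3 := ip_abs (nu g w') d
      have h4 := ip_abs (nu g w') e
      rw [hnu, one_mul] at h3 h4
      have h5 := (abs_le.mp h3).1
      have h6 := (abs_le.mp h4).1
      rw [h2]
      nlinarith)
    rw [hz'] at hmain
    exact hmain

/-- the vertices near the image of a set -/
def Nr (f : ℂ → ℂ) (ε : ℝ) (k : Set ℂ) (v : Vtx) : Prop :=
  v ∈ TD f ε ∧ ∃ w ∈ k, ‖pos ε v - f w‖ ≤ 2 * ε

theorem cont_shf {f g : ℂ → ℂ} {M α : ℝ} (hf : SmW f g M α) (ε : ℝ) :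
    ContinuousOn (fun w => f w + shf g ε w) disc := by
  obtain ⟨l, H, hl, hH, hlip, hg, hgh, -, hint⟩ := Y989.SD.m_GA f g M α hf
  have hα := hf.al0
  have hcf : ContinuousOn f disc := by
    rw [Metric.continuousOn_iff]
    intro b hb e he
    refine ⟨e / H, by positivity, fun a ha hab => ?_⟩
    rw [dist_eq_norm] at hab ⊢
    rw [lt_div_iff₀ hH] at hab
    have := (hlip a ha b hb).2
    linarith
  have hcg : ContinuousOn g disc := by
    rw [Metric.continuousOn_iff]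
    intro b hb e he
    refine ⟨(e / H) ^ (1 / α), by positivity, fun a ha hab => ?_⟩
    rw [dist_eq_norm] at hab ⊢
    have h1 := hgh a ha b hb
    have h2 : ‖a - b‖ ^ α < ((e / H) ^ (1 / α)) ^ α :=
      Real.rpow_lt_rpow (norm_nonneg _) hab hα
    rw [← Real.rpow_mul (by positivity), one_div, inv_mul_cancel₀ hα.ne', Real.rpow_one,
      lt_div_iff₀ hH] at h2
    linarith
  unfold shf
  refine hcf.add (continuousOn_const.mul ?_)
  refine ContinuousOn.div (continuousOn_id.mul hcg).neg ?_ ?_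
  · exact Complex.continuous_ofReal.comp_continuousOn hcg.norm
  · intro w hw h
    have := hf.ne w hw
    rw [Complex.ofReal_eq_zero, norm_eq_zero] at h
    exact this h

/-- **Lattice approximation of a continuum.** -/
theorem lat_conn {f g : ℂ → ℂ} {M α : ℝ} (hf : SmW f g M α) :
    ∃ ε0 : ℝ, 0 < ε0 ∧ ∀ ε : ℝ, 0 < ε → ε ≤ ε0 → ∀ k : Set ℂ, IsPreconnected k →
      (∀ w ∈ k, ‖w‖ ≤ 1) → ∀ w0 ∈ k, ∃ c0 : Vtx, Nr f ε k c0 ∧ ‖pos ε c0 - f w0‖ ≤ 2 * ε ∧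
        ∀ w1 ∈ k, ∃ c1 : Vtx, Nr f ε k c1 ∧ ‖pos ε c1 - f w1‖ ≤ 2 * ε ∧
          Reach (EV fun y => y ∈ TD f ε ∧ Nr f ε k y) c0 c1 := by
  obtain ⟨ε1, hε1, hin⟩ := lat_in hf
  obtain ⟨ρ, B, ε2, hρ, hε2, hGD⟩ := Y989.SD.m_GD f g M α hf
  refine ⟨min ε1 ε2, lt_min hε1 hε2, ?_⟩
  intro ε hε hεε k hk hk1
  have i1 : ε ≤ ε1 := hεε.trans (min_le_left _ _)
  have i2 : ε ≤ ε2 := hεε.trans (min_le_right _ _)
  obtain ⟨g1, -, -⟩ := hGD ε hε i2
  obtain ⟨m, hm⟩ : ∃ m : ℂ → ℂ, m = fun w => f w + shf g ε w := ⟨_, rfl⟩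
  have hkd : k ⊆ disc := fun w hw => mem_disc'.mpr (hk1 w hw)
  have hA : IsPreconnected (m '' k) := by
    rw [hm]
    exact hk.image _ ((cont_shf hf ε).mono hkd)
  have hNr : ∀ y : Vtx, (∃ z ∈ m '' k, ‖pos ε y - z‖ < 3 / 4 * ε) → Nr f ε k y := by
    rintro y ⟨_, ⟨w, hw, rfl⟩, h⟩
    rw [hm] at h
    obtain ⟨h1, h2⟩ := hin ε hε i1 w (hk1 w hw) (pos ε y) h
    exact ⟨(g1 y).mpr h1, w, hw, h2⟩
  intro w0 hw0
  obtain ⟨c0, hc0⟩ := exists_near hε (m w0)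
  have hc0' := hc0
  rw [hm] at hc0'
  refine ⟨c0, hNr c0 ⟨m w0, ⟨w0, hw0, rfl⟩, hc0⟩, (hin ε hε i1 w0 (hk1 w0 hw0) _ hc0').2, ?_⟩
  intro w1 hw1
  obtain ⟨c1, hc1⟩ := exists_near hε (m w1)
  have hc1' := hc1
  rw [hm] at hc1'
  refine ⟨c1, hNr c1 ⟨m w1, ⟨w1, hw1, rfl⟩, hc1⟩, (hin ε hε i1 w1 (hk1 w1 hw1) _ hc1').2, ?_⟩
  exact (near_conn hε hA ⟨m w0, ⟨w0, hw0, rfl⟩, hc0⟩ ⟨m w1, ⟨w1, hw1, rfl⟩, hc1⟩).mono
    (EV_mono fun y hy => ⟨(hNr y hy).1, hNr y hy⟩)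

end Pool.Agent.D0H49.CC
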