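import Pool.Agent.D0H49.CC.Psi

/-!
The supremum of the four point function over two continua of the disc.
-/

set_option autoImplicit false
set_option maxHeartbeats 1000000

namespace Pool.Agent.D0H49.CC
open Complex ComplexConjugate

theorem Psi_bdd (k1 k2 : Set ℂ) : BddAbove {r | ∃ p ∈ k1, ∃ p' ∈ k1, ∃ q ∈ k2, ∃ q' ∈ k2,
    r = min 1 (ph p p' q q')} := by
  refine ⟨1, ?_⟩
  rintro r ⟨p, -, p', -, q, -, q', -, rfl⟩
  exact min_le_left _ _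

theorem Psi_ge {k1 k2 : Set ℂ} {p p' q q' : ℂ} (hp : p ∈ k1) (hp' : p' ∈ k1) (hq : q ∈ k2)
    (hq' : q' ∈ k2) : min 1 (ph p p' q q') ≤ Psi k1 k2 :=
  le_csSup (Psi_bdd k1 k2) ⟨p, hp, p', hp', q, hq, q', hq', rfl⟩

theorem Psi_le {k1 k2 : Set ℂ} {c : ℝ} (h1 : k1.Nonempty) (h2 : k2.Nonempty)
    (h : ∀ p ∈ k1, ∀ p' ∈ k1, ∀ q ∈ k2, ∀ q' ∈ k2, min 1 (ph p p' q q') ≤ c) :
    Psi k1 k2 ≤ c := by
  obtain ⟨p, hp⟩ := h1
  obtain ⟨q, hq⟩ := h2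
  refine csSup_le ⟨min 1 (ph p p q q), p, hp, p, hp, q, hq, q, hq, rfl⟩ ?_
  rintro r ⟨p, hp, p', hp', q, hq, q', hq', rfl⟩
  exact h p hp p' hp' q hq q' hq'

/-- a point at a given distance -/
theorem exists_dist {k : Set ℂ} (hk : IsPreconnected k) {w p : ℂ} (hw : w ∈ k) (hp : p ∈ k)
    {t : ℝ} (h0 : 0 ≤ t) (h1 : t ≤ ‖p - w‖) : ∃ p' ∈ k, ‖w - p'‖ = t := by
  have hc : ContinuousOn (fun z : ℂ => ‖w - z‖) k := by fun_prop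
  have := hk.intermediate_value hw hp hc
  simp only [sub_self, norm_zero] at this
  obtain ⟨p', h2, h3⟩ := this ⟨h0, by rw [norm_sub_rev]; exact h1⟩
  exact ⟨p', h2, h3⟩

theorem Psi_cmp {k1 k2 : Set ℂ} (h1 : IsCompact k1) (h2 : IsCompact k2) (g1 : IsConnected k1)
    (g2 : IsConnected k2) (d1 : ∀ w ∈ k1, ‖w‖ ≤ 1) (d2 : ∀ w ∈ k2, ‖w‖ ≤ 1)
    (hd : Disjoint k1 k2) : ∃ w1 ∈ k1, ∃ p1 ∈ k1, ∃ w2 ∈ k2, ∃ p2 ∈ k2, w1 ≠ w2 ∧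
      (∀ p ∈ k1, ∀ q ∈ k2, ‖w1 - w2‖ ≤ ‖p - q‖) ∧ (∀ p ∈ k1, ‖p - w1‖ ≤ ‖p1 - w1‖) ∧
      (∀ q ∈ k2, ‖q - w2‖ ≤ ‖p2 - w2‖) ∧
      1 / 3 * (fa ‖w1 - w2‖ (1 - ‖w1‖) ‖p1 - w1‖ * fa ‖w1 - w2‖ (1 - ‖w2‖) ‖p2 - w2‖) ≤
        Psi k1 k2 ∧
      Psi k1 k2 ≤
        10368 * (fa ‖w1 - w2‖ (1 - ‖w1‖) ‖p1 - w1‖ * fa ‖w1 - w2‖ (1 - ‖w2‖) ‖p2 - w2‖) := by
  obtain ⟨⟨w1, w2⟩, ⟨hw1, hw2⟩, hmin⟩ := (h1.prod h2).exists_isMinOn
    (g1.nonempty.prod g2.nonempty) (f := fun z : ℂ × ℂ => ‖z.1 - z.2‖) (by fun_prop)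
  obtain ⟨p1, hp1, hmax1⟩ := h1.exists_isMaxOn g1.nonempty (f := fun z : ℂ => ‖z - w1‖)
    (by fun_prop)
  obtain ⟨p2, hp2, hmax2⟩ := h2.exists_isMaxOn g2.nonempty (f := fun z : ℂ => ‖z - w2‖)
    (by fun_prop)
  simp only at hw1 hw2
  have hne : w1 ≠ w2 := by
    rintro rfl
    exact Set.disjoint_left.mp hd hw1 hw2
  have e1 : ∀ p ∈ k1, ∀ q ∈ k2, ‖w1 - w2‖ ≤ ‖p - q‖ := fun p hp q hq =>
    hmin (show (p, q) ∈ k1 ×ˢ k2 from ⟨hp, hq⟩)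
  have e2 : ∀ p ∈ k1, ‖p - w1‖ ≤ ‖p1 - w1‖ := fun p hp => hmax1 hp
  have e3 : ∀ q ∈ k2, ‖q - w2‖ ≤ ‖p2 - w2‖ := fun q hq => hmax2 hq
  refine ⟨w1, hw1, p1, hp1, w2, hw2, p2, hp2, hne, e1, e2, e3, ?_, ?_⟩
  · obtain ⟨a, ha⟩ : ∃ a : ℝ, a = ‖w1 - w2‖ := ⟨_, rfl⟩
    have a0 : 0 < a := by rw [ha]; exact norm_pos_iff.mpr (sub_ne_zero.mpr hne)
    obtain ⟨p', hp', f1⟩ := exists_dist g1.isPreconnected hw1 hp1
      (t := min ‖p1 - w1‖ a) (le_min (norm_nonneg _) a0.le) (min_le_left _ _)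
    obtain ⟨q', hq', f2⟩ := exists_dist g2.isPreconnected hw2 hp2
      (t := min ‖p2 - w2‖ a) (le_min (norm_nonneg _) a0.le) (min_le_left _ _)
    have hpq : 0 < ‖p' - q'‖ := norm_pos_iff.mpr (sub_ne_zero.mpr (by
      rintro rfl
      exact Set.disjoint_left.mp hd hp' hq'))
    rw [← ha]
    exact (ph_low a0 (norm_nonneg _) (norm_nonneg _) (d1 w1 hw1) (d1 p' hp') (d2 w2 hw2)
      (d2 q' hq') rfl rfl ha.symm hpq f1 f2).trans (Psi_ge hw1 hp' hw2 hq')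
  · apply Psi_le g1.nonempty g2.nonempty
    intro p hp p' hp' q hq q' hq'
    exact ph_up (norm_pos_iff.mpr (sub_ne_zero.mpr hne)) (norm_nonneg _) (norm_nonneg _)
      (d1 p hp) (d1 p' hp') (d2 q hq) (d2 q' hq') (d1 w1 hw1) (d2 w2 hw2) rfl rfl rfl
      (e1 p hp q hq) (e1 p' hp' q' hq') (e2 p hp) (e2 p' hp') (e3 q hq) (e3 q' hq')

/-! ### Invariance under automorphisms of the disc -/

/-- the Moebius map -/
noncomputable def mob (w z : ℂ) : ℂ := (z - w) / (1 - conj w * z)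

theorem mob_den {w z : ℂ} (hw : ‖w‖ < 1) (hz : ‖z‖ ≤ 1) : (1 : ℂ) - conj w * z ≠ 0 := by
  intro h
  have h1 : conj w * z = 1 := (sub_eq_zero.mp h).symm
  have h2 : ‖conj w * z‖ = 1 := by rw [h1, norm_one]
  rw [norm_mul, Complex.norm_conj] at h2
  nlinarith [norm_nonneg w, norm_nonneg z]

theorem mob_sq {w z : ℂ} : ‖1 - conj w * z‖ ^ 2 = ‖z - w‖ ^ 2 + (1 - ‖w‖ ^ 2) * (1 - ‖z‖ ^ 2) := by
  rw [← Complex.normSq_eq_norm_sq, ← Complex.normSq_eq_norm_sq, ← Complex.normSq_eq_norm_sq,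
    ← Complex.normSq_eq_norm_sq]
  simp only [Complex.normSq_apply, Complex.sub_re, Complex.sub_im, Complex.mul_re,
    Complex.mul_im, Complex.conj_re, Complex.conj_im, Complex.one_re, Complex.one_im]
  ring

theorem mob_lt {w z : ℂ} (hw : ‖w‖ < 1) (hz : ‖z‖ < 1) : ‖mob w z‖ < 1 := by
  have h0 := mob_den hw hz.le
  have h1 : 0 < ‖1 - conj w * z‖ := norm_pos_iff.mpr h0
  unfold mob
  rw [norm_div, div_lt_one h1]
  have h2 : ‖z - w‖ ^ 2 < ‖1 - conj w * z‖ ^ 2 := by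
    rw [mob_sq]
    have : 0 < (1 - ‖w‖ ^ 2) * (1 - ‖z‖ ^ 2) := by
      apply mul_pos
      · nlinarith [norm_nonneg w]
      · nlinarith [norm_nonneg z]
    linarith
  exact lt_of_pow_lt_pow_left₀ 2 (norm_nonneg _) h2

theorem mob_neg {w z : ℂ} (hw : ‖w‖ < 1) (hz : ‖z‖ < 1) : mob (-w) (mob w z) = z := by
  have h0 := mob_den hw hz.le
  have h1 : (1 : ℂ) - conj w * w ≠ 0 := mob_den hw hw.le
  have h2 : (1 : ℂ) - conj (-w) * mob w z ≠ 0 :=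
    mob_den (by rw [norm_neg]; exact hw) (mob_lt hw hz).le
  unfold mob at h2 ⊢
  rw [div_eq_iff h2, map_neg]
  obtain ⟨D, hD⟩ : ∃ D : ℂ, D = 1 - conj w * z := ⟨_, rfl⟩
  rw [← hD] at h0 h2 ⊢
  have e1 : (z - w) / D - -w = (z - w + w * D) / D := by field_simp; ring
  have e2 : z * (1 - -conj w * ((z - w) / D)) = z * (D + conj w * (z - w)) / D := by
    field_simp
    ring
  rw [e1, e2, hD]
  congr 1
  ring

/-- the invariant form of the Schwarz lemma -/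
theorem pick {F : ℂ → ℂ} (hf : DifferentiableOn ℂ F (Metric.ball 0 1))
    (hm : ∀ z : ℂ, ‖z‖ < 1 → ‖F z‖ < 1) {z w : ℂ} (hz : ‖z‖ < 1) (hw : ‖w‖ < 1) :
    ‖mob (F w) (F z)‖ ≤ ‖mob w z‖ := by
  have hB : ∀ ζ ∈ Metric.ball (0 : ℂ) 1, ‖ζ‖ < 1 := by
    intro ζ hζ
    rwa [mem_ball_zero_iff] at hζ
  have hB' : ∀ ζ : ℂ, ‖ζ‖ < 1 → ζ ∈ Metric.ball (0 : ℂ) 1 := by
    intro ζ hζ
    rwa [mem_ball_zero_iff]
  have hw' : ‖-w‖ < 1 := by rw [norm_neg]; exact hw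
  have h1 : DifferentiableOn ℂ (fun ζ => mob (F w) (F (mob (-w) ζ))) (Metric.ball 0 1) := by
    intro ζ hζ
    have hζ' := hB ζ hζ
    have a1 : DifferentiableWithinAt ℂ (mob (-w)) (Metric.ball 0 1) ζ := by
      unfold mob
      apply DifferentiableWithinAt.div
      · fun_prop
      · fun_prop
      · exact mob_den hw' hζ'.le
    have a2 : DifferentiableWithinAt ℂ (fun ζ => F (mob (-w) ζ)) (Metric.ball 0 1) ζ := by
      have := (hf (mob (-w) ζ) (hB' _ (mob_lt hw' hζ'))).comp ζ a1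
        (fun y hy => hB' _ (mob_lt hw' (hB y hy)))
      exact this
    unfold mob
    apply DifferentiableWithinAt.div
    · exact a2.sub_const _
    · exact (a2.const_mul _).const_sub _
    · exact mob_den (hm _ hw) (hm _ (mob_lt hw' hζ')).le
  have h2 : Set.MapsTo (fun ζ => mob (F w) (F (mob (-w) ζ))) (Metric.ball 0 1)
      (Metric.closedBall 0 1) := by
    intro ζ hζ
    rw [mem_closedBall_zero_iff]
    exact (mob_lt (hm _ hw) (hm _ (mob_lt hw' (hB ζ hζ)))).le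
  have h3 : (fun ζ => mob (F w) (F (mob (-w) ζ))) 0 = 0 := by
    show mob (F w) (F (mob (-w) 0)) = 0
    unfold mob
    simp
  have h4 := Complex.norm_le_norm_of_mapsTo_ball h1 h2 h3 (mob_lt hw hz)
  have h5 : ‖mob (F w) (F (mob (-w) (mob w z)))‖ ≤ ‖mob w z‖ := h4
  rw [mob_neg hw hz] at h5
  exact h5

/-- automorphism of the closed disc, with its inverse -/
structure Aut (F G : ℂ → ℂ) : Prop where
  cF : ContinuousOn F (Metric.closedBall 0 1)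
  dF : DifferentiableOn ℂ F (Metric.ball 0 1)
  dG : DifferentiableOn ℂ G (Metric.ball 0 1)
  mF : ∀ z : ℂ, ‖z‖ < 1 → ‖F z‖ < 1
  mG : ∀ z : ℂ, ‖z‖ < 1 → ‖G z‖ < 1
  inj : ∀ z w : ℂ, ‖z‖ ≤ 1 → ‖w‖ ≤ 1 → F z = F w → z = w
  inv : ∀ z : ℂ, ‖z‖ < 1 → G (F z) = z

theorem Aut.iso {F G : ℂ → ℂ} (h : Aut F G) {z w : ℂ} (hz : ‖z‖ < 1) (hw : ‖w‖ < 1) :
    ‖mob (F w) (F z)‖ = ‖mob w z‖ := by
  apply le_antisymm (pick h.dF h.mF hz hw)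
  have := pick h.dG h.mG (h.mF z hz) (h.mF w hw)
  rwa [h.inv z hz, h.inv w hw] at this

noncomputable def tt (z w : ℂ) : ℝ := ‖z - w‖ ^ 2 / ((1 - ‖z‖ ^ 2) * (1 - ‖w‖ ^ 2))

theorem one_sub_pos {z : ℂ} (hz : ‖z‖ < 1) : 0 < 1 - ‖z‖ ^ 2 := by nlinarith [norm_nonneg z]

theorem tt_mob {z w : ℂ} (hz : ‖z‖ < 1) (hw : ‖w‖ < 1) :
    tt z w = ‖mob w z‖ ^ 2 / (1 - ‖mob w z‖ ^ 2) := by
  have h1 := one_sub_pos hz
  have h2 := one_sub_pos hw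
  have h3 : 0 < ‖1 - conj w * z‖ := norm_pos_iff.mpr (mob_den hw hz.le)
  have h4 := mob_sq (w := w) (z := z)
  have h5 : ‖mob w z‖ ^ 2 = ‖z - w‖ ^ 2 / ‖1 - conj w * z‖ ^ 2 := by
    unfold mob
    rw [norm_div, div_pow]
  obtain ⟨D, hD⟩ : ∃ D : ℝ, D = ‖1 - conj w * z‖ := ⟨_, rfl⟩
  rw [← hD] at h3 h4 h5
  have h6 : 1 - ‖mob w z‖ ^ 2 = ((1 - ‖w‖ ^ 2) * (1 - ‖z‖ ^ 2)) / D ^ 2 := by
    rw [h5, eq_div_iff (by positivity), sub_mul, div_mul_cancel₀ _ (by positivity)]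
    linarith
  unfold tt
  rw [h6, h5, div_div_div_cancel_right₀ (by positivity), mul_comm (1 - ‖w‖ ^ 2)]

theorem Aut.tt_eq {F G : ℂ → ℂ} (h : Aut F G) {z w : ℂ} (hz : ‖z‖ < 1) (hw : ‖w‖ < 1) :
    tt (F z) (F w) = tt z w := by
  rw [tt_mob hz hw, tt_mob (h.mF z hz) (h.mF w hw), h.iso hz hw]

theorem ph_tt {p p' q q' : ℂ} (hp : ‖p‖ < 1) (hp' : ‖p'‖ < 1) (hq : ‖q‖ < 1) (hq' : ‖q'‖ < 1) :
    ph p p' q q' = (Real.sqrt (tt p p' * tt q q' / (tt p q * tt p' q'))) ^ (5 / 48 : ℝ) *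
      (min 1 (Real.sqrt ((1 + tt p p') * (1 + tt q q') / (tt p q * tt p' q')))) ^
        (11 / 48 : ℝ) := by
  have a1 := one_sub_pos hp
  have a2 := one_sub_pos hp'
  have a3 := one_sub_pos hq
  have a4 := one_sub_pos hq'
  obtain ⟨PP, hPP⟩ : ∃ PP : ℝ, PP = (1 - ‖p‖ ^ 2) * (1 - ‖p'‖ ^ 2) * ((1 - ‖q‖ ^ 2) * (1 - ‖q'‖ ^ 2)) :=
    ⟨_, rfl⟩
  have PP0 : PP ≠ 0 := by rw [hPP]; positivity
  have eX : X4 p p' q q' ^ 2 = tt p p' * tt q q' * PP := by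
    unfold X4 tt
    rw [hPP]
    field_simp
  have eY : Y4 p p' q q' ^ 2 = tt p q * tt p' q' * PP := by
    unfold Y4 tt
    rw [hPP]
    field_simp
  have eZ : Z4 p p' q q' ^ 2 = (1 + tt p p') * (1 + tt q q') * PP := by
    unfold Z4 tt
    rw [mul_pow, mob_sq, mob_sq, hPP, norm_sub_rev p' p, norm_sub_rev q' q]
    field_simp
    ring
  have h1 : X4 p p' q q' / Y4 p p' q q' =
      Real.sqrt (tt p p' * tt q q' / (tt p q * tt p' q')) := by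
    rw [← mul_div_mul_right (tt p p' * tt q q') _ PP0, ← eX, ← eY, ← div_pow,
      Real.sqrt_sq (div_nonneg (X4_nonneg _ _ _ _) (Y4_nonneg _ _ _ _))]
  have h2 : Z4 p p' q q' / Y4 p p' q q' =
      Real.sqrt ((1 + tt p p') * (1 + tt q q') / (tt p q * tt p' q')) := by
    rw [← mul_div_mul_right ((1 + tt p p') * (1 + tt q q')) _ PP0, ← eZ, ← eY, ← div_pow,
      Real.sqrt_sq (div_nonneg (Z4_nonneg _ _ _ _) (Y4_nonneg _ _ _ _))]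
  unfold ph
  rw [h1, h2]

theorem Aut.ph_in {F G : ℂ → ℂ} (h : Aut F G) {p p' q q' : ℂ} (hp : ‖p‖ < 1) (hp' : ‖p'‖ < 1)
    (hq : ‖q‖ < 1) (hq' : ‖q'‖ < 1) : ph (F p) (F p') (F q) (F q') = ph p p' q q' := by
  rw [ph_tt hp hp' hq hq', ph_tt (h.mF _ hp) (h.mF _ hp') (h.mF _ hq) (h.mF _ hq'),
    h.tt_eq hp hp', h.tt_eq hq hq', h.tt_eq hp hq, h.tt_eq hp' hq']

open Filter Topology in
theorem ph_tendsto {ι : Type} {l : Filter ι} {u u' v v' : ι → ℂ} {p p' q q' : ℂ}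
    (hu : Tendsto u l (𝓝 p)) (hu' : Tendsto u' l (𝓝 p')) (hv : Tendsto v l (𝓝 q))
    (hv' : Tendsto v' l (𝓝 q')) (hY : Y4 p p' q q' ≠ 0) :
    Tendsto (fun i => ph (u i) (u' i) (v i) (v' i)) l (𝓝 (ph p p' q q')) := by
  have tX : Tendsto (fun i => X4 (u i) (u' i) (v i) (v' i)) l (𝓝 (X4 p p' q q')) :=
    ((hu.sub hu').norm).mul ((hv.sub hv').norm)
  have tY : Tendsto (fun i => Y4 (u i) (u' i) (v i) (v' i)) l (𝓝 (Y4 p p' q q')) :=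
    ((hu.sub hv).norm).mul ((hu'.sub hv').norm)
  have hc : Tendsto (fun i => conj (u i)) l (𝓝 (conj p)) :=
    (Complex.continuous_conj.tendsto p).comp hu
  have hc' : Tendsto (fun i => conj (v i)) l (𝓝 (conj q)) :=
    (Complex.continuous_conj.tendsto q).comp hv
  have tZ : Tendsto (fun i => Z4 (u i) (u' i) (v i) (v' i)) l (𝓝 (Z4 p p' q q')) :=
    ((tendsto_const_nhds.sub (hc.mul hu')).norm).mul ((tendsto_const_nhds.sub (hc'.mul hv')).norm)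
  unfold ph
  refine Tendsto.mul ?_ ?_
  · exact (tX.div tY hY).rpow_const (Or.inr (by norm_num))
  · exact (tendsto_const_nhds.min (tZ.div tY hY)).rpow_const (Or.inr (by norm_num))

open Filter Topology in
theorem Aut.ph_eq {F G : ℂ → ℂ} (h : Aut F G) {p p' q q' : ℂ} (hp : ‖p‖ ≤ 1) (hp' : ‖p'‖ ≤ 1)
    (hq : ‖q‖ ≤ 1) (hq' : ‖q'‖ ≤ 1) (h1 : p ≠ q) (h2 : p' ≠ q') :
    ph (F p) (F p') (F q) (F q') = ph p p' q q' := by
  -- approximation from the inside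
  have tz : ∀ z : ℂ, Tendsto (fun t : ℝ => (t : ℂ) * z) (𝓝[<] 1) (𝓝 z) := by
    intro z
    have h3 : Tendsto (fun t : ℝ => (t : ℂ) * z) (𝓝 1) (𝓝 (((1 : ℝ) : ℂ) * z)) :=
      (Complex.continuous_ofReal.mul continuous_const).tendsto 1
    rw [Complex.ofReal_one, one_mul] at h3
    exact h3.mono_left nhdsWithin_le_nhds
  have ev : ∀ᶠ t : ℝ in 𝓝[<] 1, 0 ≤ t ∧ t < 1 := by
    have h3 : ∀ᶠ t : ℝ in 𝓝[<] 1, 0 ≤ t := by
      have : Set.Ioi (0 : ℝ) ∈ 𝓝[<] (1 : ℝ) := nhdsWithin_le_nhds (Ioi_mem_nhds one_pos)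
      filter_upwards [this] with t ht using le_of_lt ht
    filter_upwards [h3, self_mem_nhdsWithin] with t ht1 ht2 using ⟨ht1, ht2⟩
  have lt1 : ∀ (z : ℂ), ‖z‖ ≤ 1 → ∀ t : ℝ, 0 ≤ t → t < 1 → ‖(t : ℂ) * z‖ < 1 := by
    intro z hz t h3 h4
    rw [norm_mul, Complex.norm_real, Real.norm_of_nonneg h3]
    nlinarith [norm_nonneg z]
  have tF : ∀ z : ℂ, ‖z‖ ≤ 1 → Tendsto (fun t : ℝ => F ((t : ℂ) * z)) (𝓝[<] 1) (𝓝 (F z)) := by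
    intro z hz
    have h3 := h.cF z (by rwa [mem_closedBall_zero_iff])
    refine h3.tendsto.comp (tendsto_nhdsWithin_iff.mpr ⟨tz z, ?_⟩)
    filter_upwards [ev] with t ht
    rw [mem_closedBall_zero_iff]
    exact (lt1 z hz t ht.1 ht.2).le
  have Y1 : Y4 p p' q q' ≠ 0 := by
    unfold Y4
    exact mul_ne_zero (norm_ne_zero_iff.mpr (sub_ne_zero.mpr h1))
      (norm_ne_zero_iff.mpr (sub_ne_zero.mpr h2))
  have Y2 : Y4 (F p) (F p') (F q) (F q') ≠ 0 := by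
    unfold Y4
    exact mul_ne_zero (norm_ne_zero_iff.mpr (sub_ne_zero.mpr (fun e => h1 (h.inj p q hp hq e))))
      (norm_ne_zero_iff.mpr (sub_ne_zero.mpr (fun e => h2 (h.inj p' q' hp' hq' e))))
  have t1 := ph_tendsto (tz p) (tz p') (tz q) (tz q') Y1
  have t2 := ph_tendsto (tF p hp) (tF p' hp') (tF q hq) (tF q' hq') Y2
  refine tendsto_nhds_unique (t2.congr' ?_) t1
  filter_upwards [ev] with t ht
  exact h.ph_in (lt1 p hp t ht.1 ht.2) (lt1 p' hp' t ht.1 ht.2) (lt1 q hq t ht.1 ht.2)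
    (lt1 q' hq' t ht.1 ht.2)

theorem Aut.Psi_eq {F G : ℂ → ℂ} (h : Aut F G) {k1 k2 : Set ℂ} (d1 : ∀ w ∈ k1, ‖w‖ ≤ 1)
    (d2 : ∀ w ∈ k2, ‖w‖ ≤ 1) (hd : Disjoint k1 k2) :
    Psi (F '' k1) (F '' k2) = Psi k1 k2 := by
  unfold Psi
  congr 1
  ext r
  constructor
  · rintro ⟨_, ⟨p, hp, rfl⟩, _, ⟨p', hp', rfl⟩, _, ⟨q, hq, rfl⟩, _, ⟨q', hq', rfl⟩, rfl⟩
    refine ⟨p, hp, p', hp', q, hq, q', hq', ?_⟩
    rw [h.ph_eq (d1 p hp) (d1 p' hp') (d2 q hq) (d2 q' hq')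
      (by rintro rfl; exact Set.disjoint_left.mp hd hp hq)
      (by rintro rfl; exact Set.disjoint_left.mp hd hp' hq')]
  · rintro ⟨p, hp, p', hp', q, hq, q', hq', rfl⟩
    refine ⟨F p, ⟨p, hp, rfl⟩, F p', ⟨p', hp', rfl⟩, F q, ⟨q, hq, rfl⟩, F q', ⟨q', hq', rfl⟩, ?_⟩
    rw [h.ph_eq (d1 p hp) (d1 p' hp') (d2 q hq) (d2 q' hq')
      (by rintro rfl; exact Set.disjoint_left.mp hd hp hq)
      (by rintro rfl; exact Set.disjoint_left.mp hd hp' hq')]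

end Pool.Agent.D0H49.CC
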