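import Pool.Agent.D0H49.CC.Two
import Pool.Agent.D0H49.CC.PsiC

/-!
Smooth Jordan domains: the connection probability of two continua is, up to constants, a
conformally invariant function of the two continua.
-/

set_option autoImplicit false
set_option maxHeartbeats 1000000
set_option linter.unusedVariables false

namespace Pool.Agent.D0H49.CC
open Finset H974 Pool.Agent.H160R2.CV H362P
open Pool.Agent.H160R2.CV.Quad
open H973 (ES mem_ES EV BX mem_BX)
open TH976 (sd sd_self sd_comm sd_tri sd_pos fkg incr_and pr_edge EH cx norm_cx)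
open Pool.Agent.D0H95.KP
open Y989.SD (SmW disc cir pos TD Win btT XT HT VT Blk QB mem_QB emb nu ip)

/-- the preimage of a set in the closed disc -/
def pl (f : ℂ → ℂ) (K : Set ℂ) : Set ℂ := {z | ‖z‖ ≤ 1 ∧ f z ∈ K}

theorem cont_f {f g : ℂ → ℂ} {M α : ℝ} (hf : SmW f g M α) : ContinuousOn f disc := by
  obtain ⟨l, H, hl, hH, hlip, -, -, -, hint⟩ := Y989.SD.m_GA f g M α hf
  rw [Metric.continuousOn_iff]
  intro b hb e he
  refine ⟨e / H, by positivity, fun a ha hab => ?_⟩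
  rw [dist_eq_norm] at hab ⊢
  rw [lt_div_iff₀ hH] at hab
  have := (hlip a ha b hb).2
  linarith

theorem inv_mem {f : ℂ → ℂ} {x : ℂ} (hx : x ∈ f '' disc) :
    ‖Function.invFunOn f disc x‖ ≤ 1 ∧ f (Function.invFunOn f disc x) = x :=
  ⟨mem_disc'.mp (Function.invFunOn_mem hx), Function.invFunOn_eq hx⟩

theorem inv_left {f g : ℂ → ℂ} {M α : ℝ} (hf : SmW f g M α) {z : ℂ} (hz : ‖z‖ ≤ 1) :
    Function.invFunOn f disc (f z) = z := by
  have h := inv_mem (f := f) (x := f z) ⟨z, mem_disc'.mpr hz, rfl⟩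
  exact hf.inj (mem_disc'.mpr h.1) (mem_disc'.mpr hz) h.2

/-- the inverse of the parametrization is continuous -/
theorem cont_inv {f g : ℂ → ℂ} {M α : ℝ} (hf : SmW f g M α) :
    ContinuousOn (Function.invFunOn f disc) (f '' disc) := by
  obtain ⟨l, H, hl, hH, hlip, -, -, -, hint⟩ := Y989.SD.m_GA f g M α hf
  rw [Metric.continuousOn_iff]
  intro b hb e he
  refine ⟨l * e, by positivity, fun a ha hab => ?_⟩
  rw [dist_eq_norm] at hab ⊢
  have h1 := inv_mem ha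
  have h2 := inv_mem hb
  have := (hlip _ (mem_disc'.mpr h1.1) _ (mem_disc'.mpr h2.1)).1
  rw [h1.2, h2.2] at this
  have h3 : l * ‖Function.invFunOn f disc a - Function.invFunOn f disc b‖ < l * e := by linarith
  exact lt_of_mul_lt_mul_left h3 hl.le

theorem pl_eq {f g : ℂ → ℂ} {M α : ℝ} (hf : SmW f g M α) {K : Set ℂ} (hK : K ⊆ f '' disc) :
    pl f K = Function.invFunOn f disc '' K := by
  ext z
  constructor
  · rintro ⟨h1, h2⟩
    exact ⟨f z, h2, inv_left hf h1⟩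
  · rintro ⟨x, hx, rfl⟩
    have h1 := inv_mem (hK hx)
    exact ⟨h1.1, by rw [h1.2]; exact hx⟩

theorem pl_compact {f g : ℂ → ℂ} {M α : ℝ} (hf : SmW f g M α) {K : Set ℂ} (hK : K ⊆ f '' disc)
    (h : IsCompact K) : IsCompact (pl f K) := by
  rw [pl_eq hf hK]
  exact h.image_of_continuousOn ((cont_inv hf).mono hK)

theorem pl_conn {f g : ℂ → ℂ} {M α : ℝ} (hf : SmW f g M α) {K : Set ℂ} (hK : K ⊆ f '' disc)
    (h : IsConnected K) : IsConnected (pl f K) := by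
  rw [pl_eq hf hK]
  exact h.image _ ((cont_inv hf).mono hK)

theorem pl_disj {f : ℂ → ℂ} {K L : Set ℂ} (h : Disjoint K L) : Disjoint (pl f K) (pl f L) := by
  rw [Set.disjoint_left]
  rintro z ⟨-, h1⟩ ⟨-, h2⟩
  exact Set.disjoint_left.mp h h1 h2

/-- **The connection probability of two continua.** -/
theorem main_est {f g : ℂ → ℂ} {Mf α : ℝ} (hf : SmW f g Mf α) :
    ∃ c C ε0 : ℝ, 0 < c ∧ 0 < C ∧ 0 < ε0 ∧ ∀ ε : ℝ, 0 < ε → ε ≤ ε0 →
      (∀ v : Vtx, v ∈ TD f ε ↔ pos ε v ∈ f '' disc) ∧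
      ∀ K L : Set ℂ, IsCompact K → IsConnected K → K ⊆ f '' disc → IsCompact L →
      IsConnected L → L ⊆ f '' disc → Disjoint K L → (∃ x ∈ K, ∃ y ∈ K, ε ≤ dist x y) →
      (∃ x ∈ L, ∃ y ∈ L, ε ≤ dist x y) →
      c * Psi (pl f K) (pl f L) ≤
        Pr P (ES (TD f ε)) (CnS (Nr f ε (pl f K)) (Nr f ε (pl f L))) ∧
      Pr P (ES (TD f ε)) (CnS (Nr f ε (pl f K)) (Nr f ε (pl f L))) ≤
        C * Psi (pl f K) (pl f L) := by
  obtain ⟨c, ε1, hc, hε1, hlow⟩ := two_low hf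
  obtain ⟨Λ, C, ε2, hΛ, hC, hε2, hlip, hup⟩ := two_up hf
  obtain ⟨ρ, B, ε3, hρ, hε3, hGD⟩ := Y989.SD.m_GD f g Mf α hf
  refine ⟨c / 10368, 3 * C, min ε1 (min ε2 ε3), by positivity, by positivity, by positivity, ?_⟩
  intro ε hε hεε
  have i1 : ε ≤ ε1 := hεε.trans (min_le_left _ _)
  have i2 : ε ≤ ε2 := hεε.trans ((min_le_right _ _).trans (min_le_left _ _))
  have i3 : ε ≤ ε3 := hεε.trans ((min_le_right _ _).trans (min_le_right _ _))
  refine ⟨(hGD ε hε i3).1, ?_⟩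
  intro K L hK hKc hKs hL hLc hLs hd hK2 hL2
  have hkd1 : ∀ w ∈ pl f K, ‖w‖ ≤ 1 := fun w hw => hw.1
  have hkd2 : ∀ w ∈ pl f L, ‖w‖ ≤ 1 := fun w hw => hw.1
  have hdiam : ∀ (S : Set ℂ), S ⊆ f '' disc → (∃ x ∈ S, ∃ y ∈ S, ε ≤ dist x y) → ∀ (w : ℂ) (r : ℝ),
      (∀ p ∈ pl f S, ‖p - w‖ ≤ r) → ε ≤ Λ * r := by
    rintro S hS ⟨x, hx, y, hy, hxy⟩ w r hr
    obtain ⟨a, ha, rfl⟩ := hS hx
    obtain ⟨b, hb, rfl⟩ := hS hy
    have h1 := hr a ⟨mem_disc'.mp ha, hx⟩
    have h2 := hr b ⟨mem_disc'.mp hb, hy⟩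
    have h3 := hlip a ha b hb
    rw [dist_eq_norm] at hxy
    have h4 : ‖a - b‖ ≤ 2 * r := by
      have e : a - b = (a - w) - (b - w) := by ring
      rw [e]
      exact (norm_sub_le _ _).trans (by linarith)
    have h5 := mul_le_mul_of_nonneg_left h4 hΛ.le
    linarith
  obtain ⟨w1, hw1, p1, hp1, w2, hw2, p2, hp2, hne, e1, e2, e3, e4, e5⟩ :=
    Psi_cmp (pl_compact hf hKs hK) (pl_compact hf hLs hL) (pl_conn hf hKs hKc)
      (pl_conn hf hLs hLc) hkd1 hkd2 (pl_disj hd)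
  have low := hlow ε hε i1 (pl f K) (pl f L) (pl_conn hf hKs hKc).isPreconnected
    (pl_conn hf hLs hLc).isPreconnected hkd1 hkd2 w1 hw1 p1 hp1 w2 hw2 p2 hp2 hne
  have up := hup ε hε i2 (pl f K) (pl f L) hkd1 hkd2 w1 hw1 w2 hw2 hne e1 _ _ e2 e3
    (hdiam K hKs hK2 w1 _ e2) (hdiam L hLs hL2 w2 _ e3)
  constructor
  · refine le_trans ?_ low
    rw [div_mul_eq_mul_div, div_le_iff₀ (by norm_num)]
    have := mul_le_mul_of_nonneg_left e5 hc.le
    linarith
  · refine up.trans ?_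
    have := mul_le_mul_of_nonneg_left e4 hC.le
    linarith

/-! ### Conformal homeomorphisms -/

/-- boundary points are not interior points -/
theorem bd_not_int {f g : ℂ → ℂ} {M α : ℝ} (hf : SmW f g M α) {w : ℂ} (hw : ‖w‖ = 1) :
    f w ∉ interior (f '' disc) := by
  intro hcon
  obtain ⟨ρ, C, hρ, hC, hGB⟩ := Y989.SD.m_GB f g M α hf
  have hα := hf.al0
  rw [mem_interior_iff_mem_nhds, Metric.mem_nhds_iff] at hcon
  obtain ⟨δ, hδ, hball⟩ := hcon
  have g0 : g w ≠ 0 := hf.ne w (mem_disc'.mpr hw.le)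
  have gp : 0 < ‖g w‖ := norm_pos_iff.mpr g0
  have hnu : ‖nu g w‖ = 1 := by
    unfold nu
    rw [norm_div, norm_neg, norm_mul, hw, one_mul, Complex.norm_real, norm_norm, div_self gp.ne']
  obtain ⟨t, ht0, ht1, ht2, ht3⟩ : ∃ t : ℝ, 0 < t ∧ t ≤ ρ ∧ t < δ ∧ C * t ^ α < 1 := by
    obtain ⟨x, hx⟩ : ∃ x : ℝ, x = (1 / (2 * C)) ^ (1 / α) := ⟨_, rfl⟩
    have x0 : 0 < x := by rw [hx]; positivity
    refine ⟨min ρ (min (δ / 2) x), by positivity, min_le_left _ _, ?_, ?_⟩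
    · have : min ρ (min (δ / 2) x) ≤ δ / 2 := (min_le_right _ _).trans (min_le_left _ _)
      linarith
    · have h1 : min ρ (min (δ / 2) x) ≤ x := (min_le_right _ _).trans (min_le_right _ _)
      have h2 : (min ρ (min (δ / 2) x)) ^ α ≤ x ^ α :=
        Real.rpow_le_rpow (by positivity) h1 hα.le
      have h3 : x ^ α = 1 / (2 * C) := by
        rw [hx, ← Real.rpow_mul (by positivity), one_div_mul_cancel hα.ne', Real.rpow_one]
      rw [h3] at h2
      have h4 := mul_le_mul_of_nonneg_left h2 hC.le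
      have h5 : C * (1 / (2 * C)) = 1 / 2 := by field_simp
      linarith
  have hz : f w + ((-t : ℝ) : ℂ) * nu g w ∈ f '' disc := by
    apply hball
    rw [Metric.mem_ball, dist_eq_norm, add_sub_cancel_left, norm_mul, Complex.norm_real,
      Real.norm_eq_abs, abs_neg, abs_of_pos ht0, hnu, mul_one]
    exact ht2
  have hn : ‖f w + ((-t : ℝ) : ℂ) * nu g w - f w‖ = t := by
    rw [add_sub_cancel_left, norm_mul, Complex.norm_real, Real.norm_eq_abs, abs_neg,
      abs_of_pos ht0, hnu, mul_one]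
  have h1 := (hGB w hw (f w + ((-t : ℝ) : ℂ) * nu g w) (by rw [hn]; exact ht1)).1 hz
  rw [hn, add_sub_cancel_left, ip_smul, ip_self, hnu, Real.rpow_add ht0, Real.rpow_one] at h1
  have h2 : C * (t * t ^ α) < t := by
    calc C * (t * t ^ α) = t * (C * t ^ α) := by ring
      _ < t * 1 := mul_lt_mul_of_pos_left ht3 ht0
      _ = t := mul_one t
  linarith

theorem int_mem {f g : ℂ → ℂ} {M α : ℝ} (hf : SmW f g M α) {x : ℂ}
    (hx : x ∈ interior (f '' disc)) : ‖Function.invFunOn f disc x‖ < 1 := by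
  have h := inv_mem (interior_subset hx)
  rcases lt_or_eq_of_le h.1 with h1 | h1
  · exact h1
  · exfalso
    have := bd_not_int hf h1
    rw [h.2] at this
    exact this hx

theorem mem_int {f g : ℂ → ℂ} {M α : ℝ} (hf : SmW f g M α) {z : ℂ} (hz : ‖z‖ < 1) :
    f z ∈ interior (f '' disc) := by
  obtain ⟨l, H, hl, hH, hlip, -, -, -, hint⟩ := Y989.SD.m_GA f g M α hf
  exact hint z hz

theorem hasDeriv {f g : ℂ → ℂ} {M α : ℝ} (hf : SmW f g M α) {z : ℂ} (hz : ‖z‖ < 1) :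
    HasDerivAt f (g z) z := by
  rw [hasDerivAt_iff_isLittleO]
  have hα := hf.al0
  have h1 : (fun w => f w - f z - (w - z) • g z) =O[nhds z] fun w => ‖w - z‖ ^ (1 + α) := by
    apply Asymptotics.IsBigO.of_bound M
    have : Metric.ball (0 : ℂ) 1 ∈ nhds z := Metric.isOpen_ball.mem_nhds (by
      rw [Metric.mem_ball, dist_zero_right]; exact hz)
    filter_upwards [this] with w hw
    rw [Metric.mem_ball, dist_zero_right] at hw
    have h2 := hf.exp w (mem_disc'.mpr hw.le) z (mem_disc'.mpr hz.le)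
    rw [Real.norm_of_nonneg (by positivity), smul_eq_mul, mul_comm (w - z)]
    exact h2
  refine h1.trans_isLittleO ?_
  rw [Asymptotics.isLittleO_iff]
  intro c hc
  have h3 : Filter.Tendsto (fun w : ℂ => ‖w - z‖ ^ α) (nhds z) (nhds 0) := by
    have h4 : Filter.Tendsto (fun w : ℂ => ‖w - z‖) (nhds z) (nhds 0) := by
      have := (continuous_id.sub continuous_const : Continuous fun w : ℂ => w - z).norm.tendsto z
      simpa using this
    have h5 := h4.rpow_const (p := α) (Or.inr hα.le)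
    rwa [Real.zero_rpow hα.ne'] at h5
  have h6 : ∀ᶠ w in nhds z, ‖w - z‖ ^ α < c := h3.eventually (gt_mem_nhds hc)
  filter_upwards [h6] with w hw
  rw [Real.norm_of_nonneg (by positivity)]
  rcases eq_or_ne ‖w - z‖ 0 with h7 | h7
  · rw [h7, Real.zero_rpow (by linarith)]
    simp
  · have h8 : 0 < ‖w - z‖ := lt_of_le_of_ne (norm_nonneg _) (Ne.symm h7)
    rw [Real.rpow_add h8, Real.rpow_one]
    nlinarith

/-- the inverse of the parametrization is holomorphic -/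
theorem diff_inv {f g : ℂ → ℂ} {M α : ℝ} (hf : SmW f g M α) {x : ℂ}
    (hx : x ∈ interior (f '' disc)) : DifferentiableAt ℂ (Function.invFunOn f disc) x := by
  have h1 := int_mem hf hx
  have h2 := hasDeriv hf h1
  have h3 : ∀ᶠ y in nhds x, f (Function.invFunOn f disc y) = y := by
    filter_upwards [mem_interior_iff_mem_nhds.mp hx] with y hy
    exact (inv_mem hy).2
  have h4 : ContinuousAt (Function.invFunOn f disc) x :=
    (cont_inv hf).continuousAt (mem_interior_iff_mem_nhds.mp hx)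
  exact (HasDerivAt.of_local_left_inverse h4 h2 (hf.ne _ (mem_disc'.mpr h1.le)) h3).differentiableAt

/-- `φ` is a homeomorphism of `D` onto `D'` whose restriction to the interior is conformal -/
def CH (D D' : Set ℂ) (φ : ℂ → ℂ) : Prop :=
  ContinuousOn φ D ∧ DifferentiableOn ℂ φ (interior D) ∧ Set.MapsTo φ D D' ∧
    Set.MapsTo φ (interior D) (interior D') ∧
    ∃ ψ : ℂ → ℂ, ContinuousOn ψ D' ∧ DifferentiableOn ℂ ψ (interior D') ∧ Set.MapsTo ψ D' D ∧
      Set.MapsTo ψ (interior D') (interior D) ∧ (∀ z ∈ D, ψ (φ z) = z) ∧ ∀ w ∈ D', φ (ψ w) = w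

theorem aut_of {f g h k : ℂ → ℂ} {M α M' α' : ℝ} (hf : SmW f g M α) (hh : SmW h k M' α')
    {φ : ℂ → ℂ} (hφ : CH (f '' disc) (h '' disc) φ) :
    ∃ F G : ℂ → ℂ, Aut F G ∧ ∀ z : ℂ, ‖z‖ ≤ 1 → ‖F z‖ ≤ 1 ∧ h (F z) = φ (f z) := by
  obtain ⟨c1, d1, m1, n1, ψ, c2, d2, m2, n2, i1, i2⟩ := hφ
  have hD : ∀ z : ℂ, ‖z‖ ≤ 1 → f z ∈ f '' disc := fun z hz => ⟨z, mem_disc'.mpr hz, rfl⟩
  have hD' : ∀ z : ℂ, ‖z‖ ≤ 1 → h z ∈ h '' disc := fun z hz => ⟨z, mem_disc'.mpr hz, rfl⟩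
  have key : ∀ z : ℂ, ‖z‖ ≤ 1 → ‖Function.invFunOn h disc (φ (f z))‖ ≤ 1 ∧
      h (Function.invFunOn h disc (φ (f z))) = φ (f z) := fun z hz => inv_mem (m1 (hD z hz))
  refine ⟨fun z => Function.invFunOn h disc (φ (f z)), fun z => Function.invFunOn f disc (ψ (h z)),
    ⟨?_, ?_, ?_, ?_, ?_, ?_, ?_⟩, key⟩
  · have e1 : ContinuousOn (fun z => φ (f z)) disc :=
      c1.comp (cont_f hf) (fun z hz => ⟨z, hz, rfl⟩)
    exact (cont_inv hh).comp e1 (fun z hz => m1 ⟨z, hz, rfl⟩)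
  · intro z hz
    have hz' : ‖z‖ < 1 := by rwa [mem_ball_zero_iff] at hz
    have e1 : DifferentiableAt ℂ f z := (hasDeriv hf hz').differentiableAt
    have e2 : DifferentiableAt ℂ φ (f z) :=
      d1.differentiableAt (isOpen_interior.mem_nhds (mem_int hf hz'))
    have e3 : DifferentiableAt ℂ (Function.invFunOn h disc) (φ (f z)) :=
      diff_inv hh (n1 (mem_int hf hz'))
    have e4 : DifferentiableAt ℂ (fun z => φ (f z)) z := e2.comp z e1
    exact (DifferentiableAt.comp z e3 e4).differentiableWithinAt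
  · intro z hz
    have hz' : ‖z‖ < 1 := by rwa [mem_ball_zero_iff] at hz
    have e1 : DifferentiableAt ℂ h z := (hasDeriv hh hz').differentiableAt
    have e2 : DifferentiableAt ℂ ψ (h z) :=
      d2.differentiableAt (isOpen_interior.mem_nhds (mem_int hh hz'))
    have e3 : DifferentiableAt ℂ (Function.invFunOn f disc) (ψ (h z)) :=
      diff_inv hf (n2 (mem_int hh hz'))
    have e4 : DifferentiableAt ℂ (fun z => ψ (h z)) z := e2.comp z e1
    exact (DifferentiableAt.comp z e3 e4).differentiableWithinAt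
  · intro z hz
    exact int_mem hh (n1 (mem_int hf hz))
  · intro z hz
    exact int_mem hf (n2 (mem_int hh hz))
  · intro z w hz hw he
    change Function.invFunOn h disc (φ (f z)) = Function.invFunOn h disc (φ (f w)) at he
    have e1 : φ (f z) = φ (f w) := by rw [← (key z hz).2, ← (key w hw).2, he]
    have e2 : f z = f w := by rw [← i1 _ (hD z hz), ← i1 _ (hD w hw), e1]
    exact hf.inj (mem_disc'.mpr hz) (mem_disc'.mpr hw) e2
  · intro z hz
    show Function.invFunOn f disc (ψ (h (Function.invFunOn h disc (φ (f z))))) = z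
    rw [(key z hz.le).2, i1 _ (hD z hz.le), inv_left hf hz.le]

theorem pl_image {f g h k : ℂ → ℂ} {M α M' α' : ℝ} (hf : SmW f g M α) (hh : SmW h k M' α')
    {φ F : ℂ → ℂ} (hF : ∀ z : ℂ, ‖z‖ ≤ 1 → ‖F z‖ ≤ 1 ∧ h (F z) = φ (f z)) {K : Set ℂ}
    (hK : K ⊆ f '' disc) : F '' (pl f K) = pl h (φ '' K) := by
  ext z
  constructor
  · rintro ⟨w, ⟨hw, hwK⟩, rfl⟩
    obtain ⟨h1, h2⟩ := hF w hw
    exact ⟨h1, by rw [h2]; exact ⟨f w, hwK, rfl⟩⟩
  · rintro ⟨hz, x, hx, hzx⟩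
    obtain ⟨w, hw, rfl⟩ := hK hx
    obtain ⟨h1, h2⟩ := hF w (mem_disc'.mp hw)
    refine ⟨w, ⟨mem_disc'.mp hw, hx⟩, ?_⟩
    apply hh.inj (mem_disc'.mpr h1) (mem_disc'.mpr hz)
    rw [h2, hzx]

/-- conformal invariance of the four point supremum -/
theorem Psi_inv {f g h k : ℂ → ℂ} {M α M' α' : ℝ} (hf : SmW f g M α) (hh : SmW h k M' α')
    {φ : ℂ → ℂ} (hφ : CH (f '' disc) (h '' disc) φ) {K L : Set ℂ} (hK : K ⊆ f '' disc)
    (hL : L ⊆ f '' disc) (hd : Disjoint K L) :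
    Psi (pl h (φ '' K)) (pl h (φ '' L)) = Psi (pl f K) (pl f L) := by
  obtain ⟨F, G, hA, hF⟩ := aut_of hf hh hφ
  rw [← pl_image hf hh hF hK, ← pl_image hf hh hF hL]
  exact hA.Psi_eq (fun w hw => hw.1) (fun w hw => hw.1) (pl_disj hd)

end Pool.Agent.D0H49.CC
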