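import Pool.Agent.D0H49.CC.Cmp

/-!
Smooth Jordan domains: the connection probability of two continua.
-/

set_option autoImplicit false
set_option maxHeartbeats 1000000
set_option linter.unusedVariables false

namespace Pool.Agent.D0H49.CC
open Finset H974 Pool.Agent.H160R2.CV H362P
open Pool.Agent.H160R2.CV.Quad
open H973 (ES mem_ES EV BX mem_BX)
open TH976 (sd sd_self sd_comm sd_tri sd_pos fkg incr_and pr_edge EH cx norm_cx)
open Pool.Agent.D0H95.KP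
open Y989.SD (SmW disc cir pos TD Win btT XT HT VT Blk QB mem_QB emb nu ip)

theorem exists_J (x : ℕ) : ∃ J : ℕ, x ≤ 3 ^ J := ⟨x, (Nat.lt_pow_self (by norm_num)).le⟩

/-- **Lower bound.** -/
theorem two_low {f g : ℂ → ℂ} {Mf α : ℝ} (hf : SmW f g Mf α) :
    ∃ c ε1 : ℝ, 0 < c ∧ 0 < ε1 ∧ ∀ ε : ℝ, 0 < ε → ε ≤ ε1 → ∀ k1 k2 : Set ℂ,
      IsPreconnected k1 → IsPreconnected k2 → (∀ w ∈ k1, ‖w‖ ≤ 1) → (∀ w ∈ k2, ‖w‖ ≤ 1) →
      ∀ w1 ∈ k1, ∀ p1 ∈ k1, ∀ w2 ∈ k2, ∀ p2 ∈ k2, w1 ≠ w2 →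
      c * (fa ‖w1 - w2‖ (1 - ‖w1‖) ‖p1 - w1‖ * fa ‖w1 - w2‖ (1 - ‖w2‖) ‖p2 - w2‖) ≤
        Pr P (ES (TD f ε)) (CnS (Nr f ε k1) (Nr f ε k2)) := by
  obtain ⟨M, κ, ε1, η, κ0, κ1, hε1, hη, hdom⟩ := domB_TD hf
  obtain ⟨l, H, ε2, hl, hH, hε2, hlip, hdd⟩ := dd_bounds hf
  obtain ⟨ε3, hε3, hlat⟩ := lat_conn hf
  obtain ⟨J, hJ⟩ := exists_J (12 * (455 * 455 * M))
  obtain ⟨q, hq⟩ : ∃ q : ℝ, q = min (l / 2) (min H (η / 2)) / (2 * (455 : ℕ) + 2) := ⟨_, rfl⟩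
  obtain ⟨c, hc⟩ : ∃ c : ℝ, c = min 1 (min q (l / 4)) / (H + 5) := ⟨_, rfl⟩
  have q0 : 0 < q := by rw [hq]; positivity
  have c0 : 0 < c := by rw [hc]; positivity
  obtain ⟨kk, hkk⟩ : ∃ kk : ℝ, kk = (3 : ℝ) ^ (J + 1) := ⟨_, rfl⟩
  have kk0 : 0 < kk := by rw [hkk]; positivity
  refine ⟨κ ^ 7 * c ^ 2 / kk ^ 2, min ε1 (min ε2 ε3), by positivity, by positivity, ?_⟩
  intro ε hε hεε k1 k2 hk1 hk2 hkd1 hkd2 w1 hw1 p1 hp1 w2 hw2 p2 hp2 hne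
  have i1 : ε ≤ ε1 := hεε.trans (min_le_left _ _)
  have i2 : ε ≤ ε2 := hεε.trans ((min_le_right _ _).trans (min_le_left _ _))
  have i3 : ε ≤ ε3 := hεε.trans ((min_le_right _ _).trans (min_le_right _ _))
  obtain ⟨N, hN, hD, hB, -⟩ := hdom ε hε i1
  obtain ⟨c1, hc1, hc1', hc1''⟩ := hlat ε hε i3 k1 hk1 hkd1 w1 hw1
  obtain ⟨c2, hc2, hc2', hc2''⟩ := hlat ε hε i3 k2 hk2 hkd2 w2 hw2
  obtain ⟨d1, hd1, hd1', hr1⟩ := hc1'' p1 hp1
  obtain ⟨d2, hd2, hd2', hr2⟩ := hc2'' p2 hp2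
  have e1 := hdd ε hε i2 c1 hc1.1 w1 (hkd1 w1 hw1) hc1'
  have e2 := hdd ε hε i2 c2 hc2.1 w2 (hkd2 w2 hw2) hc2'
  have hkk' : (0 : ℝ) < dd (TD f ε) c1 := by exact_mod_cast dd_pos hc1.1
  obtain ⟨T, hT⟩ : ∃ T : Finset Vtx, T = TD f ε := ⟨_, rfl⟩
  rw [← hT] at hD hB hr1 hr2 e1 e2 ⊢
  have c1T : c1 ∈ T := by rw [hT]; exact hc1.1
  have c2T : c2 ∈ T := by rw [hT]; exact hc2.1
  have d1T : d1 ∈ T := by rw [hT]; exact hd1.1
  have d2T : d2 ∈ T := by rw [hT]; exact hd2.1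
  have b1 : (1 : ℝ) ≤ dd T c1 := by exact_mod_cast dd_pos c1T
  have b2 : (1 : ℝ) ≤ dd T c2 := by exact_mod_cast dd_pos c2T
  obtain ⟨a, ha⟩ : ∃ a : ℝ, a = ‖w1 - w2‖ := ⟨_, rfl⟩
  have a0 : 0 < a := by rw [ha]; exact norm_pos_iff.mpr (sub_ne_zero.mpr hne)
  have a2 : a ≤ 2 := by
    rw [ha]
    have := norm_sub_le w1 w2
    have := hkd1 w1 hw1
    have := hkd2 w2 hw2
    linarith
  have w1d : w1 ∈ disc := mem_disc'.mpr (hkd1 w1 hw1)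
  have w2d : w2 ∈ disc := mem_disc'.mpr (hkd2 w2 hw2)
  have p1d : p1 ∈ disc := mem_disc'.mpr (hkd1 p1 hp1)
  have p2d : p2 ∈ disc := mem_disc'.mpr (hkd2 p2 hp2)
  obtain ⟨A, hA⟩ : ∃ A : ℕ, A = ⌈H * a / ε⌉₊ + 4 := ⟨_, rfl⟩
  have hA1 : H * a / ε ≤ A := by
    rw [hA]; push_cast
    linarith [Nat.le_ceil (H * a / ε)]
  have hA2 : (A : ℝ) ≤ H * a / ε + 5 := by
    rw [hA]; push_cast
    linarith [Nat.ceil_lt_add_one (show 0 ≤ H * a / ε by positivity)]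
  have hA3 : 1 ≤ A := by omega
  -- distances of vertices
  have hsd : sd c1 c2 ≤ A := by
    have h1 := (norm_pos hε c1 c2).1
    have h2 : ‖pos ε c1 - pos ε c2‖ ≤ H * a + 4 * ε := by
      have h3 : pos ε c1 - pos ε c2 = (pos ε c1 - f w1) + (f w1 - f w2) +
          -(pos ε c2 - f w2) := by ring
      rw [h3]
      refine norm_add₃_le.trans ?_
      rw [norm_neg]
      have := (hlip w1 w1d w2 w2d).2
      rw [← ha] at this
      linarith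
    have h3 : (sd c1 c2 : ℝ) ≤ H * a / ε + 4 := by
      rw [← sub_le_iff_le_add, le_div_iff₀ hε]
      nlinarith
    have h4 : (sd c1 c2 : ℝ) ≤ A := by
      rw [hA]; push_cast
      linarith [Nat.le_ceil (H * a / ε)]
    exact_mod_cast h4
  have hfar : ∀ (c d : Vtx) (w p : ℂ), w ∈ disc → p ∈ disc → ‖pos ε c - f w‖ ≤ 2 * ε →
      ‖pos ε d - f p‖ ≤ 2 * ε → ∀ n : ℕ, (n : ℝ) + 2 ≤ l * ‖p - w‖ / (2 * ε) → n ≤ sd d c := by
    intro c d w p hw hp h1 h2 n hn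
    have h3 := (norm_pos hε d c).2
    have h4 := (hlip p hp w hw).1
    have h5 : ‖f p - f w‖ ≤ 2 * ε + ‖pos ε d - pos ε c‖ + 2 * ε := by
      have h6 : f p - f w = -(pos ε d - f p) + (pos ε d - pos ε c) + (pos ε c - f w) := by ring
      rw [h6]
      refine norm_add₃_le.trans ?_
      rw [norm_neg]
      linarith
    rw [le_div_iff₀ (by positivity)] at hn
    have h6 : (n : ℝ) ≤ sd d c := by
      by_contra hcon
      push Not at hcon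
      nlinarith
    exact_mod_cast h6
  obtain ⟨R1, hR1a, hR1b, hR1c, hR1d⟩ := side_low (l := l) (H := H) (η := η) (ε := ε) (a := a)
    (s := 1 - ‖w1‖) (r := ‖p1 - w1‖) (d := dd T c1) (K := 455) (N := N) (A := A) hl hH hη hε a0 a2
    (norm_nonneg _) (by linarith [hkd1 w1 hw1]) (by norm_num) hN e1.1 b1 hA1 hA2 hA3 hq hc
  obtain ⟨R2, hR2a, hR2b, hR2c, hR2d⟩ := side_low (l := l) (H := H) (η := η) (ε := ε) (a := a)
    (s := 1 - ‖w2‖) (r := ‖p2 - w2‖) (d := dd T c2) (K := 455) (N := N) (A := A) hl hH hη hε a0 a2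
    (norm_nonneg _) (by linarith [hkd2 w2 hw2]) (by norm_num) hN e2.1 b2 hA1 hA2 hA3 hq hc
  have main := low_main hD hB hJ c1T c2T hc1 hc2 hsd hA3
    (S1 := Nr f ε k1) (S2 := Nr f ε k2) (R1 := R1) (R2 := R2)
    (by
      rcases Nat.eq_zero_or_pos R1 with h | h
      · exact Or.inl h
      · right
        refine ⟨hR1a, hR1b, d1, d1T, hd1, ?_, hr1⟩
        exact hfar c1 d1 w1 p1 w1d p1d hc1' hd1' _ (hR1c h.ne'))
    (by
      rcases Nat.eq_zero_or_pos R2 with h | h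
      · exact Or.inl h
      · right
        refine ⟨hR2a, hR2b, d2, d2T, hd2, ?_, hr2⟩
        exact hfar c2 d2 w2 p2 w2d p2d hc2' hd2' _ (hR2c h.ne'))
  rw [← ha]
  have f1 := fa_nonneg (a := a) (s := 1 - ‖w1‖) a0 (norm_nonneg (p1 - w1))
  have f2 := fa_nonneg (a := a) (s := 1 - ‖w2‖) a0 (norm_nonneg (p2 - w2))
  have g1 : 0 < eT T c1 (max R1 1) := eT_pos c1T (le_max_right _ _)
  have g2 : 0 < eT T c2 (max R2 1) := eT_pos c2T (le_max_right _ _)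
  have u1 : c * fa a (1 - ‖w1‖) ‖p1 - w1‖ * eT T c1 (max R1 1) ≤ eT T c1 A := hR1d
  have u2 : c * fa a (1 - ‖w2‖) ‖p2 - w2‖ * eT T c2 (max R2 1) ≤ eT T c2 A := hR2d
  rw [← hkk] at main
  generalize Pr P (ES T) (CnS (Nr f ε k1) (Nr f ε k2)) = Q at *
  generalize fa a (1 - ‖w1‖) ‖p1 - w1‖ = F1 at *
  generalize fa a (1 - ‖w2‖) ‖p2 - w2‖ = F2 at *
  generalize eT T c1 (max R1 1) = E1 at *
  generalize eT T c2 (max R2 1) = E2 at *
  have h1 : (κ ^ 7 * c ^ 2 * (F1 * F2)) * (E1 * E2) ≤ (kk ^ 2 * Q) * (E1 * E2) := by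
    calc (κ ^ 7 * c ^ 2 * (F1 * F2)) * (E1 * E2) = κ ^ 7 * ((c * F1 * E1) * (c * F2 * E2)) := by
          ring
      _ ≤ κ ^ 7 * (eT T c1 A * eT T c2 A) := by
          apply mul_le_mul_of_nonneg_left _ (by positivity)
          exact mul_le_mul u1 u2 (by positivity) (eT_pos c1T hA3).le
      _ ≤ kk ^ 2 * ((E1 * E2) * Q) := main
      _ = _ := by ring
  have h2 := le_of_mul_le_mul_right h1 (mul_pos g1 g2)
  rw [div_mul_eq_mul_div, div_le_iff₀ (by positivity)]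
  linarith

/-- **Upper bound.** -/
theorem two_up {f g : ℂ → ℂ} {Mf α : ℝ} (hf : SmW f g Mf α) :
    ∃ L C ε1 : ℝ, 0 < L ∧ 0 < C ∧ 0 < ε1 ∧
      (∀ z ∈ disc, ∀ w ∈ disc, 2 * ‖f z - f w‖ ≤ L * ‖z - w‖) ∧
      ∀ ε : ℝ, 0 < ε → ε ≤ ε1 → ∀ k1 k2 : Set ℂ,
      (∀ w ∈ k1, ‖w‖ ≤ 1) → (∀ w ∈ k2, ‖w‖ ≤ 1) → ∀ w1 ∈ k1, ∀ w2 ∈ k2, w1 ≠ w2 →
      (∀ p ∈ k1, ∀ q ∈ k2, ‖w1 - w2‖ ≤ ‖p - q‖) →
      ∀ r1 r2 : ℝ, (∀ p ∈ k1, ‖p - w1‖ ≤ r1) → (∀ q ∈ k2, ‖q - w2‖ ≤ r2) →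
      ε ≤ L * r1 → ε ≤ L * r2 →
      Pr P (ES (TD f ε)) (CnS (Nr f ε k1) (Nr f ε k2)) ≤
        C * (fa ‖w1 - w2‖ (1 - ‖w1‖) r1 * fa ‖w1 - w2‖ (1 - ‖w2‖) r2) := by
  obtain ⟨M, κ, ε1, η, κ0, κ1, hε1, hη, hdom⟩ := domB_TD hf
  obtain ⟨l, H, ε2, hl, hH, hε2, hlip, hdd⟩ := dd_bounds hf
  obtain ⟨ε3, hε3, hlat⟩ := lat_conn hf
  obtain ⟨J, hJ⟩ := exists_J (12 * (455 * 455 * M))
  obtain ⟨L, hL⟩ : ∃ L : ℝ, L = 2 * H := ⟨_, rfl⟩
  have L0 : 0 < L := by rw [hL]; positivity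
  obtain ⟨C, hC⟩ : ∃ C : ℝ, C = (16 * H + 88 * L) / l + 6 := ⟨_, rfl⟩
  have C0 : 0 < C := by rw [hC]; positivity
  obtain ⟨kk, hkk⟩ : ∃ kk : ℝ, kk = (3 : ℝ) ^ (J + 1) := ⟨_, rfl⟩
  have kk0 : 0 < kk := by rw [hkk]; positivity
  obtain ⟨c, hc⟩ : ∃ c : ℝ, c = min 1 (l / (8 * L)) := ⟨_, rfl⟩
  have c0 : 0 < c := by rw [hc]; positivity
  have c1' : c ≤ 1 := by rw [hc]; exact min_le_left _ _
  refine ⟨L, max (1 / c ^ 2) (kk ^ 4 * C ^ 2 / κ ^ 6), min ε1 (min ε2 ε3), L0,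
    lt_max_of_lt_left (by positivity), by positivity, ?_, ?_⟩
  · intro z hz w hw
    have := (hlip z hz w hw).2
    rw [hL]
    linarith
  intro ε hε hεε k1 k2 hkd1 hkd2 w1 hw1 w2 hw2 hne hdist r1 r2 hr1 hr2 hL1 hL2
  have i1 : ε ≤ ε1 := hεε.trans (min_le_left _ _)
  have i2 : ε ≤ ε2 := hεε.trans ((min_le_right _ _).trans (min_le_left _ _))
  have i3 : ε ≤ ε3 := hεε.trans ((min_le_right _ _).trans (min_le_right _ _))
  obtain ⟨a, ha⟩ : ∃ a : ℝ, a = ‖w1 - w2‖ := ⟨_, rfl⟩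
  have a0 : 0 < a := by rw [ha]; exact norm_pos_iff.mpr (sub_ne_zero.mpr hne)
  rw [← ha] at hdist ⊢
  have r10 : 0 ≤ r1 := (norm_nonneg _).trans (hr1 w1 hw1)
  have r20 : 0 ≤ r2 := (norm_nonneg _).trans (hr2 w2 hw2)
  have s1 : 0 ≤ 1 - ‖w1‖ := by linarith [hkd1 w1 hw1]
  have s2 : 0 ≤ 1 - ‖w2‖ := by linarith [hkd2 w2 hw2]
  have f1 := fa_nonneg (a := a) (s := 1 - ‖w1‖) a0 r10
  have f2 := fa_nonneg (a := a) (s := 1 - ‖w2‖) a0 r20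
  rcases lt_or_ge (l * a) (8 * ε) with hla | hla
  · -- the two sets are close to each other
    have hbig : ∀ s r : ℝ, 0 ≤ r → ε ≤ L * r → c ≤ fa a s r := by
      intro s r hr0 hr
      have h1 : c ≤ min r a / a := by
        rw [le_div_iff₀ a0]
        apply le_min
        · have h2 : c ≤ l / (8 * L) := by rw [hc]; exact min_le_right _ _
          have h3 : c * (8 * L) ≤ l := by rwa [le_div_iff₀ (by positivity)] at h2
          have h4 : c * (8 * L) * a ≤ l * a := mul_le_mul_of_nonneg_right h3 a0.le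
          have h5 : (c * a) * (8 * L) ≤ r * (8 * L) := by nlinarith
          exact le_of_mul_le_mul_right h5 (by positivity)
        · nlinarith
      have h2 : c * 1 ≤ min 1 (max s (min r a) / a) := by
        rw [mul_one]
        apply le_min c1'
        exact h1.trans (div_le_div_of_nonneg_right (le_max_right _ _) a0.le)
      have h1' : c * 1 ≤ min r a / a := by rw [mul_one]; exact h1
      have := rpow_prod_le (x := 1) (y := 1) zero_le_one zero_le_one c0 c1' h1' h2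
      rw [Real.one_rpow, Real.one_rpow, mul_one, mul_one] at this
      exact this
    have g1 := hbig (1 - ‖w1‖) r1 r10 hL1
    have g2 := hbig (1 - ‖w2‖) r2 r20 hL2
    have g3 : c ^ 2 ≤ fa a (1 - ‖w1‖) r1 * fa a (1 - ‖w2‖) r2 := by
      rw [pow_two]
      exact mul_le_mul g1 g2 c0.le f1
    calc Pr P (ES (TD f ε)) (CnS (Nr f ε k1) (Nr f ε k2)) ≤ 1 := Pr_le_one okP _ _
      _ = 1 / c ^ 2 * c ^ 2 := by field_simp
      _ ≤ 1 / c ^ 2 * (fa a (1 - ‖w1‖) r1 * fa a (1 - ‖w2‖) r2) :=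
          mul_le_mul_of_nonneg_left g3 (by positivity)
      _ ≤ _ := mul_le_mul_of_nonneg_right (le_max_left _ _) (mul_nonneg f1 f2)
  · obtain ⟨N, hN, hD, hB, -⟩ := hdom ε hε i1
    obtain ⟨c1, hc1, hc1', -⟩ := hlat ε hε i3 {w1} isPreconnected_singleton
      (by intro w hw; rw [Set.mem_singleton_iff] at hw; rw [hw]; exact hkd1 w1 hw1) w1 rfl
    obtain ⟨c2, hc2, hc2', -⟩ := hlat ε hε i3 {w2} isPreconnected_singleton
      (by intro w hw; rw [Set.mem_singleton_iff] at hw; rw [hw]; exact hkd2 w2 hw2) w2 rfl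
    have e1 := hdd ε hε i2 c1 hc1.1 w1 (hkd1 w1 hw1) hc1'
    have e2 := hdd ε hε i2 c2 hc2.1 w2 (hkd2 w2 hw2) hc2'
    obtain ⟨T, hT⟩ : ∃ T : Finset Vtx, T = TD f ε := ⟨_, rfl⟩
    rw [← hT] at hD hB e1 e2 ⊢
    have c1T : c1 ∈ T := by rw [hT]; exact hc1.1
    have c2T : c2 ∈ T := by rw [hT]; exact hc2.1
    have b1 : (1 : ℝ) ≤ dd T c1 := by exact_mod_cast dd_pos c1T
    have b2 : (1 : ℝ) ≤ dd T c2 := by exact_mod_cast dd_pos c2T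
    have w1d : w1 ∈ disc := mem_disc'.mpr (hkd1 w1 hw1)
    have w2d : w2 ∈ disc := mem_disc'.mpr (hkd2 w2 hw2)
    obtain ⟨A, hA⟩ : ∃ A : ℕ, A = ⌊l * a / (4 * ε)⌋₊ := ⟨_, rfl⟩
    have h2 : 2 ≤ l * a / (4 * ε) := by
      rw [le_div_iff₀ (by positivity)]
      linarith
    have hA1 : (A : ℝ) ≤ l * a / (4 * ε) := by
      rw [hA]
      exact Nat.floor_le (by positivity)
    have hA2 : l * a / (4 * ε) < A + 1 := by
      rw [hA]
      exact Nat.lt_floor_add_one _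
    have hA3 : 1 ≤ A := by
      have : (1 : ℝ) < A + 1 - 0 := by linarith
      have : (1 : ℝ) ≤ A := by linarith
      exact_mod_cast this
    have hA4 : l * a ≤ 8 * (ε * A) := by
      have h3 : l * a / (4 * ε) ≤ 2 * A := by linarith
      rw [div_le_iff₀ (by positivity)] at h3
      linarith
    have hsep : ∀ y1 y2, Nr f ε k1 y1 → Nr f ε k2 y2 → A ≤ sd y1 y2 := by
      rintro y1 y2 ⟨-, p, hp, hy1⟩ ⟨-, q, hq, hy2⟩
      have h3 := (norm_pos hε y1 y2).2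
      have h4 := (hlip p (mem_disc'.mpr (hkd1 p hp)) q (mem_disc'.mpr (hkd2 q hq))).1
      have h5 := mul_le_mul_of_nonneg_left (hdist p hp q hq) hl.le
      have h6 : ‖f p - f q‖ ≤ 2 * ε + ‖pos ε y1 - pos ε y2‖ + 2 * ε := by
        have h7 : f p - f q = -(pos ε y1 - f p) + (pos ε y1 - pos ε y2) + (pos ε y2 - f q) := by
          ring
        rw [h7]
        refine norm_add₃_le.trans ?_
        rw [norm_neg]
        linarith
      have h7 : l * a / (4 * ε) ≤ sd y1 y2 := by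
        rw [div_le_iff₀ (by positivity)]
        linarith
      have h8 : (A : ℝ) ≤ sd y1 y2 := hA1.trans h7
      exact_mod_cast h8
    have hball : ∀ (k : Set ℂ) (w : ℂ) (c : Vtx) (r : ℝ), (∀ w ∈ k, ‖w‖ ≤ 1) → w ∈ k →
        ‖pos ε c - f w‖ ≤ 2 * ε → (∀ p ∈ k, ‖p - w‖ ≤ r) → 0 ≤ r → ∀ y, Nr f ε k y →
        sd y c ≤ ⌈H * r / ε⌉₊ + 5 := by
      rintro k w c r hkd hw hcw hr hr0 y ⟨-, p, hp, hy⟩
      have h3 := (norm_pos hε y c).1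
      have h4 := (hlip p (mem_disc'.mpr (hkd p hp)) w (mem_disc'.mpr (hkd w hw))).2
      have h5 := mul_le_mul_of_nonneg_left (hr p hp) hH.le
      have h6 : ‖pos ε y - pos ε c‖ ≤ 2 * ε + ‖f p - f w‖ + 2 * ε := by
        have h7 : pos ε y - pos ε c = (pos ε y - f p) + (f p - f w) + -(pos ε c - f w) := by
          ring
        rw [h7]
        refine norm_add₃_le.trans ?_
        rw [norm_neg]
        linarith
      have h7 : (sd y c : ℝ) ≤ H * r / ε + 4 := by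
        rw [← sub_le_iff_le_add, le_div_iff₀ hε]
        nlinarith
      have h8 : (sd y c : ℝ) ≤ ((⌈H * r / ε⌉₊ + 5 : ℕ) : ℝ) := by
        push_cast
        linarith [Nat.le_ceil (H * r / ε)]
      exact_mod_cast h8
    have hm : ∀ r : ℝ, 0 ≤ r → ε * ((⌈H * r / ε⌉₊ + 5 : ℕ) : ℝ) ≤ H * r + 6 * ε := by
      intro r hr
      have h3 := (Nat.ceil_lt_add_one (show 0 ≤ H * r / ε by positivity)).le
      push_cast
      have h4 : ε * ((⌈H * r / ε⌉₊ : ℝ) + 5) ≤ ε * ((H * r / ε + 1) + 5) := by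
        apply mul_le_mul_of_nonneg_left _ hε.le
        linarith
      have h5 : ε * ((H * r / ε + 1) + 5) = H * r + 6 * ε := by field_simp; ring
      linarith
    obtain ⟨m1, hm1⟩ : ∃ m : ℕ, m = ⌈H * r1 / ε⌉₊ + 5 := ⟨_, rfl⟩
    obtain ⟨m2, hm2⟩ : ∃ m : ℕ, m = ⌈H * r2 / ε⌉₊ + 5 := ⟨_, rfl⟩
    have hm1' := hm r1 r10
    have hm2' := hm r2 r20
    rw [← hm1] at hm1'
    rw [← hm2] at hm2'
    have hb1 := hball k1 w1 c1 r1 hkd1 hw1 hc1' hr1 r10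
    have hb2 := hball k2 w2 c2 r2 hkd2 hw2 hc2' hr2 r20
    rw [← hm1] at hb1
    rw [← hm2] at hb2
    have nr1 : Nr f ε k1 c1 := ⟨hc1.1, w1, hw1, hc1'⟩
    have nr2 : Nr f ε k2 c2 := ⟨hc2.1, w2, hw2, hc2'⟩
    have main := up_main hD hJ nr1 nr2 hA3 (show 1 ≤ m1 by omega) (show 1 ≤ m2 by omega)
      (fun y hy => ⟨by rw [hT]; exact hy.1, hb1 y hy⟩)
      (fun y hy => ⟨by rw [hT]; exact hy.1, hb2 y hy⟩) hsep
    have u1 : eT T c1 A ≤ C * fa a (1 - ‖w1‖) r1 * eT T c1 (min m1 A) :=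
      side_up hl hH L0 hε a0 hL1 s1 e1.2 b1 hla hA4 hA3 (by omega) hm1' hC
    have u2 : eT T c2 A ≤ C * fa a (1 - ‖w2‖) r2 * eT T c2 (min m2 A) :=
      side_up hl hH L0 hε a0 hL2 s2 e2.2 b2 hla hA4 hA3 (by omega) hm2' hC
    have g1 : 0 < eT T c1 (min m1 A) := eT_pos c1T (by omega)
    have g2 : 0 < eT T c2 (min m2 A) := eT_pos c2T (by omega)
    have g3 := eT_pos c2T hA3
    rw [← hkk] at main
    generalize Pr P (ES T) (CnS (Nr f ε k1) (Nr f ε k2)) = Q at *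
    generalize fa a (1 - ‖w1‖) r1 = F1 at *
    generalize fa a (1 - ‖w2‖) r2 = F2 at *
    generalize eT T c1 (min m1 A) = E1 at *
    generalize eT T c2 (min m2 A) = E2 at *
    have h1 : (κ ^ 6 * Q) * (E1 * E2) ≤ (kk ^ 4 * C ^ 2 * (F1 * F2)) * (E1 * E2) := by
      calc (κ ^ 6 * Q) * (E1 * E2) = κ ^ 6 * ((E1 * E2) * Q) := by ring
        _ ≤ kk ^ 4 * (eT T c1 A * eT T c2 A) := main
        _ ≤ kk ^ 4 * ((C * F1 * E1) * (C * F2 * E2)) := by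
            apply mul_le_mul_of_nonneg_left _ (by positivity)
            exact mul_le_mul u1 u2 g3.le (by positivity)
        _ = _ := by ring
    have h3 := le_of_mul_le_mul_right h1 (mul_pos g1 g2)
    calc Q ≤ kk ^ 4 * C ^ 2 / κ ^ 6 * (F1 * F2) := by
          rw [div_mul_eq_mul_div, le_div_iff₀ (by positivity)]
          linarith
      _ ≤ _ := mul_le_mul_of_nonneg_right (le_max_right _ _) (mul_nonneg f1 f2)

end Pool.Agent.D0H49.CC
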